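import Pool.Agent.Lib.MP_7c08ba_nt.Met.V.Stmts
import Pool.Agent.Lib.MP_7c08ba_nt.Met.HRQ

set_option autoImplicit false

/-!
Module RQ for the group `RU F P U`: a homomorphism from the group generated by the elements of `U` in
the inertia groups outside `P` to `ℤ/p` which is invariant under `U` extends to `U`.
-/

noncomputable section

namespace BKV

open NumberField IsDedekindDomain BKGen BKGen.SUnits
open BKOdd (Fx IsKum stKum stH90)
open BKLoc2 (cy)
open BKMet (GF GQ cycF)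
open BKPar (Loc1)
open BKGlob2
open BKGlob2.RQAux (kum_inert inert_conj exists_gal0 exists_galE mem_of_fix prime_unique notMem_SP
  norm_zpow_of_val exists_lift root_fix)

namespace RQAux

lemma inert_mem_RU {F : Type} [Field F] {U : Subgroup (GF F)} {P : Set ℕ} {l : ℕ} [Fact l.Prime]
    (hl : l ∉ P) (j : AlgebraicClosure F →+* PadicAlgCl l) {g : GF F}
    (hg : g ∈ Inert F (AlgebraicClosure F) j) (hU : g ∈ U) : g ∈ RU F P U :=
  Subgroup.le_topologicalClosure _
    (Subgroup.subset_normalClosure ⟨l, inferInstance, j, hl, hg, hU⟩)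

lemma RU_le {F : Type} [Field F] {U : Subgroup (GF F)} (hn : U.Normal) {P : Set ℕ}
    (T : Subgroup (GF F)) (hT : IsClosed (T : Set (GF F)))
    (h : ∀ (l : ℕ) [Fact l.Prime], l ∉ P → ∀ j : AlgebraicClosure F →+* PadicAlgCl l,
      ∀ g ∈ Inert F (AlgebraicClosure F) j, g ∈ U → g ∈ T) : RU F P U ≤ T := by
  refine Subgroup.topologicalClosure_minimal _ ?_ hT
  rw [Subgroup.normalClosure, Subgroup.closure_le]
  intro x hx
  obtain ⟨a, ⟨l, hl, j, hlP, ha, haU⟩, hax⟩ := Group.mem_conjugatesOfSet_iff.1 hx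
  obtain ⟨c, rfl⟩ := isConj_iff.1 hax
  refine h l hlP (j.comp ((c⁻¹ : GF F) : AlgebraicClosure F →+* AlgebraicClosure F)) _
    (inert_conj (j' := j) (fun z => ?_) ha) (hn.conj_mem a haU c)
  change ‖j z‖ = ‖j (c⁻¹ (c z))‖
  rw [← AlgEquiv.mul_apply, inv_mul_cancel, AlgEquiv.one_apply]

/-- `RU F P U` is contained in `U` -/
lemma RU_le_U {F : Type} [Field F] {U : Subgroup (GF F)} (hn : U.Normal)
    (hU : IsOpen (U : Set (GF F))) {P : Set ℕ} : RU F P U ≤ U :=
  RU_le hn U (Subgroup.isClosed_of_isOpen U hU) fun _ _ _ _ _ _ h => h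

/-- the Kummer character at one prime -/
lemma one_prime (hTI : StTI) (hPA : StPA) {p : ℕ} [Fact p.Prime] {F : Type} [Field F]
    [NumberField F] {P : Set ℕ} {U : Subgroup (GF F)}
    {E : IntermediateField F (AlgebraicClosure F)} [NumberField E] (hS : Sit p F P U E)
    (hP : ∀ l ∈ P, l.Prime) {ζ : AlgebraicClosure F} (hζ : IsPrimitiveRoot ζ p)
    (hζU : ∀ g ∈ U, g ζ = ζ) {f : GF F → ZMod p} (hf : Loc1 f)
    (hf1 : ∀ r ∈ RU F P U, ∀ s ∈ RU F P U, f (r * s) = f r + f s)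
    (hf2 : ∀ g ∈ U, ∀ r ∈ RU F P U, f (g * r * g⁻¹) = f r)
    (v : HeightOneSpectrum (𝓞 E)) (hv : v ∉ SP E P) :
    ∃ (κ : U → ZMod p) (c : ZMod p), κ ∈ CC.Z1 (1 : U →* ZMod p) ∧
      ∀ (l : ℕ) [Fact l.Prime], l ∉ P → ∀ (j : AlgebraicClosure F →+* PadicAlgCl l) (g : GF F)
        (hg : g ∈ U), g ∈ Inert F (AlgebraicClosure F) j →
        (pl (j.comp (algebraMap E (AlgebraicClosure F))) = v → f g = c * κ ⟨g, hg⟩) ∧
        (pl (j.comp (algebraMap E (AlgebraicClosure F))) ≠ v → κ ⟨g, hg⟩ = 0) := by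
  have hGal : IsGalois F (AlgebraicClosure F) := inferInstance
  obtain ⟨x, hx, hx'⟩ := hS.prin v hv
  have hπ0 : ((x : E) : AlgebraicClosure F) ≠ 0 := by
    intro h
    exact x.ne_zero (Subtype.ext h)
  have hπU : ∀ g ∈ U, g ((x : E) : AlgebraicClosure F) = ((x : E) : AlgebraicClosure F) :=
    (hS.field _).1 (x : E).2
  obtain ⟨K1, -⟩ := stKum stH90 F (AlgebraicClosure F) U U.subtype
    hS.open'.isOpenEmbedding_subtypeVal p ζ hζ fun g => hζU g g.2
  obtain ⟨κ, hκZ, hκ⟩ := K1 _ hπ0 fun g => hπU g g.2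
  obtain ⟨l0, hl0, j0, hj0⟩ := exists_pl v
  have hl0P : l0 ∉ P := fun h => hv ⟨l0, h, by rw [← hj0]; exact l_mem_plI j0⟩
  have hl0p : l0 ≠ p := fun h => hl0P (h ▸ hS.memP)
  have hal : Algebra.IsAlgebraic E (AlgebraicClosure F) := inferInstance
  obtain ⟨j1, hj1⟩ := exists_lift (Ω := AlgebraicClosure F) j0
  have hj1' : j1.comp (algebraMap E (AlgebraicClosure F)) = j0 := RingHom.ext hj1
  obtain ⟨c, hc⟩ := hTI p F U hS.open' ζ hζ hζU l0 hl0p j1 _ hπ0 hπU (fun y hy hyU => by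
    have hyE : y ∈ E := (hS.field y).2 hyU
    obtain ⟨m, hm⟩ := norm_zpow_of_val hj0 hx (x := (⟨y, hyE⟩ : E)) fun h =>
      hy (congrArg (fun t : E => (t : AlgebraicClosure F)) h)
    refine ⟨m, ?_⟩
    rw [← hj1, ← hj1] at hm
    exact hm) κ hκ f hf (RU F P U) (fun g hg hgU => inert_mem_RU hl0P j1 hg hgU) hf1
  refine ⟨κ, c, hκZ, fun l hl hlP j g hg hgi => ⟨fun hj => ?_, fun hj => ?_⟩⟩
  · have hll : l = l0 := prime_unique (v := v) hl.out hl0.out (by rw [← hj]; exact l_mem_plI _)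
      (by rw [← hj0]; exact l_mem_plI _)
    subst hll
    obtain ⟨t, ht⟩ := hPA E l (j1.comp (algebraMap E (AlgebraicClosure F)))
      (j.comp (algebraMap E (AlgebraicClosure F))) (by rw [hj1', hj0, hj])
    obtain ⟨g0, hg0, hg0'⟩ := exists_galE E
      ((t : PadicAlgCl l →+* PadicAlgCl l).comp j1) j fun a ha => ht ⟨a, ha⟩
    have hg0U : g0 ∈ U := mem_of_fix hS.open' E hS.field hg0
    have hn : ∀ z, ‖j z‖ = ‖j1 (g0 z)‖ := fun z => by
      rw [hg0']
      exact norm_equiv t _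
    have hgi' := inert_conj hn hgi
    have hg' : g0 * g * g0⁻¹ ∈ U := U.mul_mem (U.mul_mem hg0U hg) (U.inv_mem hg0U)
    have h1 := hc _ hg' hgi'
    rw [hf2 g0 hg0U g (inert_mem_RU hlP j hgi hg)] at h1
    rw [h1]
    congr 1
    have h2 : (⟨g0 * g * g0⁻¹, hg'⟩ : U) * ⟨g0, hg0U⟩ = ⟨g0, hg0U⟩ * ⟨g, hg⟩ := by
      apply Subtype.ext
      change g0 * g * g0⁻¹ * g0 = g0 * g
      rw [inv_mul_cancel_right]
    have h3 := congrArg κ h2
    rw [hκZ.2, hκZ.2, MonoidHom.one_apply, one_mul, MonoidHom.one_apply, one_mul,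
      add_comm (κ ⟨g0, hg0U⟩)] at h3
    exact add_right_cancel h3
  · have hlp : l ≠ p := fun h => hlP (h ▸ hS.memP)
    refine kum_inert hζ hκ hlp j ?_ hg hgi
    exact norm_eq_of_val (j.comp (algebraMap E (AlgebraicClosure F)))
      (hx' _ (notMem_SP hP hlP _) hj)

end RQAux

open RQAux

/-- Module RQ -/
theorem stRQ (hFR : StFR) (hTI : StTI) (hPA : StPA) : StRQ := by
  classical
  intro p _ F _ _ P U E _ hS f hf hf1 hf2
  have hP : ∀ l ∈ P, l.Prime := hS.prime
  have hram : RU F P U ≤ U := RU_le_U hS.normal hS.open'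
  obtain ⟨ζ, hζ⟩ : ∃ ζ : AlgebraicClosure F, IsPrimitiveRoot ζ p := by
    have : NeZero ((p : ℕ) : AlgebraicClosure F) :=
      ⟨Nat.cast_ne_zero.2 (Fact.out : p.Prime).ne_zero⟩
    exact HasEnoughRootsOfUnity.exists_primitiveRoot (AlgebraicClosure F) p
  have hζU : ∀ g ∈ U, g ζ = ζ := fun g hg => root_fix hζ (hS.root g hg)
  have hf0 : f 1 = 0 := by
    have h := hf1 1 (one_mem _) 1 (one_mem _)
    rw [mul_one] at h
    exact left_eq_add.1 h
  obtain ⟨W, hW, hfW⟩ := id hf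
  obtain ⟨L, hL, hLW⟩ := hFR F W hW
  let Q : Set (HeightOneSpectrum (𝓞 E)) :=
    {v | v ∉ SP E P ∧ ∃ l ∈ L, l.Prime ∧ (l : 𝓞 E) ∈ v.asIdeal}
  have hQ : Q.Finite := by
    have h1 : ({l ∈ L | l.Prime} : Set ℕ).Finite := hL.subset (Set.sep_subset _ _)
    refine (h1.biUnion (t := fun l => Sp E l) fun l hl => ?_).subset ?_
    · have h2 := finite_Sp E l hl.2.ne_zero
      exact Set.toFinite _
    · rintro v ⟨-, l, hl, hl', hlv⟩
      exact Set.mem_biUnion (x := l) ⟨hl, hl'⟩ hlv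
  have hone := one_prime hTI hPA hS hP hζ hζU hf hf1 hf2
  choose! κ c hκ hc using hone
  have hQS : ∀ v ∈ hQ.toFinset, v ∉ SP E P := fun v hv => ((Set.Finite.mem_toFinset hQ).1 hv).1
  let φ : U → ZMod p := fun g => ∑ v ∈ hQ.toFinset, c v * κ v g
  have hφc : Continuous φ := continuous_finsetSum _ fun v hv =>
    continuous_const.mul (hκ v (hQS v hv)).1
  have hφ : ∀ g h, φ (g * h) = φ g + φ h := by
    intro g h
    change ∑ v ∈ hQ.toFinset, c v * κ v (g * h) = _
    rw [← Finset.sum_add_distrib]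
    refine Finset.sum_congr rfl fun v hv => ?_
    rw [(hκ v (hQS v hv)).2, MonoidHom.one_apply, one_mul, mul_add]
  have hφ1 : φ 1 = 0 := by
    have h := hφ 1 1
    rw [mul_one] at h
    exact left_eq_add.1 h
  let y : GF F → ZMod p := fun g => if hg : g ∈ U then φ ⟨g, hg⟩ else 0
  have hyU : ∀ g (hg : g ∈ U), y g = φ ⟨g, hg⟩ := fun g hg => dif_pos hg
  have hyadd : ∀ g ∈ U, ∀ h ∈ U, y (g * h) = y g + y h := by
    intro g hg h hh
    rw [hyU g hg, hyU h hh, hyU _ (U.mul_mem hg hh), ← hφ]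
    rfl
  have hyl : Loc1 y := by
    let φh : U →* Multiplicative (ZMod p) :=
      { toFun := fun g => Multiplicative.ofAdd (φ g)
        map_one' := by rw [hφ1, ofAdd_zero]
        map_mul' := fun g h => by rw [hφ, ofAdd_add] }
    have hk : IsOpen (φh.ker : Set U) := by
      have h1 : (φh.ker : Set U) = φ ⁻¹' {0} := by
        ext g
        exact Iff.rfl
      rw [h1]
      exact (isOpen_discrete _).preimage hφc
    refine ⟨φh.ker.map U.subtype, ?_, ?_⟩
    · rw [Subgroup.coe_map]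
      exact hS.open'.isOpenEmbedding_subtypeVal.isOpenMap _ hk
    · rintro g _ ⟨w, hw, rfl⟩
      have hw' : φ w = 0 := hw
      by_cases hg : g ∈ U
      · change y (g * (w : GF F)) = y g
        rw [hyadd g hg w w.2, hyU w w.2]
        change y g + φ w = y g
        rw [hw', add_zero]
      · have h2 : g * (w : GF F) ∉ U := fun h => hg (by
          have h3 := U.mul_mem h (U.inv_mem w.2)
          rwa [mul_inv_cancel_right] at h3)
        change y (g * (w : GF F)) = y g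
        change (if hg : g * (w : GF F) ∈ U then φ ⟨_, hg⟩ else 0) =
          (if hg : g ∈ U then φ ⟨g, hg⟩ else 0)
        rw [dif_neg h2, dif_neg hg]
  refine ⟨y, hyl, hyadd, ?_⟩
  let T : Subgroup (GF F) :=
    { carrier := {r | r ∈ RU F P U ∧ y r = f r}
      mul_mem' := by
        rintro r s ⟨hr, hr'⟩ ⟨hs, hs'⟩
        exact ⟨mul_mem hr hs, by
          rw [hyadd r (hram hr) s (hram hs), hf1 r hr s hs, hr', hs']⟩
      one_mem' := ⟨one_mem _, by rw [hf0, hyU 1 (one_mem _)]; exact hφ1⟩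
      inv_mem' := by
        rintro r ⟨hr, hr'⟩
        have hr2 : r⁻¹ ∈ RU F P U := inv_mem hr
        refine ⟨hr2, ?_⟩
        have h1 := hyadd r (hram hr) r⁻¹ (hram hr2)
        have h2 := hf1 r hr r⁻¹ hr2
        rw [mul_inv_cancel, hyU 1 (one_mem _)] at h1
        rw [mul_inv_cancel, hf0] at h2
        have h3 : φ ⟨1, one_mem _⟩ = 0 := hφ1
        rw [h3, hr', h2] at h1
        exact (add_left_cancel h1).symm }
  have hTc : IsClosed (T : Set (GF F)) := by
    have h1 : (T : Set (GF F)) = (RU F P U : Set (GF F)) ∩ {r | y r = f r} := rfl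
    rw [h1]
    refine (Subgroup.isClosed_topologicalClosure _).inter (isClosed_eq ?_ ?_)
    · exact BKOdd.KumAux.smooth_continuous hyl
    · exact BKOdd.KumAux.smooth_continuous hf
  have hRT : RU F P U ≤ T := by
    refine RU_le hS.normal T hTc fun l hl hlP j g hgi hgU => ?_
    have hgR : g ∈ RU F P U := inert_mem_RU hlP j hgi hgU
    refine ⟨hgR, ?_⟩
    rw [hyU g hgU]
    change ∑ v ∈ hQ.toFinset, c v * κ v ⟨g, hgU⟩ = f g
    by_cases hw : pl (j.comp (algebraMap E (AlgebraicClosure F))) ∈ Q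
    · rw [Finset.sum_eq_single (pl (j.comp (algebraMap E (AlgebraicClosure F))))]
      · exact ((hc _ hw.1 l hlP j g hgU hgi).1 rfl).symm
      · intro v hv hne
        rw [(hc v (hQS v hv) l hlP j g hgU hgi).2 (Ne.symm hne), mul_zero]
      · intro h
        exact absurd ((Set.Finite.mem_toFinset hQ).2 hw) h
    · have hlL : l ∉ L := fun h => hw ⟨notMem_SP hP hlP _, l, h, hl.out, l_mem_plI _⟩
      have hgW : g ∈ W := hLW l hlL j g hgi
      have h1 : f g = 0 := by
        have h2 := hfW 1 g hgW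
        rwa [one_mul, hf0] at h2
      rw [h1]
      refine Finset.sum_eq_zero fun v hv => ?_
      have hne : pl (j.comp (algebraMap E (AlgebraicClosure F))) ≠ v := by
        rintro rfl
        exact hw ((Set.Finite.mem_toFinset hQ).1 hv)
      rw [(hc v (hQS v hv) l hlP j g hgU hgi).2 hne, mul_zero]
  exact fun r hr => (hRT hr).2

end BKV
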