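import Pool.Agent.Lib.MP_7c08ba_nt.Met.HCE
import Pool.Agent.Lib.MP_7c08ba_nt.Met.V.RQ

set_option autoImplicit false

/-!
Module CE for the group `GU F P U`: the Kummer description of `Z¹(GU F P U, k(ψ))`.
-/

noncomputable section

namespace BKV

open NumberField IsDedekindDomain BKGen BKGlob2
open BKOdd (Fx IsKum IsNm chm chZ ConjHyp)
open BKLoc2 (cl sc im cy cyL Sys IsKP IsLam IsHom StLoc hq ht PP)
open BKMet (QZ actA kch Rel GF GQ cycF cycL IsConj Pl Splits pb1 pb2 LocAx GlobAx)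
open BKPar (Loc1 Loc2)


namespace CEV

theorem vanish {F : Type} [Field F] {P : Set ℕ} {U : Subgroup (GF F)} [U.Normal]
    (hU : IsOpen (U : Set (GF F))) {M : Type} [AddCommGroup M]
    {ρ : GF F →* AddMonoid.End M} (hρ : ∀ g ∈ U, ρ g = 1) {x : GF F → M} (hx : x ∈ BKND.Z1 ρ)
    (h : ∀ g ∈ InertAwayU F P U, x g = 0) : ∀ r ∈ RU F P U, x r = 0 := by
  obtain ⟨⟨W, hW, hWx⟩, hx2⟩ := hx
  have hx1 : x 1 = 0 := by
    have h2 := hx2 1 1
    rw [mul_one, map_one] at h2
    exact left_eq_add.1 h2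
  have hxU : ∀ g ∈ U, ∀ h, x (g * h) = x g + x h := by
    intro g hg h
    rw [hx2, hρ g hg]
    rfl
  let N : Subgroup (GF F) :=
    { carrier := {g | g ∈ U ∧ x g = 0}
      mul_mem' := by
        rintro g h ⟨h1, h2⟩ ⟨h3, h4⟩
        exact ⟨mul_mem h1 h3, by rw [hxU g h1, h2, h4, add_zero]⟩
      one_mem' := ⟨one_mem _, hx1⟩
      inv_mem' := by
        rintro g ⟨h1, h2⟩
        refine ⟨inv_mem h1, ?_⟩
        have h3 := hxU g h1 g⁻¹
        rw [mul_inv_cancel, hx1, h2, zero_add] at h3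
        exact h3.symm }
  have hN : N.Normal := by
    constructor
    rintro g ⟨h1, h2⟩ t
    refine ⟨‹U.Normal›.conj_mem g h1 t, ?_⟩
    have h3 : x (t * g * t⁻¹) = x t + ρ t (x (g * t⁻¹)) := by
      rw [mul_assoc]
      exact hx2 _ _
    have h4 := hx2 t t⁻¹
    rw [mul_inv_cancel, hx1] at h4
    rw [h3, hxU g h1, h2, zero_add, ← h4]
  have hNc : IsClosed (N : Set (GF F)) := by
    have h1 : IsClosed {g : GF F | x g = 0} := by
      rw [← isOpen_compl_iff]
      rw [isOpen_iff_forall_mem_open]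
      intro g hg
      refine ⟨(fun g' => g⁻¹ * g') ⁻¹' (W : Set (GF F)), ?_, ?_, ?_⟩
      · intro g' hg' h0
        have h2 := hWx g _ hg'
        rw [mul_inv_cancel_left] at h2
        exact hg (h2.symm.trans h0)
      · exact hW.preimage (continuous_const.mul continuous_id)
      · rw [Set.mem_preimage, inv_mul_cancel]
        exact W.one_mem
    exact (U.isClosed_of_isOpen hU).inter h1
  have hle : RU F P U ≤ N := by
    refine Subgroup.topologicalClosure_minimal _ ?_ hNc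
    refine Subgroup.normalClosure_le_normal ?_
    intro g hg
    exact ⟨by obtain ⟨l, _, j, hl, h1, h2⟩ := hg; exact h2, h g hg⟩
  intro r hr
  exact (hle hr).2

end CEV

open BKGlob2.CEAux BKGlob2.ON in
/-- Module CE. -/
theorem stCE (h1 : BKLoc2.StKH) : StCE := by
  intro p _ F _ _ P U _ E _ hS k _ _ _ ψ ψ' ψ₀ hψ hψ₀ χ hχ hrel a ha
  have : CharZero (AlgebraicClosure F) := charZero_of_injective_algebraMap
    (algebraMap F (AlgebraicClosure F)).injective
  have hpp : p.Prime := Fact.out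
  obtain ⟨ζ, hζ⟩ := exists_zeta p F
  have hζU : ∀ g ∈ U, g ζ = ζ := fun g hg => zeta_fix hζ g (hS.root g hg)
  have : Normal E (AlgebraicClosure F) := Normal.tower_top_of_normal F E (AlgebraicClosure F)
  -- the characters of `GF F`
  obtain ⟨Ψ, hΨ⟩ : ∃ Ψ : GF F →* kˣ, ∀ g, Ψ g = ψ (QuotientGroup.mk g) :=
    ⟨ψ.comp (QuotientGroup.mk' (RU F P U)), fun _ => rfl⟩
  obtain ⟨Ψ', hΨ'⟩ : ∃ Ψ' : GF F →* kˣ, ∀ g, Ψ' g = ψ' (QuotientGroup.mk g) :=
    ⟨ψ'.comp (QuotientGroup.mk' (RU F P U)), fun _ => rfl⟩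
  have hrel' : Rel (cycF p F) Ψ Ψ' := by
    intro g
    rw [hΨ, hΨ', ← hχ]
    exact hrel (QuotientGroup.mk g)
  obtain ⟨lam, hlam⟩ := BKLoc2.LocAux.exists_lam (p := p) k
  have hpair := BKLoc2.LocAux.pair hrel' hlam
  have hk : ∀ x : k, p • x = 0 := BKLoc2.LocAux.p_smul
  have hρU : ∀ g ∈ U, kch Ψ g = 1 := by
    intro g hg
    refine AddMonoidHom.ext fun x => ?_
    change ((Ψ g : kˣ) : k) * x = x
    rw [hΨ, hψ g hg, Units.val_one, one_mul]
  have hSm : BKND.Sm (kch Ψ) := ⟨U, hS.open', hρU⟩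
  set b := BKLoc2.LocAux.bk lam with hb
  set KR : (GF F → k) → k → AlgebraicClosure F → Prop := fun x n' a => a ≠ 0 ∧
    (∀ h ∈ U, (MonoidHom.id (GF F)) h a = a) ∧
      ∃ κ : U → ZMod p, IsKum ((MonoidHom.id (GF F)).comp U.subtype) ζ a κ ∧
        ∀ h : U, b (x h) n' = cl p (((κ h).val : ℚ_[p]) / p) with hKR
  obtain ⟨k1, k2, k3, k4, k5, k6, k7⟩ := h1 p F (AlgebraicClosure F) (GF F)
    (MonoidHom.id (GF F)) Topology.IsOpenEmbedding.id ζ hζ U inferInstance hS.open' hS.index hζU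
    k k (kch Ψ) (kch Ψ') b hk hk hpair hρU KR (fun _ _ _ => Iff.rfl)
  have hne : ∀ {x n' a}, KR x n' a → a ≠ 0 := fun h => h.1
  have hfx : ∀ {x n' a}, KR x n' a → ∀ h ∈ U, h a = a := fun h => h.2.1
  -- `p`-th powers in the group of units
  have hpp' : ∀ c c' : Additive (US F P U), (∃ d : AlgebraicClosure F, d ≠ 0 ∧
      (∀ h ∈ U, (MonoidHom.id (GF F)) h d = d) ∧
      (((Additive.toMul c' : US F P U) : (AlgebraicClosure F)ˣ) : AlgebraicClosure F) =
        ((Additive.toMul c : US F P U) : (AlgebraicClosure F)ˣ) * d ^ p) ↔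
      c' - c ∈ PP p (Additive (US F P U)) := by
    intro c c'
    rw [BKLoc2.N3Aux.mem_PP]
    constructor
    · rintro ⟨d, hd, hd', e⟩
      refine ⟨Additive.ofMul ⟨Units.mk0 d hd, hd', fun l _ hl j => ?_⟩, ?_⟩
      · have h2 := (Additive.toMul c).2.2 l hl j
        have h3 := (Additive.toMul c').2.2 l hl j
        rw [e, map_mul, norm_mul, h2, one_mul, map_pow, norm_pow] at h3
        exact (pow_eq_one_iff_of_nonneg (norm_nonneg _) hpp.ne_zero).1 h3
      · rw [eq_sub_iff_add_eq']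
        apply Additive.toMul.injective
        apply Subtype.ext
        apply Units.ext
        exact e.symm
    · rintro ⟨d, hd⟩
      refine ⟨((Additive.toMul d : US F P U) : (AlgebraicClosure F)ˣ), Units.ne_zero _,
        (Additive.toMul d).2.1, ?_⟩
      rw [eq_sub_iff_add_eq'] at hd
      rw [← hd]
      rfl
  -- the count
  have key : (BKND.B1 (kch Ψ)).relIndex (ZR (RU F P U) (kch Ψ)) = hq p (kch ψ₀) a := by
    refine BKLoc2.N3Aux.card_kum (ZR (RU F P U) (kch Ψ)) (BKND.B1 (kch Ψ)) (kch ψ₀) a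
      (fun x n' (c : Additive (US F P U)) =>
        KR x n' ((Additive.toMul c : US F P U) : (AlgebraicClosure F)ˣ)) ?_ ?_ ?_ ?_ ?_ ?_ ?_
    · intro x hx n'
      obtain ⟨α, hα⟩ := k1 x hx.1 n'
      obtain ⟨hα0, hαf, κ, ⟨y, hy0, hyα, hyv⟩, hκ⟩ := id hα
      have hαE : α ∈ E := (hS.field α).2 hαf
      have hαE0 : (⟨α, hαE⟩ : E) ≠ 0 := fun h => hα0 (congrArg Subtype.val h)
      obtain ⟨c, hc⟩ := exists_unit hpp hS.prime hS.prin (Units.mk0 ⟨α, hαE⟩ hαE0) (by
        intro l _ hl j'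
        obtain ⟨j, rfl⟩ := exists_lift E j'
        have h3 : ∀ σ ∈ Inert E (AlgebraicClosure F) j, σ y = y := by
          intro σ hσ
          have hσU : (σ.restrictScalars F : GF F) ∈ U := restrict_mem hS.open' hS.field σ
          have hσR : (σ.restrictScalars F : GF F) ∈ RU F P U := by
            refine Subgroup.le_topologicalClosure _ (Subgroup.subset_normalClosure ?_)
            exact ⟨l, inferInstance, j, hl, hσ, hσU⟩
          have h4 := hκ ⟨_, hσU⟩
          have h5 : x (σ.restrictScalars F : GF F) = 0 := hx.2 _ hσR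
          rw [h5, map_zero, AddMonoidHom.zero_apply] at h4
          have h6 : κ ⟨_, hσU⟩ = 0 := by
            have h7 : BKLoc2.KHAux.jz (κ ⟨_, hσU⟩) = 0 := h4.symm
            exact BKLoc2.KHAux.jz_eq_zero h7
          have h8 := hyv ⟨_, hσU⟩
          rw [h6, ZMod.val_zero, pow_zero, one_mul] at h8
          exact h8
        obtain ⟨b', hb'⟩ := norm_of_fixed_inert j y h3
        refine ⟨b', ?_⟩
        change ‖j α‖ = ‖j (algebraMap E (AlgebraicClosure F) b')‖ ^ p
        rw [← hb', ← norm_pow, ← map_pow, hyα])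
      set u : Eˣ := Units.mk0 ⟨α, hαE⟩ hαE0 * (c ^ p)⁻¹ with hu
      have hu0 : ((u : E) : AlgebraicClosure F) ≠ 0 := by
        intro h
        exact u.ne_zero (Subtype.ext h)
      refine ⟨Additive.ofMul ⟨Units.mk0 ((u : E) : AlgebraicClosure F) hu0,
        (hS.field _).1 (u : E).2, fun l _ hl j => ?_⟩, ?_⟩
      · exact hc l hl (j.comp (algebraMap E (AlgebraicClosure F)))
      · refine (k2 x hx.1 n' α hα _).2 ⟨((c⁻¹ : Eˣ) : E), ?_, ?_, ?_⟩
        · intro h
          exact (c⁻¹ : Eˣ).ne_zero (Subtype.ext h)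
        · exact (hS.field _).1 ((c⁻¹ : Eˣ) : E).2
        · change ((u : E) : AlgebraicClosure F) = α * (((c⁻¹ : Eˣ) : E) : AlgebraicClosure F) ^ p
          rw [hu, ← inv_pow, Units.val_mul, Units.val_pow_eq_pow_val]
          rfl
    · intro x hx n' c hc c'
      rw [k2 x hx.1 n' _ hc, ← hpp']
    · intro x hx n' m' c c' hc hc'
      exact k3 x hx.1 n' m' _ _ hc hc'
    · intro x hx n' c d hc
      obtain ⟨v, rfl⟩ := QuotientGroup.mk_surjective d
      have h2 := k4 x hx.1 n' _ v hc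
      have h3 : kch ψ₀ (QuotientGroup.mk v) n' = kch Ψ' v n' := by
        rw [BKMet.kch_apply, BKMet.kch_apply, hψ₀, hΨ']
      change KR x (kch ψ₀ (QuotientGroup.mk v) n') _
      rw [h3, ha]
      exact h2
    · intro x hx y hy n' c c' hc hc'
      exact k5 x hx.1 y hy.1 n' _ _ hc hc'
    · intro x hx
      exact k6 x hx.1
    · intro A hA1 hA2
      obtain ⟨x, hx, hxA⟩ := k7
        (fun n' => ((Additive.toMul (A n') : US F P U) : (AlgebraicClosure F)ˣ))
        (fun n' => ⟨Units.ne_zero _, (Additive.toMul (A n')).2.1⟩) (fun n' m' => by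
          obtain ⟨d, -, hd, e⟩ := (hpp' _ _).2 (hA1 n' m')
          exact ⟨d, hd, e⟩) (fun v n' => by
          obtain ⟨d, -, hd, e⟩ := (hpp' _ _).2 (hA2 (QuotientGroup.mk v) n')
          refine ⟨d, hd, ?_⟩
          have h3 : kch ψ₀ (QuotientGroup.mk v) n' = kch Ψ' v n' := by
            rw [BKMet.kch_apply, BKMet.kch_apply, hψ₀, hΨ']
          rw [h3, ha] at e
          exact e)
      refine ⟨x, ⟨hx, ?_⟩, hxA⟩
      refine CEV.vanish hS.open' hρU hx ?_
      rintro g ⟨l, _, j, hl, hg, hgU⟩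
      have hlp : l ≠ p := by
        rintro rfl
        exact hl hS.memP
      refine hpair.left _ fun n' => ?_
      obtain ⟨-, -, κ, ⟨y, hy0, hyα, hyv⟩, hκ⟩ := hxA n'
      have h2 : κ ⟨g, hgU⟩ = 0 := by
        refine kappa_zero hlp hζ j hg (y := y) ?_ (hyv ⟨g, hgU⟩)
        rw [hyα]
        exact (Additive.toMul (A n')).2.2 l hl j
      have h3 := hκ ⟨g, hgU⟩
      rw [h2, ZMod.val_zero, Nat.cast_zero, zero_div] at h3
      rw [h3]
      rfl
  -- counting
  have hB : BKND.B1 (kch Ψ) ≤ ZR (RU F P U) (kch Ψ) := by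
    intro x hx
    refine ⟨BKLoc2.LocAux.B1_le hSm hx, fun r hr => ?_⟩
    obtain ⟨m, hm⟩ := hx
    rw [hm, hρU r ((RQAux.RU_le_U hS.normal hS.open') hr)]
    exact sub_self m
  have hc1 : Nat.card (BKND.Z1 (kch ψ)) = Nat.card (ZR (RU F P U) (kch Ψ)) := by
    refine card_inf (RU F P U) (kch ψ) (kch Ψ) fun g => ?_
    refine AddMonoidHom.ext fun x => ?_
    change ((Ψ g : kˣ) : k) * x = ((ψ (QuotientGroup.mk g) : kˣ) : k) * x
    rw [hΨ]
  have hc2 : BKND.H0 (kch ψ) = BKND.H0 (kch Ψ) := by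
    ext m
    constructor
    · intro h g
      have h2 := h (QuotientGroup.mk g)
      rw [BKMet.kch_apply] at h2 ⊢
      rw [hΨ]
      exact h2
    · intro h g
      obtain ⟨g, rfl⟩ := QuotientGroup.mk_surjective g
      have h2 := h g
      rw [BKMet.kch_apply] at h2 ⊢
      rw [hΨ] at h2
      exact h2
  have h2 := AddSubgroup.relIndex_mul_relIndex ⊥ (BKND.B1 (kch Ψ)) (ZR (RU F P U) (kch Ψ)) bot_le hB
  rw [AddSubgroup.relIndex_bot_left, AddSubgroup.relIndex_bot_left, key] at h2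
  rw [hc1, hc2, ← h2, ← BKLoc2.LocAux.card_B1 Ψ]
  ring

end BKV
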