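import Pool.Agent.Lib.MP_7c08ba_nt.Met.HCT
import Pool.Agent.Lib.MP_7c08ba_nt.Met.V.RQ

set_option autoImplicit false

/-!
Module CT for the group `GU F P U`.
-/

noncomputable section

namespace BKV

open NumberField IsDedekindDomain BKGen BKGlob2
open BKOdd (Fx IsKum IsNm chm chZ ConjHyp)
open BKLoc2 (cl sc im cy cyL Sys IsKP IsLam IsHom StLoc hq ht PP)
open BKMet (QZ actA kch Rel GF GQ cycF cycL IsConj Pl Splits pb1 pb2 LocAx GlobAx)
open BKPar (Loc1 Loc2)


open BKGlob2.CTAux in
/-- Module CT. -/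
theorem stCT : StCT := by
  intro p _ F _ _ P U _ E _ hS k _ _ _ ψ ψ' ψ₀ hψ hψ₀ χ hχ hrel a ha
  have hp : p.Prime := Fact.out
  have hpe : NeZero p := ⟨hp.ne_zero⟩
  -- `p`-torsion
  have htor : ∀ x : Additive (US F P U), p • x = 0 ↔
      ((x.toMul : (AlgebraicClosure F)ˣ) : AlgebraicClosure F) ^ p = 1 := by
    intro x
    constructor
    · intro h
      have h1 : (p • x).toMul = 1 := by rw [h]; rfl
      rw [toMul_nsmul] at h1
      have h2 := congrArg (fun y : US F P U =>
        ((y : (AlgebraicClosure F)ˣ) : AlgebraicClosure F)) h1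
      simpa using h2
    · intro h
      apply Additive.toMul.injective
      rw [toMul_nsmul, toMul_zero]
      apply Subtype.ext
      apply Units.ext
      simpa using h
  obtain ⟨ζ, hζ⟩ : ∃ ζ : AlgebraicClosure F, IsPrimitiveRoot ζ p :=
    HasEnoughRootsOfUnity.exists_primitiveRoot (AlgebraicClosure F) p
  obtain ⟨ζU, hζU⟩ : ∃ ζU : US F P U,
      ((ζU : (AlgebraicClosure F)ˣ) : AlgebraicClosure F) = ζ := by
    refine ⟨⟨Units.mk0 ζ (hζ.ne_zero hp.ne_zero), fun g hg => ?_, fun l _ hl j => ?_⟩, rfl⟩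
    · rw [Units.val_mk0, act_root F g ζ hζ.pow_eq_one, hS.root g hg]
      have : Fact (1 < p) := ⟨hp.one_lt⟩
      rw [ZMod.val_one, pow_one]
    · have h1 : ‖j ζ‖ ^ p = 1 := by
        rw [← norm_pow, ← map_pow, hζ.pow_eq_one, map_one, norm_one]
      exact (pow_eq_one_iff_of_nonneg (norm_nonneg _) hp.ne_zero).1 h1
  -- the inclusion of the `p`-torsion
  obtain ⟨i, hi⟩ : ∃ i : ZMod p →+ Additive (US F P U), ∀ n : ℕ,
      (((i n).toMul : (AlgebraicClosure F)ˣ) : AlgebraicClosure F) = ζ ^ n := by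
    have h0 : (zmultiplesHom (Additive (US F P U)) (Additive.ofMul ζU)) (p : ℤ) = 0 := by
      rw [zmultiplesHom_apply, natCast_zsmul, htor]
      show (((ζU : (AlgebraicClosure F)ˣ)) : AlgebraicClosure F) ^ p = 1
      rw [hζU, hζ.pow_eq_one]
    refine ⟨ZMod.lift p ⟨zmultiplesHom (Additive (US F P U)) (Additive.ofMul ζU), h0⟩,
      fun n => ?_⟩
    have h1 : (ZMod.lift p ⟨zmultiplesHom (Additive (US F P U)) (Additive.ofMul ζU), h0⟩)
        (n : ZMod p) = n • (Additive.ofMul ζU) := by
      have h2 := ZMod.lift_coe p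
        ⟨zmultiplesHom (Additive (US F P U)) (Additive.ofMul ζU), h0⟩ (n : ℤ)
      rw [Int.cast_natCast] at h2
      rw [h2]
      simp
    rw [h1, toMul_nsmul]
    show ((((ζU ^ n : US F P U)) : (AlgebraicClosure F)ˣ) : AlgebraicClosure F) = ζ ^ n
    rw [SubgroupClass.coe_pow, Units.val_pow_eq_pow_val, hζU]
  have hi' : ∀ c : ZMod p, (((i c).toMul : (AlgebraicClosure F)ˣ) : AlgebraicClosure F) =
      ζ ^ c.val := fun c => by
    rw [← hi, ZMod.natCast_val, ZMod.cast_id]
  have hval : ∀ x y : Additive (US F P U),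
      ((x.toMul : (AlgebraicClosure F)ˣ) : AlgebraicClosure F) =
        ((y.toMul : (AlgebraicClosure F)ˣ) : AlgebraicClosure F) → x = y := fun x y h =>
    Additive.toMul.injective (Subtype.ext (Units.ext h))
  have hinj : Function.Injective i := fun c d h => by
    have h1 : ζ ^ c.val = ζ ^ d.val := by rw [← hi', ← hi', h]
    exact ZMod.val_injective p (hζ.pow_inj (ZMod.val_lt c) (ZMod.val_lt d) h1)
  have hrange : ∀ x : Additive (US F P U), p • x = 0 → ∃ c, i c = x := fun x hx => by
    obtain ⟨n, -, hn⟩ := hζ.eq_pow_of_pow_eq_one ((htor x).1 hx)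
    exact ⟨n, hval _ _ (by rw [hi, hn])⟩
  have hkp : ∀ n : k, p • n = 0 := fun n => by
    rw [nsmul_eq_mul]
    have h1 : ((p : ℕ) : k) = algebraMap (ZMod p) k (p : ZMod p) := by rw [map_natCast]
    rw [h1, ZMod.natCast_self, map_zero, zero_mul]
  -- equivariance
  have hact : ∀ (g : GF F) (f : k →+ Additive (US F P U)) (n : k),
      a (QuotientGroup.mk g) (f n) =
        f (algebraMap (ZMod p) k (PadicInt.toZMod ((cycF p F g : ℤ_[p]ˣ) : ℤ_[p])) * n) := by
    intro g f n
    have h1 : p • f n = 0 := by rw [← map_nsmul, hkp, map_zero]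
    apply hval
    rw [ha, act_root F g _ ((htor _).1 h1)]
    have h2 : algebraMap (ZMod p) k (PadicInt.toZMod ((cycF p F g : ℤ_[p]ˣ) : ℤ_[p])) * n =
        (PadicInt.toZMod ((cycF p F g : ℤ_[p]ˣ) : ℤ_[p])).val • n := by
      rw [nsmul_eq_mul]
      congr 1
      conv_lhs => rw [← ZMod.natCast_zmod_val (PadicInt.toZMod ((cycF p F g : ℤ_[p]ˣ) : ℤ_[p]))]
      rw [map_natCast]
    rw [h2, map_nsmul, toMul_nsmul, SubgroupClass.coe_pow, Units.val_pow_eq_pow_val]
  have hpsi : ∀ g : GF F, ((ψ (QuotientGroup.mk g) : kˣ) : k) *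
      ((ψ' (QuotientGroup.mk g) : kˣ) : k) =
      algebraMap (ZMod p) k (PadicInt.toZMod ((cycF p F g : ℤ_[p]ˣ) : ℤ_[p])) := fun g => by
    rw [hrel, hχ]
  have hequi : ∀ f : k →+ Additive (US F P U),
      (∀ d n, f (kch ψ₀ d n) = a d (f n)) ↔
      ∀ (g : GF F) (n : k), f (((ψ' (QuotientGroup.mk g) : kˣ) : k) *
        (1 - ((ψ (QuotientGroup.mk g) : kˣ) : k)) * n) = 0 := by
    intro f
    have h1 : ∀ (g : GF F) (n : k), f (kch ψ₀ (QuotientGroup.mk g) n) =
        a (QuotientGroup.mk g) (f n) ↔ f (((ψ' (QuotientGroup.mk g) : kˣ) : k) *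
        (1 - ((ψ (QuotientGroup.mk g) : kˣ) : k)) * n) = 0 := by
      intro g n
      rw [hact, ← hpsi, BKMet.kch_apply, hψ₀, ← sub_eq_zero, ← map_sub]
      have h2 : ((ψ' (QuotientGroup.mk g) : kˣ) : k) * n -
          ((ψ (QuotientGroup.mk g) : kˣ) : k) * ((ψ' (QuotientGroup.mk g) : kˣ) : k) * n =
          ((ψ' (QuotientGroup.mk g) : kˣ) : k) *
            (1 - ((ψ (QuotientGroup.mk g) : kˣ) : k)) * n := by ring
      rw [h2]
    constructor
    · exact fun h g n => (h1 g n).1 (h _ n)
    · intro h d n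
      obtain ⟨g, rfl⟩ := QuotientGroup.mk_surjective d
      exact (h1 g n).2 (h g n)
  refine ⟨?_, ?_⟩
  · refine Finite.of_injective (fun x : {x : Additive (US F P U) // p • x = 0} =>
      (⟨(x.1.toMul : (AlgebraicClosure F)ˣ), by
        rw [mem_rootsOfUnity]
        apply Units.ext
        rw [Units.val_pow_eq_pow_val, Units.val_one]
        exact (htor x.1).1 x.2⟩ : rootsOfUnity p (AlgebraicClosure F))) ?_
    intro x y hxy
    apply Subtype.ext
    apply hval
    have h1 := congrArg Subtype.val hxy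
    exact congrArg Units.val h1
  · by_cases h1 : ∀ g : GF F, ψ (QuotientGroup.mk g) = 1
    · -- the trivial character
      have hH0 : BKND.H0 (kch ψ) = ⊤ := by
        rw [eq_top_iff]
        intro m _ d
        obtain ⟨g, rfl⟩ := QuotientGroup.mk_surjective d
        rw [BKMet.kch_apply, h1, Units.val_one, one_mul]
      have hc1 : Nat.card (BKND.H0 (kch ψ)) = Nat.card k := by
        rw [hH0]
        exact Nat.card_congr AddSubgroup.topEquiv.toEquiv
      rw [hc1, ← card_dual (p := p) k]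
      refine (Nat.card_congr (Equiv.ofBijective (fun f : k →+ ZMod p =>
        (⟨i.comp f, (hequi _).2 fun g n => by
          rw [h1, Units.val_one, sub_self, mul_zero, zero_mul, map_zero]⟩ :
          {f : k →+ Additive (US F P U) // ∀ d n, f (kch ψ₀ d n) = a d (f n)})) ⟨?_, ?_⟩)).symm
      · intro f f' hff
        ext n
        apply hinj
        exact DFunLike.congr_fun (congrArg Subtype.val hff) n
      · rintro ⟨f, hf⟩
        have h2 : ∀ n, ∃ c, i c = f n := fun n => hrange _ (by
          rw [← map_nsmul, hkp, map_zero])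
        choose c hc using h2
        refine ⟨AddMonoidHom.mk' c (fun x y => hinj (by rw [map_add, hc, hc, hc, map_add])), ?_⟩
        exact Subtype.ext (AddMonoidHom.ext fun n => hc n)
    · -- a nontrivial character
      push Not at h1
      obtain ⟨g, hg⟩ := h1
      have hg1 : (1 : k) - ((ψ (QuotientGroup.mk g) : kˣ) : k) ≠ 0 := fun h => hg (by
        apply Units.ext
        rw [Units.val_one]
        exact (sub_eq_zero.1 h).symm)
      have hc1 : Nat.card (BKND.H0 (kch ψ)) = 1 := by
        have : Subsingleton (BKND.H0 (kch ψ)) := by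
          refine ⟨fun x y => ?_⟩
          have h2 : ∀ x : BKND.H0 (kch ψ), (x : k) = 0 := fun x => by
            have h3 := x.2 (QuotientGroup.mk g)
            rw [BKMet.kch_apply] at h3
            have h4 : (1 - ((ψ (QuotientGroup.mk g) : kˣ) : k)) * (x : k) = 0 := by
              linear_combination -h3
            exact (mul_eq_zero.1 h4).resolve_left hg1
          exact Subtype.ext (by rw [h2, h2])
        exact Nat.card_of_subsingleton 0
      rw [hc1]
      have : Subsingleton
          {f : k →+ Additive (US F P U) // ∀ d n, f (kch ψ₀ d n) = a d (f n)} := by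
        refine ⟨fun f f' => ?_⟩
        have h2 : ∀ f : {f : k →+ Additive (US F P U) // ∀ d n, f (kch ψ₀ d n) = a d (f n)},
            f.1 = 0 := fun f => by
          ext n
          have h3 := (hequi f.1).1 f.2 g ((((ψ' (QuotientGroup.mk g) : kˣ) : k) *
            (1 - ((ψ (QuotientGroup.mk g) : kˣ) : k)))⁻¹ * n)
          rw [mul_inv_cancel_left₀ (mul_ne_zero (Units.ne_zero _) hg1)] at h3
          rw [h3]
          rfl
        exact Subtype.ext (by rw [h2, h2])
      have hne : Nonempty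
          {f : k →+ Additive (US F P U) // ∀ d n, f (kch ψ₀ d n) = a d (f n)} :=
        ⟨⟨0, fun d n => by simp⟩⟩
      exact Nat.card_eq_one_iff_unique.2 ⟨this, hne⟩

end BKV
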