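import Pool.Agent.Lib.MP_7c08ba_nt.Met.HStmts

set_option autoImplicit false

/-!
Parity without rigidity, more general ramification: the group `GF F / RU F P U`, where `RU F P U` is
generated by the elements of `U` in the inertia groups outside `P`; `U` is an open normal subgroup
of index prime to `p`. Definitions and statements of the modules (copies of those of
`Met/HStmts.lean`, where `U` contains all inertia groups outside `P`).
-/

noncomputable section

namespace BKV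

open NumberField IsDedekindDomain BKGen
open BKOdd (Fx IsKum IsNm chm chZ ConjHyp)
open BKLoc2 (cl sc im cy cyL Sys IsKP IsLam IsHom StLoc hq ht PP)
open BKMet (QZ actA kch Rel GF GQ cycF cycL IsConj Pl Splits pb1 pb2 LocAx GlobAx)
open BKPar (Loc1 Loc2)
open BKGlob2 (Cp fs sn LC StHP StHA StHX StUN StCV StCJ StKL StRA StRN StRP StRE StPR StFR StTI CC0
  InvL StCY StCP StPL StPA StSB StPB Prin SP US IsAct StUA StCG StMU StMI Dw Dx jw StLI StOQ)

/-- the elements of `U` in the inertia groups of the places of `F` whose residue characteristic is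
not in `P` -/
def InertAwayU (F : Type) [Field F] (P : Set ℕ) (U : Subgroup (GF F)) : Set (GF F) :=
  {g | ∃ (l : ℕ) (_ : Fact l.Prime) (j : AlgebraicClosure F →+* PadicAlgCl l),
    l ∉ P ∧ g ∈ Inert F (AlgebraicClosure F) j ∧ g ∈ U}

/-- the subgroup generated by the elements of `U` in the inertia groups outside `P` -/
def RU (F : Type) [Field F] (P : Set ℕ) (U : Subgroup (GF F)) : Subgroup (GF F) :=
  (Subgroup.normalClosure (InertAwayU F P U)).topologicalClosure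

instance instNormalRU (F : Type) [Field F] (P : Set ℕ) (U : Subgroup (GF F)) :
    (RU F P U).Normal :=
  Subgroup.is_normal_topologicalClosure _

/-- the quotient by `RU F P U` -/
abbrev GU (F : Type) [Field F] (P : Set ℕ) (U : Subgroup (GF F)) : Type := GF F ⧸ RU F P U

/-- The arithmetic input for the group `G = GU F P U₀`. -/
structure ArithAx (p : ℕ) [Fact p.Prime] {F : Type} [Field F] (Λ : Pl F) (U₀ : Subgroup (GF F))
    (χ : GU F Λ.P U₀ →* ℤ_[p]ˣ) (c : GU F Λ.P U₀ →* GU F Λ.P U₀) (U : Subgroup (GU F Λ.P U₀))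
    (inv : ∀ i, (GQ (Λ.l i) → GQ (Λ.l i) → QZ p) →+ QZ p) : Prop where
  loc : ∀ i, LocAx p (cycL p (Λ.l i)) (inv i) (if Λ.l i = p then 1 else 0)
  glob : GlobAx p (Λ.loc (QuotientGroup.mk' (RU F Λ.P U₀)) c) χ U
  /-- the reciprocity law -/
  recip : ∀ z ∈ BKND.Z2 (actA χ),
    ∑ i, (inv i (pb2 (Λ.loc (QuotientGroup.mk' (RU F Λ.P U₀)) c (i, false)) z) -
      inv i (pb2 (Λ.loc (QuotientGroup.mk' (RU F Λ.P U₀)) c (i, true)) z)) = 0

/-- **The arithmetic theorem** (local part and global part). -/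
def StArith : Prop :=
  ∀ (p : ℕ) [Fact p.Prime], p ≠ 2 → ∀ (F : Type) [Field F] [NumberField F],
    Module.finrank ℚ F = 2 → IsEmpty (F →+* ℝ) → Splits F p →
    ∀ c₀ : AlgebraicClosure F ≃+* AlgebraicClosure F, IsConj c₀ →
    ∀ P₀ : Set ℕ, P₀.Finite → (∀ l ∈ P₀, Splits F l) → p ∈ P₀ →
    ∀ U₀ : Subgroup (GF F), U₀.Normal → IsOpen (U₀ : Set (GF F)) → ¬ p ∣ U₀.index →
    (∀ g h : GF F, g * h * g⁻¹ * h⁻¹ ∈ U₀) →
    (∀ g ∈ U₀, PadicInt.toZMod ((cycF p F g : ℤ_[p]ˣ) : ℤ_[p]) = 1) →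
    (∀ g ∈ U₀, ∀ g' : GF F, (∀ z, g' (c₀ z) = c₀ (g z)) → g' ∈ U₀) →
    ∃ Λ : Pl F, P₀ ⊆ Λ.P ∧ (∃ l ∈ Λ.P, l ≠ p) ∧
      ∀ (χ : GU F Λ.P U₀ →* ℤ_[p]ˣ) (c : GU F Λ.P U₀ →* GU F Λ.P U₀),
      (∀ g : GF F, χ (QuotientGroup.mk g) = cycF p F g) →
      (∀ g g' : GF F, (∀ z, g' (c₀ z) = c₀ (g z)) →
        c (QuotientGroup.mk g) = QuotientGroup.mk g') →
      ∃ inv : ∀ i, (GQ (Λ.l i) → GQ (Λ.l i) → QZ p) →+ QZ p,
        ArithAx p Λ U₀ χ c (U₀.map (QuotientGroup.mk' (RU F Λ.P U₀))) inv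

/-! ### Modules -/

/-- The situation of the global axioms: `E` is the field fixed by the open normal subgroup `U` of
index prime to `p`, which fixes the `p`-th roots of unity, and all ideals of `E` are principal up to the primes above `P`. -/
structure Sit (p : ℕ) [Fact p.Prime] (F : Type) [Field F] [NumberField F] (P : Set ℕ)
    (U : Subgroup (GF F)) (E : IntermediateField F (AlgebraicClosure F)) [NumberField E] :
    Prop where
  odd : p ≠ 2
  memP : p ∈ P
  finP : P.Finite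
  prime : ∀ l ∈ P, l.Prime
  open' : IsOpen (U : Set (GF F))
  normal : U.Normal
  index : ¬ p ∣ U.index
  root : ∀ g ∈ U, PadicInt.toZMod ((cycF p F g : ℤ_[p]ˣ) : ℤ_[p]) = 1
  field : ∀ x, x ∈ E ↔ ∀ g ∈ U, g x = x
  prin : Prin (SP E P)

/-- Module RQ: a homomorphism from `RU F P U` to `ℤ/p` which is invariant under `U` extends to `U`
(from FR, TI, PA, PB of `GStmts`, and KUM of `Odd`). -/
def StRQ : Prop :=
  ∀ (p : ℕ) [Fact p.Prime] (F : Type) [Field F] [NumberField F] (P : Set ℕ)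
    (U : Subgroup (GF F)) (E : IntermediateField F (AlgebraicClosure F)) [NumberField E],
    Sit p F P U E → ∀ f : GF F → ZMod p, Loc1 f →
    (∀ r ∈ RU F P U, ∀ s ∈ RU F P U, f (r * s) = f r + f s) →
    (∀ g ∈ U, ∀ r ∈ RU F P U, f (g * r * g⁻¹) = f r) →
    ∃ y : GF F → ZMod p, Loc1 y ∧ (∀ g ∈ U, ∀ h ∈ U, y (g * h) = y g + y h) ∧
      ∀ r ∈ RU F P U, y r = f r

/-- Module RR: an equivariant homomorphism from `RU F P U` to `k(ψ)` extends to a cocycle
(from RQ). -/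
def StRR : Prop :=
  ∀ (p : ℕ) [Fact p.Prime] (F : Type) [Field F] [NumberField F] (P : Set ℕ)
    (U : Subgroup (GF F)) (E : IntermediateField F (AlgebraicClosure F)) [NumberField E],
    Sit p F P U E → ∀ (k : Type) [Field k] [Finite k] [Algebra (ZMod p) k] (ψ : GF F →* kˣ),
    (∀ g ∈ U, ψ g = 1) → ∀ f : GF F → k, Loc1 f →
    (∀ r ∈ RU F P U, ∀ s ∈ RU F P U, f (r * s) = f r + f s) →
    (∀ g, ∀ r ∈ RU F P U, f (g * r * g⁻¹) = (ψ g : k) * f r) →
    ∃ x ∈ BKND.Z1 (kch ψ), ∀ r ∈ RU F P U, x r = f r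

/-- Module TH: the Hasse principle for `H²(GF F, k(ψ))`, with the local conditions for the
decomposition groups in `U` (from HP, TRM, CY). -/
def StTH : Prop :=
  ∀ (p : ℕ) [Fact p.Prime] (F : Type) [Field F] [NumberField F] (P : Set ℕ)
    (U : Subgroup (GF F)) (E : IntermediateField F (AlgebraicClosure F)) [NumberField E],
    Sit p F P U E → ∀ (k : Type) [Field k] [Finite k] [Algebra (ZMod p) k] (ψ : GF F →* kˣ),
    (∀ g ∈ U, ψ g = 1) → ∀ z ∈ BKND.Z2 (kch ψ),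
    (∀ (l : ℕ) [Fact l.Prime] (j : AlgebraicClosure F →+* PadicAlgCl l),
      pb2 (U.subtype.comp (fs U.subtype j)) z ∈
        BKND.B2 (kch (ψ.comp (U.subtype.comp (fs U.subtype j))))) →
    z ∈ BKND.B2 (kch ψ)

/-- the map from the decomposition group of `j` to `GU F P U` -/
def dc {F : Type} [Field F] (P : Set ℕ) (U : Subgroup (GF F)) {l : ℕ} [Fact l.Prime]
    (j : AlgebraicClosure F →+* PadicAlgCl l) : Cp (MonoidHom.id (GF F)) j →* GU F P U :=
  (QuotientGroup.mk' (RU F P U)).comp (fs (MonoidHom.id (GF F)) j)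

/-- Module TW: a two-class of `GU F P U` which is trivial at the places in `P` is trivial (from TH,
RR, UN). -/
def StTW : Prop :=
  ∀ (p : ℕ) [Fact p.Prime] (F : Type) [Field F] [NumberField F] (P : Set ℕ)
    (U : Subgroup (GF F)) (E : IntermediateField F (AlgebraicClosure F)) [NumberField E],
    Sit p F P U E → ∀ (k : Type) [Field k] [Finite k] [Algebra (ZMod p) k] (ψ : GU F P U →* kˣ),
    (∀ g ∈ U, ψ (QuotientGroup.mk g) = 1) → ∀ z ∈ BKND.Z2 (kch ψ),
    (∀ (l : ℕ) [Fact l.Prime], l ∈ P → ∀ j : AlgebraicClosure F →+* PadicAlgCl l,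
      pb2 (dc P U j) z ∈ BKND.B2 (kch (ψ.comp (dc P U j)))) →
    z ∈ BKND.B2 (kch ψ)

/-- Module ON: a one-class of `GU F P U` which is trivial at the places in `P` is trivial (from OQ,
and KUM of `Odd`, TRM; library `norm_of_fixed_inert`). -/
def StON : Prop :=
  ∀ (p : ℕ) [Fact p.Prime] (F : Type) [Field F] [NumberField F] (P : Set ℕ)
    (U : Subgroup (GF F)) (E : IntermediateField F (AlgebraicClosure F)) [NumberField E],
    Sit p F P U E → ∀ (k : Type) [Field k] [Finite k] [Algebra (ZMod p) k] (ψ : GU F P U →* kˣ),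
    (∀ g ∈ U, ψ (QuotientGroup.mk g) = 1) → ∀ f ∈ BKND.Z1 (kch ψ),
    (∀ (l : ℕ) [Fact l.Prime], l ∈ P → ∀ j : AlgebraicClosure F →+* PadicAlgCl l,
      pb1 (dc P U j) f ∈ BKND.B1 (kch (ψ.comp (dc P U j)))) →
    f ∈ BKND.B1 (kch ψ)

/-- Module UI: a two-class of `GU F P U` with coefficients `ℚ_p / ℤ_p (χ)` is trivial at the places
outside `P` (from UN for `U`, and TRM: the index of `U` is prime to `p`). -/
def StUI : Prop :=
  ∀ (p : ℕ) [Fact p.Prime], p ≠ 2 → ∀ (F : Type) [Field F] [NumberField F] (P : Set ℕ)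
    (U : Subgroup (GF F)), U.Normal → IsOpen (U : Set (GF F)) → ¬ p ∣ U.index → p ∈ P →
    ∀ χ : GU F P U →* ℤ_[p]ˣ, (∀ g : GF F, χ (QuotientGroup.mk g) = cycF p F g) →
    ∀ z ∈ BKND.Z2 (actA χ), ∀ (l : ℕ) [Fact l.Prime], l ∉ P →
    ∀ j : AlgebraicClosure F →+* PadicAlgCl l,
    pb2 (dc P U j) z ∈ BKND.B2 (actA (χ.comp (dc P U j)))

/-! ### The global Euler characteristic -/

/-- Module CE: the Kummer description of `Z¹(GU F P U, k(ψ))` (from KH, TRM; library
`norm_of_fixed_inert`). -/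
def StCE : Prop :=
  ∀ (p : ℕ) [Fact p.Prime] (F : Type) [Field F] [NumberField F] (P : Set ℕ)
    (U : Subgroup (GF F)) [U.Normal] (E : IntermediateField F (AlgebraicClosure F))
    [NumberField E], Sit p F P U E →
    ∀ (k : Type) [Field k] [Finite k] [Algebra (ZMod p) k] (ψ ψ' : GU F P U →* kˣ)
    (ψ₀ : GF F ⧸ U →* kˣ), (∀ g ∈ U, ψ (QuotientGroup.mk g) = 1) →
    (∀ g : GF F, ψ₀ (QuotientGroup.mk g) = ψ' (QuotientGroup.mk g)) →
    ∀ χ : GU F P U →* ℤ_[p]ˣ, (∀ g : GF F, χ (QuotientGroup.mk g) = cycF p F g) → Rel χ ψ ψ' →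
    ∀ a : GF F ⧸ U →* AddMonoid.End (Additive (US F P U)), IsAct F P U a →
    Nat.card (BKND.Z1 (kch ψ)) * Nat.card (BKND.H0 (kch ψ)) =
      Nat.card k * hq p (kch ψ₀) a

/-- Module CT: equivariant homomorphisms from `k(ψ')` to the group of `S`-units. -/
def StCT : Prop :=
  ∀ (p : ℕ) [Fact p.Prime] (F : Type) [Field F] [NumberField F] (P : Set ℕ)
    (U : Subgroup (GF F)) [U.Normal] (E : IntermediateField F (AlgebraicClosure F))
    [NumberField E], Sit p F P U E →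
    ∀ (k : Type) [Field k] [Finite k] [Algebra (ZMod p) k] (ψ ψ' : GU F P U →* kˣ)
    (ψ₀ : GF F ⧸ U →* kˣ), (∀ g ∈ U, ψ (QuotientGroup.mk g) = 1) →
    (∀ g : GF F, ψ₀ (QuotientGroup.mk g) = ψ' (QuotientGroup.mk g)) →
    ∀ χ : GU F P U →* ℤ_[p]ˣ, (∀ g : GF F, χ (QuotientGroup.mk g) = cycF p F g) → Rel χ ψ ψ' →
    ∀ a : GF F ⧸ U →* AddMonoid.End (Additive (US F P U)), IsAct F P U a →
    Finite {x : Additive (US F P U) // p • x = 0} ∧
    ht (kch ψ₀) a = Nat.card (BKND.H0 (kch ψ))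

/-- The situation of the global axioms for an imaginary quadratic field `F` and the places `Λ`. -/
structure Siq (p : ℕ) [Fact p.Prime] (F : Type) [Field F] [NumberField F]
    (U : Subgroup (GF F)) (E : IntermediateField F (AlgebraicClosure F)) [NumberField E]
    (Λ : Pl F) (c₀ : AlgebraicClosure F ≃+* AlgebraicClosure F) (cc : GF F →* GF F) : Prop where
  sit : Sit p F Λ.P U E
  quad : Module.finrank ℚ F = 2
  imag : IsEmpty (F →+* ℝ)
  cc0 : CC0 c₀ cc

/-- Module PW: elements which generate powers of the primes above `P`. -/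
def StPW : Prop :=
  ∀ (p : ℕ) [Fact p.Prime] (F : Type) [Field F] [NumberField F]
    (U : Subgroup (GF F)) [U.Normal] (E : IntermediateField F (AlgebraicClosure F))
    [NumberField E] (Λ : Pl F) (c₀ : AlgebraicClosure F ≃+* AlgebraicClosure F)
    (cc : GF F →* GF F), Siq p F U E Λ c₀ cc → ∀ w : Λ.ι × Bool,
    ∃ π : AlgebraicClosure F, π ≠ 0 ∧ (∀ g ∈ U, g π = π) ∧
    (∀ t, Λ.loc (MonoidHom.id (GF F)) cc w t π = π) ∧
    (∀ (l : ℕ) [Fact l.Prime], l ∉ Λ.P → ∀ j : AlgebraicClosure F →+* PadicAlgCl l,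
      ‖j π‖ = 1) ∧ ‖jw Λ c₀ w π‖ < 1 ∧
    ∀ (w' : Λ.ι × Bool) (g : GF F), (w' ≠ w ∨ (QuotientGroup.mk g : GF F ⧸ U) ∉ Dw U Λ cc w) →
      ‖jw Λ c₀ w' (g π)‖ = 1

/-- Module PN: the number of primes of `E` above `P`. -/
def StPN : Prop :=
  ∀ (p : ℕ) [Fact p.Prime] (F : Type) [Field F] [NumberField F]
    (U : Subgroup (GF F)) [U.Normal] (E : IntermediateField F (AlgebraicClosure F))
    [NumberField E] (Λ : Pl F) (c₀ : AlgebraicClosure F ≃+* AlgebraicClosure F)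
    (cc : GF F →* GF F), Siq p F U E Λ c₀ cc →
    Nat.card (SP E Λ.P) = ∑ w, (Dw U Λ cc w).index

/-- Module RK: the rank of the group of `S`-units (from SB, PB of `GStmts`). -/
def StRK : Prop :=
  ∀ (p : ℕ) [Fact p.Prime] (F : Type) [Field F] [NumberField F], Module.finrank ℚ F = 2 →
    ∀ (P : Set ℕ) (U : Subgroup (GF F)) (E : IntermediateField F (AlgebraicClosure F))
    [NumberField E], Sit p F P U E → Module.Finite ℤ (Additive (US F P U)) ∧
    Module.finrank ℤ (Additive (US F P U)) + 1 = U.index + Nat.card (SP E P)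

/-- Module CU: the structure of the group of `S`-units (from MU, MI, PW, PN, RK). -/
def StCU : Prop :=
  ∀ (p : ℕ) [Fact p.Prime] (F : Type) [Field F] [NumberField F]
    (U : Subgroup (GF F)) [U.Normal] (E : IntermediateField F (AlgebraicClosure F))
    [NumberField E] (Λ : Pl F) (c₀ : AlgebraicClosure F ≃+* AlgebraicClosure F)
    (cc : GF F →* GF F), Siq p F U E Λ c₀ cc →
    ∀ a : GF F ⧸ U →* AddMonoid.End (Additive (US F Λ.P U)), IsAct F Λ.P U a →
    ∃ g : ∀ w : Option (Λ.ι × Bool), ((GF F ⧸ U) ⧸ Dx U Λ cc w) → Additive (US F Λ.P U) × ℤ,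
      (∀ (d : GF F ⧸ U) (w : Option (Λ.ι × Bool)) (t : (GF F ⧸ U) ⧸ Dx U Λ cc w),
        g w (d • t) = (a d (g w t).1, (g w t).2)) ∧
      LinearIndependent ℤ (fun x : Σ w, (GF F ⧸ U) ⧸ Dx U Λ cc w => g x.1 x.2) ∧
      (AddSubgroup.closure
        (Set.range fun x : Σ w, (GF F ⧸ U) ⧸ Dx U Λ cc w => g x.1 x.2)).index ≠ 0

/-- Module CA: the global Euler characteristic (from UA, CE, CT, CG, CU). -/
def StCA : Prop :=
  ∀ (p : ℕ) [Fact p.Prime] (F : Type) [Field F] [NumberField F]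
    (U : Subgroup (GF F)) (E : IntermediateField F (AlgebraicClosure F))
    [NumberField E] (Λ : Pl F) (c₀ : AlgebraicClosure F ≃+* AlgebraicClosure F)
    (cc : GF F →* GF F), Siq p F U E Λ c₀ cc →
    ∀ (χ : GU F Λ.P U →* ℤ_[p]ˣ) (c : GU F Λ.P U →* GU F Λ.P U),
    (∀ g : GF F, χ (QuotientGroup.mk g) = cycF p F g) →
    (∀ g : GF F, c (QuotientGroup.mk g) = QuotientGroup.mk (cc g)) →
    ∀ (k : Type) [Field k] [Finite k] [Algebra (ZMod p) k] (ψ ψ' : GU F Λ.P U →* kˣ),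
    (∀ g ∈ U, ψ (QuotientGroup.mk g) = 1) → (∀ g ∈ U, ψ' (QuotientGroup.mk g) = 1) →
    Rel χ ψ ψ' →
    Nat.card (BKND.Z1 (kch ψ)) * Nat.card (BKND.H0 (kch ψ')) =
      Nat.card k ^ 2 * ∏ w, Nat.card (BKND.H0 (kch (ψ'.comp
        (Λ.loc (QuotientGroup.mk' (RU F Λ.P U)) c w))))

end BKV
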