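import Pool.Agent.Lib.MP_7c08ba_nt.Met.HCU
import Pool.Agent.Lib.MP_7c08ba_nt.Met.V.Stmts

set_option autoImplicit false

/-!
Module CU for the group `GU F P U`: the structure of the group of `S`-units.
-/

noncomputable section

namespace BKV

open NumberField IsDedekindDomain BKGen BKGlob2
open BKMet (QZ actA kch Rel GF GQ cycF cycL IsConj Pl Splits pb1 pb2 LocAx GlobAx)


open BKGlob2.CUaux in
theorem stCU (hMU : StMU) (hMI : StMI) (hPW : StPW) (hPN : StPN) (hRK : StRK) : StCU := by
  classical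
  intro p _ F _ _ U _ E _ Λ c₀ cc hS a ha
  have hU : IsOpen (U : Set (GF F)) := hS.sit.open'
  have hidx : U.index ≠ 0 := by
    intro h
    have := hS.sit.index
    rw [h] at this
    exact this (dvd_zero p)
  have hfinΔ : Finite (GF F ⧸ U) := by
    rw [Subgroup.index] at hidx
    exact (Nat.card_ne_zero.mp hidx).2
  let _ : Fintype (GF F ⧸ U) := Fintype.ofFinite _
  -- an embedding in ℂ
  obtain ⟨σ⟩ : Nonempty (F →+* ℂ) := inferInstance
  let _ : Algebra F ℂ := σ.toAlgebra
  let φ : AlgebraicClosure F →+* ℂ :=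
    (IsAlgClosed.lift (R := F) (M := ℂ) (S := AlgebraicClosure F) :
      AlgebraicClosure F →ₐ[F] ℂ).toRingHom
  obtain ⟨u, hu0, huU, hul, huφ, huP⟩ := hMU F hS.quad hS.imag U hU φ
  choose π hπ0 hπU hπD hπl hπw hπ1 using hPW p F U E Λ c₀ cc hS
  -- the elements of US
  let uu : Additive (US F Λ.P U) := Additive.ofMul ⟨Units.mk0 u hu0, huU, fun l _ _ j => hul l j⟩
  let pp : Λ.ι × Bool → Additive (US F Λ.P U) := fun w =>
    Additive.ofMul ⟨Units.mk0 (π w) (hπ0 w), hπU w, fun l _ hl j => hπl w l hl j⟩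
  have vu : vl uu = u := rfl
  have vp : ∀ w, vl (pp w) = π w := fun w => rfl
  let b : Option (Λ.ι × Bool) → Additive (US F Λ.P U) := fun w => w.elim uu pp
  let ε : Option (Λ.ι × Bool) → ℤ := fun w => w.elim 1 (fun _ => 0)
  have hb : ∀ w, ∀ h ∈ Dx U Λ cc w, a h (b w) = b w := by
    intro w h hh
    rcases w with _ | w
    · have : h = 1 := Subgroup.mem_bot.mp hh
      rw [this, map_one]
      rfl
    · obtain ⟨τ, hτ⟩ := hh
      have h1 : (QuotientGroup.mk (Λ.loc (MonoidHom.id (GF F)) cc w τ) : GF F ⧸ U) = h := hτ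
      apply Additive.toMul.injective
      apply Subtype.ext
      apply Units.ext
      have h2 : vl (a h (pp w)) = vl (pp w) := by
        rw [vl_act ha, vp]
        have h3 : (QuotientGroup.mk h.out : GF F ⧸ U) =
            QuotientGroup.mk (Λ.loc (MonoidHom.id (GF F)) cc w τ) := by
          rw [QuotientGroup.out_eq', h1]
        rw [fix_eq (hπU w) h3]
        exact hπD w τ
      exact h2
  let g : ∀ w : Option (Λ.ι × Bool), ((GF F ⧸ U) ⧸ Dx U Λ cc w) → Additive (US F Λ.P U) × ℤ :=
    fun w t => (a t.out (b w), ε w)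
  have hfin : ∀ w : Option (Λ.ι × Bool), Finite ((GF F ⧸ U) ⧸ Dx U Λ cc w) := fun w =>
    inferInstance
  let _ : ∀ w : Option (Λ.ι × Bool), Fintype ((GF F ⧸ U) ⧸ Dx U Λ cc w) := fun w =>
    Fintype.ofFinite _
  have hlin : LinearIndependent ℤ (fun x : Σ w, (GF F ⧸ U) ⧸ Dx U Λ cc w => g x.1 x.2) := by
    rw [Fintype.linearIndependent_iff]
    intro c hc
    have hc1 : ∑ x : (Σ w, (GF F ⧸ U) ⧸ Dx U Λ cc w), c x • (a x.2.out (b x.1)) = 0 := by
      have := congrArg Prod.fst hc
      rw [Prod.fst_sum] at this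
      exact this
    have hc2 : ∑ x : (Σ w, (GF F ⧸ U) ⧸ Dx U Λ cc w), c x * ε x.1 = 0 := by
      have := congrArg Prod.snd hc
      rw [Prod.snd_sum] at this
      exact this
    -- a logarithm applied to the relation
    have hL : ∀ {L : Type} [NormedField L] (ψ : AlgebraicClosure F →+* L),
        ∑ x : (Σ w, (GF F ⧸ U) ⧸ Dx U Λ cc w),
          (c x : ℝ) * Real.log ‖ψ (x.2.out.out (vl (b x.1)))‖ = 0 := by
      intro L _ ψ
      have h := congrArg (LN (P := Λ.P) (U := U) ψ) hc1
      rw [map_sum, map_zero] at h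
      rw [← h]
      refine Finset.sum_congr rfl fun x _ => ?_
      rw [map_zsmul, LN_apply, vl_act ha, zsmul_eq_mul]
    -- the coefficients of the elements `π`
    have hs : ∀ (w₀ : Λ.ι × Bool) (t₀ : (GF F ⧸ U) ⧸ Dx U Λ cc (some w₀)),
        c ⟨some w₀, t₀⟩ = 0 := by
      intro w₀ t₀
      set g' : GF F := (t₀.out⁻¹).out with hg'
      have hg'm : (QuotientGroup.mk g' : GF F ⧸ U) = t₀.out⁻¹ := QuotientGroup.out_eq' _
      have h := hL ((jw Λ c₀ w₀).comp (g' : AlgebraicClosure F →+* AlgebraicClosure F))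
      rw [Finset.sum_eq_single (⟨some w₀, t₀⟩ : Σ w, (GF F ⧸ U) ⧸ Dx U Λ cc w)] at h
      · rcases mul_eq_zero.mp h with h1 | h1
        · exact_mod_cast h1
        · exfalso
          have h2 : g' (t₀.out.out (π w₀)) = π w₀ := by
            have h3 : (QuotientGroup.mk (g' * t₀.out.out) : GF F ⧸ U) = QuotientGroup.mk 1 := by
              rw [QuotientGroup.mk_mul, hg'm, QuotientGroup.out_eq', inv_mul_cancel]
              rfl
            have h4 := fix_eq (hπU w₀) h3
            rw [AlgEquiv.mul_apply] at h4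
            exact h4
          have h3 : Real.log ‖jw Λ c₀ w₀ (g' (t₀.out.out (π w₀)))‖ = 0 := h1
          rw [h2] at h3
          have h4 : 0 < ‖jw Λ c₀ w₀ (π w₀)‖ :=
            norm_pos_iff.mpr ((map_ne_zero _).mpr (hπ0 w₀))
          exact absurd h3 (Real.log_neg h4 (hπw w₀)).ne
      · rintro ⟨w, t⟩ - hne
        have key : ‖jw Λ c₀ w₀ (g' (t.out.out (vl (b w))))‖ = 1 := by
          rcases w with _ | w
          · exact hul (Λ.l w₀.1) (((jw Λ c₀ w₀).comp
              (g' : AlgebraicClosure F →+* AlgebraicClosure F)).comp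
                (t.out.out : AlgebraicClosure F →+* AlgebraicClosure F))
          · have h5 := hπ1 w w₀ (g' * t.out.out)
            rw [AlgEquiv.mul_apply] at h5
            refine h5 ?_
            by_cases hw : w₀ = w
            · right
              subst hw
              rw [QuotientGroup.mk_mul, hg'm, QuotientGroup.out_eq']
              intro h6
              apply hne
              have h7 : (QuotientGroup.mk t₀.out : (GF F ⧸ U) ⧸ Dx U Λ cc (some w₀)) =
                  QuotientGroup.mk t.out := QuotientGroup.eq.mpr h6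
              rw [QuotientGroup.out_eq', QuotientGroup.out_eq'] at h7
              rw [h7]
            · exact Or.inl hw
        have key' : Real.log ‖((jw Λ c₀ w₀).comp
            (g' : AlgebraicClosure F →+* AlgebraicClosure F)) (t.out.out (vl (b w)))‖ = 0 := by
          change Real.log ‖jw Λ c₀ w₀ (g' (t.out.out (vl (b w))))‖ = 0
          rw [key, Real.log_one]
        rw [key', mul_zero]
      · intro h
        exact absurd (Finset.mem_univ _) h
    -- the coefficients of the unit
    set x : (GF F ⧸ U) → ℤ := fun d => c ⟨none, (QuotientGroup.mk d : (GF F ⧸ U) ⧸ (⊥ : Subgroup _))⟩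
      with hx
    have hred : ∀ f : (Σ w, (GF F ⧸ U) ⧸ Dx U Λ cc w) → ℝ,
        ∑ y : (Σ w, (GF F ⧸ U) ⧸ Dx U Λ cc w), (c y : ℝ) * f y =
          ∑ d : GF F ⧸ U, (x d : ℝ) *
            f ⟨none, (QuotientGroup.mk d : (GF F ⧸ U) ⧸ (⊥ : Subgroup _))⟩ := by
      intro f
      rw [Fintype.sum_sigma, Fintype.sum_option]
      have h0 : ∑ w : Λ.ι × Bool, ∑ t : (GF F ⧸ U) ⧸ Dx U Λ cc (some w),
          (c ⟨some w, t⟩ : ℝ) * f ⟨some w, t⟩ = 0 := by
        refine Finset.sum_eq_zero fun w _ => Finset.sum_eq_zero fun t _ => ?_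
        rw [hs w t]
        simp
      rw [h0, add_zero]
      have hb := Fintype.sum_bijective
        (fun d : GF F ⧸ U => (QuotientGroup.mk d : (GF F ⧸ U) ⧸ Dx U Λ cc none))
        (bij_bot (Δ := GF F ⧸ U))
        (fun d => (x d : ℝ) * f ⟨none, (QuotientGroup.mk d : (GF F ⧸ U) ⧸ Dx U Λ cc none)⟩)
        (fun t => (c ⟨none, t⟩ : ℝ) * f ⟨none, t⟩) (fun d => rfl)
      exact hb.symm
    have hx0 : ∀ d, x d = 0 := by
      have hm := hMI (GF F ⧸ U) (fun d => Real.log ‖φ (d.out u)‖) (by
        intro d hd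
        have h1 : d.out ∉ U := by
          intro h
          apply hd
          rw [← QuotientGroup.out_eq' d]
          exact (QuotientGroup.eq_one_iff _).mpr h
        refine Real.log_neg ?_ (huφ _ h1)
        exact norm_pos_iff.mpr ((map_ne_zero _).mpr ((map_ne_zero _).mpr hu0))) (by
        rw [finprod_eq_prod_of_fintype] at huP
        rw [← Real.log_prod, huP, Real.log_one]
        intro d _
        exact norm_ne_zero_iff.mpr ((map_ne_zero _).mpr ((map_ne_zero _).mpr hu0))) x (by
        intro d'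
        have h1 := hL (φ.comp ((d'⁻¹).out : AlgebraicClosure F →+* AlgebraicClosure F))
        rw [hred] at h1
        rw [← h1]
        refine Finset.sum_congr rfl fun d _ => ?_
        have h2 : ((d'⁻¹ * d).out : GF F) u = (d'⁻¹).out (d.out u) := by
          have h3 : (QuotientGroup.mk (d'⁻¹ * d).out : GF F ⧸ U) =
              QuotientGroup.mk ((d'⁻¹).out * d.out) := by
            rw [QuotientGroup.mk_mul, QuotientGroup.out_eq', QuotientGroup.out_eq',
              QuotientGroup.out_eq']
          rw [fix_eq huU h3, AlgEquiv.mul_apply]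
        have h4 : (QuotientGroup.mk d : (GF F ⧸ U) ⧸ (⊥ : Subgroup (GF F ⧸ U))).out = d :=
          mk_out_bot d
        change Real.log ‖φ ((d'⁻¹ * d).out u)‖ * (x d : ℝ) = (x d : ℝ) *
          Real.log ‖φ ((d'⁻¹).out
            ((QuotientGroup.mk d : (GF F ⧸ U) ⧸ (⊥ : Subgroup (GF F ⧸ U))).out.out u))‖
        rw [h4, h2, mul_comm])
      have hsum : ∑ d : GF F ⧸ U, x d = 0 := by
        have h1 := hred (fun y => (ε y.1 : ℝ))
        have h2 : ∑ y : (Σ w, (GF F ⧸ U) ⧸ Dx U Λ cc w), (c y : ℝ) * (ε y.1 : ℝ) = 0 := by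
          exact_mod_cast hc2
        rw [h2] at h1
        have h3 : ∑ d : GF F ⧸ U, (x d : ℝ) * ((1 : ℤ) : ℝ) = 0 := h1.symm
        have h4 : ((∑ d : GF F ⧸ U, x d : ℤ) : ℝ) = 0 := by
          rw [Int.cast_sum]
          rw [← h3]
          refine Finset.sum_congr rfl fun d _ => by simp
        exact_mod_cast h4
      have h1 : (Fintype.card (GF F ⧸ U) : ℤ) * x 1 = 0 := by
        rw [← hsum, Finset.sum_congr rfl fun d _ => hm d, Finset.sum_const, Finset.card_univ,
          nsmul_eq_mul]
      have h2 : x 1 = 0 := by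
        rcases mul_eq_zero.mp h1 with h | h
        · exfalso
          have : Fintype.card (GF F ⧸ U) ≠ 0 := Fintype.card_ne_zero
          exact this (by exact_mod_cast h)
        · exact h
      intro d
      rw [hm d, h2]
    rintro ⟨w, t⟩
    rcases w with _ | w
    · have h := hx0 (t.out)
      have h1 : (QuotientGroup.mk t.out : (GF F ⧸ U) ⧸ (⊥ : Subgroup (GF F ⧸ U))) = t :=
        QuotientGroup.out_eq' t
      simp only [hx] at h
      rw [h1] at h
      exact h
    · exact hs w t
  refine ⟨g, ?_, hlin, ?_⟩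
  · intro d w t
    obtain ⟨h, hh, he⟩ := out_smul (Dx U Λ cc w) d t
    change (a (d • t).out (b w), ε w) = (a d (a t.out (b w)), ε w)
    rw [he, map_mul, map_mul]
    change (a d (a t.out (a h (b w))), ε w) = _
    rw [hb w h hh]
  · obtain ⟨hF, hr⟩ := hRK p F hS.quad Λ.P U E hS.sit
    have hN := hPN p F U E Λ c₀ cc hS
    have := hF
    refine index_ne hlin ?_
    have h1 : Module.finrank ℤ (Additive (US F Λ.P U) × ℤ) =
        Module.finrank ℤ (Additive (US F Λ.P U)) + 1 := finrank_prodZ
    rw [h1, hr, hN, Fintype.card_sigma, Fintype.sum_option]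
    have h2 : Fintype.card ((GF F ⧸ U) ⧸ Dx U Λ cc none) = U.index := by
      have h3 : Fintype.card (GF F ⧸ U) = Fintype.card ((GF F ⧸ U) ⧸ Dx U Λ cc none) :=
        Fintype.card_of_bijective (bij_bot (Δ := GF F ⧸ U))
      rw [← h3, Subgroup.index, Nat.card_eq_fintype_card]
    rw [h2]
    congr 1
    refine Finset.sum_congr rfl fun w _ => ?_
    exact (Nat.card_eq_fintype_card (α := (GF F ⧸ U) ⧸ Dx U Λ cc (some w))).symm

end BKV
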