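import Pool.Agent.Lib.MP_7c08ba_nt.Met.StF
import Pool.Agent.Lib.MP_7c08ba_nt.Met.V.Stmts

set_option autoImplicit false

/-!
Parity for representations which are ramified at places outside the split primes of a finite set
through finite groups of order prime to `p`. Statements.
-/

noncomputable section

namespace BKV

open BKGen Matrix
open BKMet (GF GQ cycF cycL Pl Splits Tri IsDiag IsDual kk OO)

/-- `V` is tame outside `P₀`: the elements of the inertia groups outside `P₀` have finite order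
prime to `p` in `V`. -/
def Tame (p : ℕ) {F : Type} [Field F] {L : Type} [NormedField L] {n : ℕ}
    (V : GF F →* GL (Fin n) L) (P₀ : Set ℕ) : Prop :=
  ∀ (l : ℕ) [Fact l.Prime], l ∉ P₀ → ∀ j : AlgebraicClosure F →+* PadicAlgCl l,
    ∀ g ∈ Inert F (AlgebraicClosure F) j, ∃ m : ℕ, ¬ p ∣ m ∧ V g ^ m = 1

/-- `V` is trivial on the intersections of `U` with the inertia groups outside `P`. -/
def TrivU {F : Type} [Field F] {L : Type} [NormedField L] {n : ℕ}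
    (V : GF F →* GL (Fin n) L) (P : Set ℕ) (U : Subgroup (GF F)) : Prop :=
  ∀ (l : ℕ) [Fact l.Prime], l ∉ P → ∀ j : AlgebraicClosure F →+* PadicAlgCl l,
    ∀ g ∈ Inert F (AlgebraicClosure F) j, g ∈ U → V g = 1

/-- Module U0: the group on which the diagonal characters and the cyclotomic character modulo `p`
are trivial. -/
def StU0 : Prop :=
  ∀ (p : ℕ) [Fact p.Prime], p ≠ 2 → ∀ (F : Type) [Field F] [NumberField F],
    Module.finrank ℚ F = 2 → IsEmpty (F →+* ℝ) →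
    ∀ (c : AlgebraicClosure F ≃+* AlgebraicClosure F) (σ : F ≃+* F) (hcs : BKOdd.ConjHyp c σ)
    (L : Type) [NormedField L] [NormedAlgebra ℚ_[p] L] [FiniteDimensional ℚ_[p] L] (n : ℕ)
    (V : GF F →* GL (Fin n) L), Continuous V → ∀ A : GL (Fin n) L, Tri V A →
    ∀ P₀ : Set ℕ, p ∈ P₀ → Tame p V P₀ →
    ∃ U₀ : Subgroup (GF F), U₀.Normal ∧ IsOpen (U₀ : Set (GF F)) ∧ ¬ p ∣ U₀.index ∧
      (∀ g h : GF F, g * h * g⁻¹ * h⁻¹ ∈ U₀) ∧ TrivU V P₀ U₀ ∧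
      (∀ g ∈ U₀, PadicInt.toZMod ((cycF p F g : ℤ_[p]ˣ) : ℤ_[p]) = 1) ∧
      (∀ g ∈ U₀, BKOdd.conj c σ hcs.h g ∈ U₀) ∧
      ∀ ψ : GF F →* (kk p L)ˣ, IsDiag V A ψ → ∀ u ∈ U₀, ψ u = 1

/-- Module DESC: the quotient `GU F P U`: the cyclotomic character, complex conjugation and
representations. -/
def StDesc : Prop :=
  ∀ (p : ℕ) [Fact p.Prime], p ≠ 2 → ∀ (F : Type) [Field F] [NumberField F],
    Module.finrank ℚ F = 2 → IsEmpty (F →+* ℝ) →
    ∀ (c : AlgebraicClosure F ≃+* AlgebraicClosure F) (σ : F ≃+* F) (hcs : BKOdd.ConjHyp c σ)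
    (P : Set ℕ), p ∈ P → ∀ U : Subgroup (GF F), (∀ g ∈ U, BKOdd.conj c σ hcs.h g ∈ U) →
    CompactSpace (GU F P U) ∧ NonarchimedeanGroup (GU F P U) ∧ T2Space (GU F P U) ∧
    ∃ (χ : GU F P U →* ℤ_[p]ˣ) (cG : GU F P U →* GU F P U),
      (∀ g : GF F, χ (QuotientGroup.mk g) = cycF p F g) ∧ Continuous χ ∧
      (∀ g : GF F, cG (QuotientGroup.mk g) = QuotientGroup.mk (BKOdd.conj c σ hcs.h g)) ∧
      Continuous cG ∧ (∀ g, cG (cG g) = g) ∧ (∀ g, χ (cG g) = χ g) ∧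
      (∀ (l : ℕ) [Fact l.Prime] (j : AlgebraicClosure F →+* PadicAlgCl l) (r : GQ l →* GF F),
        (∀ (t : GQ l) (x : AlgebraicClosure F), j (r t x) = t (j x)) →
        ∀ t : GQ l, cycF p F (r t) = cycL p l t) ∧
      (∀ (L : Type) [NormedField L] (n : ℕ) (V : GF F →* GL (Fin n) L), Continuous V →
        TrivU V P U →
        ∃ VG : GU F P U →* GL (Fin n) L, Continuous VG ∧
        (∀ g : GF F, VG (QuotientGroup.mk g) = V g) ∧
        ∀ x ∈ BKOdd.Z1 V, (∀ g ∈ RU F P U, x g = 0) → ∃ y ∈ BKOdd.Z1 VG,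
          ∀ g : GF F, y (QuotientGroup.mk g) = x g)

/-- Module UNR: cocycles which are unramified away from `p`. -/
def StUnr : Prop :=
  ∀ (p : ℕ) [Fact p.Prime] (F : Type) [Field F] [NumberField F],
    Module.finrank ℚ F = 2 →
    ∀ (c : AlgebraicClosure F ≃+* AlgebraicClosure F) (σ : F ≃+* F) (hcs : BKOdd.ConjHyp c σ)
    (L : Type) [NormedField L] [NormedAlgebra ℚ_[p] L] [FiniteDimensional ℚ_[p] L] (n : ℕ)
    (V : GF F →* GL (Fin n) L), Continuous V → ∀ (Λ : Pl F), p ∈ Λ.P →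
    ∀ U : Subgroup (GF F), U.Normal → U.index ≠ 0 → TrivU V Λ.P U →
    (∀ i, Λ.l i ≠ p → BKOdd.Z1 (V.comp (Λ.r i)) ≤ BKOdd.B1 (V.comp (Λ.r i)) ∧
      BKOdd.Z1 ((V.comp (BKOdd.conj c σ hcs.h)).comp (Λ.r i)) ≤
        BKOdd.B1 ((V.comp (BKOdd.conj c σ hcs.h)).comp (Λ.r i))) →
    ∀ x ∈ BKOdd.Z1 V, BKOdd.UnrAway p V x ↔ ∀ g ∈ RU F Λ.P U, x g = 0

/-- Module PAR (from everything): **parity of `H¹_f`**, with tame ramification outside `P₀`. -/
def StPar : Prop :=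
  ∀ (p : ℕ) [Fact p.Prime], p ≠ 2 → ∀ (F : Type) [Field F] [NumberField F],
    Module.finrank ℚ F = 2 → IsEmpty (F →+* ℝ) → Splits F p →
    ∀ (c : AlgebraicClosure F ≃+* AlgebraicClosure F) (σ : F ≃+* F) (hcs : BKOdd.ConjHyp c σ)
    (L : Type) [NormedField L] [NormedAlgebra ℚ_[p] L] [FiniteDimensional ℚ_[p] L] (n : ℕ)
    (V : GF F →* GL (Fin n) L), Continuous V →
    ∀ P₀ : Set ℕ, P₀.Finite → (∀ l ∈ P₀, Splits F l) →
    (∀ (l : ℕ) [Fact l.Prime], l ≠ p → l ∉ P₀ → ∀ j : AlgebraicClosure F →+* PadicAlgCl l,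
      ∀ g ∈ Inert F (AlgebraicClosure F) j, ∃ m : ℕ, ¬ p ∣ m ∧ V g ^ m = 1) →
    (∀ (l : ℕ) [Fact l.Prime], l ≠ p → ∀ j : AlgebraicClosure F →+* PadicAlgCl l,
      ∀ v : Fin n → L, (∀ (g : GF F) (t : GQ l), (∀ z, j (g z) = t (j z)) →
        (V g : Matrix (Fin n) (Fin n) L) *ᵥ v = v) → v = 0) →
    ∀ A : GL (Fin n) L, Tri V A →
    (∀ i : Fin n, ∃ g : GF F,
      ‖((A * V g * A⁻¹ : GL (Fin n) L) : Matrix (Fin n) (Fin n) L) i i *
        ((A * V (BKOdd.conj c σ hcs.h g) * A⁻¹ : GL (Fin n) L) : Matrix (Fin n) (Fin n) L) i i -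
        BKOdd.chL (cycF p F) L g‖ = 1) →
    ∀ B : GL (Fin n) L, (B : Matrix (Fin n) (Fin n) L)ᵀ = B →
    IsDual (cycF p F) V (V.comp (BKOdd.conj c σ hcs.h)) (B : Matrix (Fin n) (Fin n) L) →
    (∀ j : AlgebraicClosure F →+* PadicAlgCl p, BKOdd.DeRhamAt j V) →
    (∀ j : AlgebraicClosure F →+* PadicAlgCl p, BKOdd.FrobAt ⊤ j V) →
    FiniteDimensional L (BKOdd.H1f p V) ∧ ∀ j : AlgebraicClosure F →+* PadicAlgCl p,
      Module.finrank L (BKOdd.H1f p V) % 2 = BKOdd.tdim j V % 2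

end BKV
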