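import Pool.Agent.Lib.MP_7c08ba_nt.Met.FDESC
import Pool.Agent.Lib.MP_7c08ba_nt.Met.V.StF

set_option autoImplicit false

/-!
Module DESC: the quotient `GU F P U`: the cyclotomic character, complex conjugation and
representations.
-/

noncomputable section

namespace BKV

open BKGen Matrix
open BKMet (GF GQ cycF cycL Pl Splits Tri IsDiag IsDual kk OO InertAway)

namespace DESC

/-- a closed normal subgroup which contains the inertia groups away from `P` contains `RU F P U` -/
theorem RU_le {F : Type} [Field F] {P : Set ℕ} {U : Subgroup (GF F)} (K : Subgroup (GF F))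
    [K.Normal] (hK : IsClosed (K : Set (GF F))) (h : InertAwayU F P U ⊆ K) : RU F P U ≤ K :=
  Subgroup.topologicalClosure_minimal _ (Subgroup.normalClosure_le_normal h) hK

/-- the kernel of a continuous homomorphism to a separated group contains `RU F P U` if it contains
the inertia groups -/
theorem eq_one_of_RU {F : Type} [Field F] {P : Set ℕ} {U : Subgroup (GF F)} {X : Type*} [Group X]
    [TopologicalSpace X] [T1Space X] (f : GF F →* X) (hf : Continuous f)
    (h : ∀ g ∈ InertAwayU F P U, f g = 1) : ∀ r ∈ RU F P U, f r = 1 := by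
  intro r hr
  have hc : IsClosed (f.ker : Set (GF F)) := by
    have : (f.ker : Set (GF F)) = f ⁻¹' {1} := by
      ext x
      exact MonoidHom.mem_ker
    rw [this]
    exact isClosed_singleton.preimage hf
  exact RU_le f.ker hc (fun g hg => MonoidHom.mem_ker.2 (h g hg)) hr

theorem inert_of {F : Type} [Field F] {P : Set ℕ} {U : Subgroup (GF F)} {g : GF F}
    (h : g ∈ InertAwayU F P U) : g ∈ InertAway F P := by
  obtain ⟨l, h1, j, hl, hg, -⟩ := h
  exact ⟨l, h1, j, hl, hg⟩

end DESC

open BKMet.FDESC DESC BKOdd.Conj in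
/-- Module DESC. -/
theorem stDesc : StDesc := by
  intro p _ hp2 F _ _ hF hR c σ hcs P hP U hU
  have hcl : IsClosed (RU F P U : Set (GF F)) := Subgroup.isClosed_topologicalClosure _
  have hcompact : CompactSpace (GU F P U) := by
    change CompactSpace (GF F ⧸ RU F P U)
    infer_instance
  have hcontχ : Continuous (cycF p F) := cyclotomicCharacter.continuous p F (AlgebraicClosure F)
  have hconj : Continuous (BKOdd.conj c σ hcs.h) := by
    rw [conj_eq]
    exact continuous_conjO c σ hcs.h
  have hle : RU F P U ≤ (RU F P U).comap (BKOdd.conj c σ hcs.h) := by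
    refine RU_le _ (hcl.preimage hconj) ?_
    rintro g ⟨l, hl', j, hl, hg, hgU⟩
    have h1 : BKOdd.conj c σ hcs.h g ∈ InertAwayU F P U :=
      ⟨l, hl', j.comp (c.symm : AlgebraicClosure F →+* AlgebraicClosure F), hl,
        conjO_inert c σ hcs.h j g hg, hU g hgU⟩
    exact Subgroup.le_topologicalClosure _ (Subgroup.subset_normalClosure h1)
  have hχ1 : ∀ r ∈ RU F P U, cycF p F r = 1 := eq_one_of_RU _ hcontχ fun g hg =>
    cycF_inert hP g (inert_of hg)
  refine ⟨hcompact, BKOdd.nonarch_quotient (RU F P U), ?_, QuotientGroup.lift (RU F P U) (cycF p F) hχ1,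
    QuotientGroup.map (RU F P U) (RU F P U) (BKOdd.conj c σ hcs.h) hle, fun g => rfl, ?_,
    fun g => rfl, ?_, ?_, ?_, ?_, ?_⟩
  · have : IsClosed (RU F P U : Set (GF F)) := hcl
    infer_instance
  · exact hcontχ.quotient_lift _
  · exact Continuous.quotient_lift
      (f := fun g : GF F => (QuotientGroup.mk (BKOdd.conj c σ hcs.h g) : GU F P U))
      (continuous_quotient_mk'.comp hconj) _
  · intro g
    obtain ⟨g, rfl⟩ := QuotientGroup.mk_surjective g
    change (QuotientGroup.mk (BKOdd.conj c σ hcs.h (BKOdd.conj c σ hcs.h g)) : GU F P U) = _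
    rw [conj_conj hcs.h hcs.hc]
  · intro g
    obtain ⟨g, rfl⟩ := QuotientGroup.mk_surjective g
    exact cyc_conj hcs.h p g
  · intro l _ j r hr t
    exact cycF_eq j _ t (hr t)
  · intro L _ n V hV hVI
    have hV1 : ∀ r ∈ RU F P U, V r = 1 := by
      refine eq_one_of_RU V hV ?_
      rintro g ⟨l, hl', j, hl, hg, hgU⟩
      exact hVI l hl j g hg hgU
    refine ⟨QuotientGroup.lift (RU F P U) V hV1, hV.quotient_lift _, fun g => rfl, ?_⟩
    intro x hx hx0
    obtain ⟨y, hyc, hy⟩ := BKOdd.exists_desc (RU F P U) x hx.1 (fun g r hr => by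
      rw [hx.2, hx0 r hr, Matrix.mulVec_zero, add_zero])
    refine ⟨y, ⟨hyc, fun g h => ?_⟩, hy⟩
    obtain ⟨g, rfl⟩ := QuotientGroup.mk_surjective g
    obtain ⟨h, rfl⟩ := QuotientGroup.mk_surjective h
    rw [← QuotientGroup.mk_mul, hy, hy, hy]
    exact hx.2 g h

end BKV
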