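import Pool.Agent.Lib.MP_7c08ba_nt.Met.HON
import Pool.Agent.Lib.MP_7c08ba_nt.Met.V.RQ

set_option autoImplicit false

/-!
Module ON for the group `GU F P U`: a one-class which is trivial at the places in `P` is trivial.
-/

noncomputable section

namespace BKV

open NumberField IsDedekindDomain BKGen BKGlob2
open BKOdd (Fx IsKum IsNm chm chZ ConjHyp)
open BKLoc2 (cl sc im cy cyL Sys IsKP IsLam IsHom StLoc hq ht PP)
open BKMet (QZ actA kch Rel GF GQ cycF cycL IsConj Pl Splits pb1 pb2 LocAx GlobAx)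
open BKPar (Loc1 Loc2)
open BKGlob2.ON

/-- Module ON. -/
theorem stON (h1 : StOQ) (h2 : BKLoc2.StTRM) : StON := by
  intro p _ F _ _ P U E _ hS k _ _ _ ψ hψ f hf hloc
  have : CharZero (AlgebraicClosure F) := charZero_of_injective_algebraMap
    (algebraMap F (AlgebraicClosure F)).injective
  have hpp : p.Prime := Fact.out
  obtain ⟨ζ, hζ⟩ := exists_zeta p F
  have hζU : ∀ g ∈ U, g ζ = ζ := fun g hg => zeta_fix hζ g (hS.root g hg)
  have hζE : ζ ∈ E := (hS.field ζ).2 hζU
  have hζE' : IsPrimitiveRoot (⟨ζ, hζE⟩ : E) p := by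
    have : IsPrimitiveRoot (algebraMap E (AlgebraicClosure F) ⟨ζ, hζE⟩) p := hζ
    exact this.of_map_of_injective (algebraMap E (AlgebraicClosure F)).injective
  have : Normal E (AlgebraicClosure F) := Normal.tower_top_of_normal F E (AlgebraicClosure F)
  -- the Kummer theory of `U`
  have he : Topology.IsOpenEmbedding (U.subtype : U →* GF F) :=
    hS.open'.isOpenEmbedding_subtypeVal
  obtain ⟨-, hK2, -, -, hK5⟩ := BKOdd.stKum BKOdd.stH90 F (AlgebraicClosure F) U U.subtype he p ζ hζ
    (fun v => hζU _ v.2)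
  have hFx : ∀ x : AlgebraicClosure F, Fx U.subtype x ↔ x ∈ E := by
    intro x
    rw [hS.field]
    exact ⟨fun h g hg => h ⟨g, hg⟩, fun h v => h v v.2⟩
  obtain ⟨hf1, hf2⟩ := hf
  have hf0 : f 1 = 0 := by
    have h := hf2 1 1
    rw [mul_one, map_one] at h
    change f 1 = f 1 + f 1 at h
    exact left_eq_add.1 h
  have hψU : ∀ g ∈ U, ∀ x : k, kch ψ (QuotientGroup.mk g) x = x := by
    intro g hg x
    rw [BKMet.kch_apply, hψ g hg, Units.val_one, one_mul]
  have hfU : ∀ g ∈ U, ∀ h ∈ U, f (QuotientGroup.mk (g * h)) =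
      f (QuotientGroup.mk g) + f (QuotientGroup.mk h) := by
    intro g hg h hh
    have h3 := hf2 (QuotientGroup.mk g) (QuotientGroup.mk h)
    rw [hψU g hg] at h3
    exact h3
  -- the coordinates
  have hcoord : ∀ L : k →ₗ[ZMod p] ZMod p, ∀ g ∈ U, L (f (QuotientGroup.mk g)) = 0 := by
    intro L
    set κ : U → ZMod p := fun v => L (f (QuotientGroup.mk (v : GF F))) with hκ
    have hκ1 : κ ∈ CC.Z1 (1 : U →* ZMod p) := by
      refine ⟨?_, ?_⟩
      · obtain ⟨W, hW, hWf⟩ := hf1
        apply IsLocallyConstant.continuous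
        rw [IsLocallyConstant.iff_exists_open]
        intro v
        refine ⟨(fun v' : U => (QuotientGroup.mk (v : GF F) : GU F P U)⁻¹ *
          (QuotientGroup.mk (v' : GF F) : GU F P U)) ⁻¹' (W : Set (GU F P U)), ?_, ?_, ?_⟩
        · have hc : Continuous (fun v' : U => (QuotientGroup.mk (v' : GF F) : GU F P U)) :=
            QuotientGroup.continuous_mk.comp continuous_subtype_val
          exact hW.preimage (continuous_const.mul hc)
        · rw [Set.mem_preimage, inv_mul_cancel]
          exact W.one_mem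
        · intro v' hv'
          have h := hWf (QuotientGroup.mk (v : GF F)) _ hv'
          rw [mul_inv_cancel_left] at h
          rw [hκ]
          simp only [h]
      · intro g h
        change L (f (QuotientGroup.mk ((g : GF F) * (h : GF F)))) =
          L (f (QuotientGroup.mk (g : GF F))) + 1 * L (f (QuotientGroup.mk (h : GF F)))
        rw [hfU _ g.2 _ h.2, map_add, one_mul]
    obtain ⟨a, ha0, hafx, y, hy0, hya, hyv⟩ := hK2 κ hκ1
    have haE : a ∈ E := (hFx a).1 hafx
    have hfix : ∀ v : U, κ v = 0 → (v : GF F) y = y := by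
      intro v hv
      have h := hyv v
      rw [hv, ZMod.val_zero, pow_zero, one_mul] at h
      exact h
    have hOQ : ∃ b : E, b ^ p = ⟨a, haE⟩ := by
      refine h1 p hS.odd E ⟨ζ, hζE⟩ hζE' P hS.finP hS.prime hS.memP hS.prin ⟨a, haE⟩ ?_ ?_ ?_
      · intro h
        exact ha0 (congrArg Subtype.val h)
      · intro l _ hl j'
        obtain ⟨j, rfl⟩ := exists_lift E j'
        refine ⟨j y, ?_, ?_⟩
        · refine mem_comp_of j y fun σ τ hστ => ?_
          have hσU : (σ.restrictScalars F : GF F) ∈ U := restrict_mem hS.open' hS.field σ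
          obtain ⟨m, hm⟩ := hloc l hl j
          have h3 := hm ⟨(σ.restrictScalars F, τ), hστ⟩
          have h4 : f (QuotientGroup.mk (σ.restrictScalars F : GF F)) =
              kch ψ (QuotientGroup.mk (σ.restrictScalars F : GF F)) m - m := h3
          rw [hψU _ hσU, sub_self] at h4
          exact hfix ⟨σ.restrictScalars F, hσU⟩ (by rw [hκ]; simp only [h4, map_zero])
        · rw [← map_pow, hya]
          rfl
      · intro l _ hl j'
        obtain ⟨j, rfl⟩ := exists_lift E j'
        have h3 : ∀ σ ∈ Inert E (AlgebraicClosure F) j, σ y = y := by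
          intro σ hσ
          have hσU : (σ.restrictScalars F : GF F) ∈ U := restrict_mem hS.open' hS.field σ
          have hσR : (σ.restrictScalars F : GF F) ∈ RU F P U := by
            refine Subgroup.le_topologicalClosure _ (Subgroup.subset_normalClosure ?_)
            exact ⟨l, inferInstance, j, hl, hσ, hσU⟩
          have h4 : (QuotientGroup.mk (σ.restrictScalars F : GF F) : GU F P U) = 1 :=
            (QuotientGroup.eq_one_iff _).2 hσR
          exact hfix ⟨σ.restrictScalars F, hσU⟩ (by rw [hκ]; simp only [h4, hf0, map_zero])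
        obtain ⟨b, hb⟩ := norm_of_fixed_inert j y h3
        refine ⟨b, ?_⟩
        change ‖j a‖ = ‖j (algebraMap E (AlgebraicClosure F) b)‖ ^ p
        rw [← hb, ← norm_pow, ← map_pow, hya]
    obtain ⟨b, hb⟩ := hOQ
    have h5 : κ = 0 := (hK5 a κ ⟨y, hy0, hya, hyv⟩).2 ⟨(b : AlgebraicClosure F), (hFx _).2 b.2, by
      have := congrArg Subtype.val hb
      exact this⟩
    intro g hg
    exact congrFun h5 ⟨g, hg⟩
  have hvan : ∀ g ∈ U, f (QuotientGroup.mk g) = 0 := by
    intro g hg
    exact (Module.forall_dual_apply_eq_zero_iff (ZMod p) _).1 fun L => hcoord L g hg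
  -- transfer
  have hnA : NonarchimedeanGroup (GU F P U) := BKOdd.nonarch_quotient (RU F P U)
  set H : Subgroup (GU F P U) := U.map (QuotientGroup.mk' (RU F P U)) with hH
  have hHo : IsOpen (H : Set (GU F P U)) := QuotientGroup.isOpenMap_coe _ hS.open'
  have hUH : ∀ g ∈ U, (QuotientGroup.mk g : GU F P U) ∈ H := fun g hg => ⟨g, hg, rfl⟩
  have hidx : H.index = U.index := by
    refine Subgroup.index_map_eq U (QuotientGroup.mk'_surjective _) ?_
    rw [QuotientGroup.ker_mk']
    exact RQAux.RU_le_U hS.normal hS.open'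
  have hU0 : U.index ≠ 0 := by
    intro h
    exact hS.index (h ▸ dvd_zero p)
  have hfin : Finite (GU F P U ⧸ H) := by
    rw [← hidx] at hU0
    exact Nat.finite_of_card_ne_zero hU0
  have hSm : BKND.Sm (kch ψ) := by
    refine ⟨H, hHo, ?_⟩
    rintro _ ⟨g, hg, rfl⟩
    refine AddMonoidHom.ext fun x => ?_
    exact hψU g hg x
  have hpk : ∀ n : k, p • n = 0 := by
    intro n
    rw [← Nat.cast_smul_eq_nsmul (ZMod p), ZMod.natCast_self, zero_smul]
  obtain ⟨-, -, -, -, -, h6⟩ := h2 (GU F P U) H hHo hfin k k k (kch ψ) 1 1 0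
    ⟨⊤, isOpen_univ, fun _ _ => rfl⟩ (fun n' => ⟨⊤, isOpen_univ, fun _ _ => rfl⟩)
    (fun g n n' => rfl)
  refine (h6 p hpp (by rw [hidx]; exact hS.index) hpk hSm).1 f ⟨hf1, hf2⟩ ⟨0, ?_⟩
  rintro ⟨_, g, hg, rfl⟩
  rw [map_zero, sub_zero]
  exact hvan g hg

end BKV
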