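import Pool.Agent.Lib.MP_7c08ba_nt.Met.HPN
import Pool.Agent.Lib.MP_7c08ba_nt.Met.V.Stmts

set_option autoImplicit false

/-!
Module PN for the group `GU F P U`.
-/

noncomputable section

namespace BKV

open NumberField IsDedekindDomain BKGen BKGen.SUnits BKGlob2
open BKMet (QZ actA kch Rel GF GQ cycF cycL IsConj Pl Splits)


open BKGlob2.PNAux in
/-- Module PN: the number of primes of `E` above `P`. -/
theorem stPN (h1 : StPA) : StPN := by
  intro p _ F _ _ U _ E _ Λ c₀ cc hS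
  have hE := hS.sit.field
  have hU0 : U.index ≠ 0 := by
    intro h0
    apply hS.sit.index
    rw [h0]
    exact dvd_zero p
  have hfi : U.FiniteIndex := ⟨hU0⟩
  have hfU : Finite (GF F ⧸ U) := Subgroup.finite_quotient_of_finiteIndex
  let f : (Σ w : Λ.ι × Bool, (GF F ⧸ U) ⧸ Dw U Λ cc w) → SP E Λ.P := fun x =>
    ⟨pl (eps E Λ c₀ x.1 (x.2.out.out)), Λ.l x.1.1, ⟨x.1.1, rfl⟩, l_mem_plI _⟩
  have hf : Function.Bijective f := by
    constructor
    · rintro ⟨w, a⟩ ⟨w', a'⟩ h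
      have h2 : pl (eps E Λ c₀ w (a.out.out)) = pl (eps E Λ c₀ w' (a'.out.out)) :=
        congrArg Subtype.val h
      obtain ⟨rfl, h3⟩ := pl_inj (U := U) h1 hS.cc0 hS.sit.open' hE w w' _ _ h2
      rw [QuotientGroup.out_eq', QuotientGroup.out_eq', ← QuotientGroup.eq,
        QuotientGroup.out_eq', QuotientGroup.out_eq'] at h3
      rw [h3]
    · rintro ⟨v, hv⟩
      obtain ⟨w, g, hg⟩ := pl_surj hS.quad hS.cc0 v hv
      refine ⟨⟨w, QuotientGroup.mk (QuotientGroup.mk g)⟩, Subtype.ext ?_⟩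
      refine Eq.trans ?_ hg
      apply pl_same hS.cc0 hE
      rw [QuotientGroup.out_eq', ← QuotientGroup.eq, QuotientGroup.out_eq']
  rw [← Nat.card_congr (Equiv.ofBijective f hf), Nat.card_sigma]
  rfl

end BKV
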