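import Pool.Agent.Lib.MP_7c08ba_nt.Met.V.RQ
import Pool.Agent.Lib.MP_7c08ba_nt.Met.HRR

set_option autoImplicit false

/-!
Module RR for the group `RU F P U`: an equivariant homomorphism to `k(ψ)` extends to a cocycle.
-/

noncomputable section

namespace BKV

open NumberField IsDedekindDomain BKGen BKGlob2
open BKOdd (Fx IsKum IsNm chm chZ ConjHyp)
open BKLoc2 (cl sc im cy cyL Sys IsKP IsLam IsHom StLoc hq ht PP)
open BKMet (QZ actA kch Rel GF GQ cycF cycL IsConj Pl Splits pb1 pb2 LocAx GlobAx)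
open BKPar (Loc1 Loc2)
open BKGlob2.HRR (loc1_finsum nonarch corM_eval)

namespace HRR

/-- extension with values in `k` to a function which is additive on `U` -/
theorem ext_k (h1 : StRQ) {p : ℕ} [i1 : Fact p.Prime] {F : Type} [i2 : Field F]
    [i3 : NumberField F] {P : Set ℕ} {U : Subgroup (GF F)}
    {E : IntermediateField F (AlgebraicClosure F)} [i4 : NumberField E] (hS : Sit p F P U E)
    {k : Type} [i5 : Field k] [i6 : Finite k] [i7 : Algebra (ZMod p) k] (f : GF F → k)
    (hf : Loc1 f) (ha : ∀ r ∈ RU F P U, ∀ s ∈ RU F P U, f (r * s) = f r + f s)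
    (hU : ∀ g ∈ U, ∀ r ∈ RU F P U, f (g * r * g⁻¹) = f r) :
    ∃ y : GF F → k, Loc1 y ∧ (∀ g ∈ U, ∀ h ∈ U, y (g * h) = y g + y h) ∧
      ∀ r ∈ RU F P U, y r = f r := by
  classical
  have hfin : Module.Finite (ZMod p) k := Module.Finite.of_finite
  let b := Module.finBasis (ZMod p) k
  have key : ∀ i, ∃ y : GF F → ZMod p, Loc1 y ∧
      (∀ g ∈ U, ∀ h ∈ U, y (g * h) = y g + y h) ∧ ∀ r ∈ RU F P U, y r = b.repr (f r) i := by
    intro i
    refine h1 p F P U E hS (fun g => b.repr (f g) i)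
      (BKND.Loc1.map hf (fun x => b.repr x i)) (fun r hr s hs => ?_) (fun g hg r hr => ?_)
    · change b.repr (f (r * s)) i = b.repr (f r) i + b.repr (f s) i
      rw [ha r hr s hs, map_add, Finsupp.add_apply]
    · change b.repr (f (g * r * g⁻¹)) i = b.repr (f r) i
      rw [hU g hg r hr]
  choose y hy1 hy2 hy3 using key
  refine ⟨fun g => ∑ i, y i g • b i, ?_, fun g hg h hh => ?_, fun r hr => ?_⟩
  · exact loc1_finsum Finset.univ y (fun i c => c • b i) hy1
  · change ∑ i, y i (g * h) • b i = ∑ i, y i g • b i + ∑ i, y i h • b i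
    rw [← Finset.sum_add_distrib]
    refine Finset.sum_congr rfl fun i _ => ?_
    rw [hy2 i g hg h hh, add_smul]
  · change ∑ i, y i r • b i = f r
    rw [Finset.sum_congr rfl fun i _ => congrArg (· • b i) (hy3 i r hr)]
    exact b.sum_repr (f r)

end HRR

/-- Module RR: an equivariant homomorphism from `RU F P U` to `k(ψ)` extends to a cocycle. -/
theorem stRR (h1 : StRQ) (h2 : BKLoc2.StTRM) : StRR := by
  intro p _ F _ _ P U E _ hS k _ _ _ ψ hψ f hf ha hc
  classical
  obtain ⟨y, hy1, hy2, hy3⟩ := HRR.ext_k h1 hS f hf ha (fun g hg r hr => by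
    rw [hc g r hr, hψ g hg, Units.val_one, one_mul])
  have hna : NonarchimedeanGroup (GF F) := BKGlob2.HRR.nonarch F
  have hUf : Finite (GF F ⧸ U) := Subgroup.quotient_finite_of_isOpen U hS.open'
  have hcp : CharP k p := charP_of_injective_algebraMap (algebraMap (ZMod p) k).injective p
  have hidx : (U.index : k) ≠ 0 := by
    intro h0
    exact hS.index ((CharP.cast_eq_zero_iff k p U.index).1 h0)
  have hy : (fun u : U => y u) ∈ BKND.Z1 ((kch ψ).comp U.subtype) := by
    obtain ⟨W, hW, hW'⟩ := hy1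
    refine ⟨⟨W.comap U.subtype, hW.preimage continuous_subtype_val, fun g w hw => ?_⟩,
      fun g h => ?_⟩
    · exact hW' g w hw
    · change y (g * h) = y g + kch ψ g (y h)
      rw [hy2 g g.2 h h.2, BKMet.kch_apply, hψ g g.2, Units.val_one, one_mul]
  have hsm : BKND.Sm (kch ψ) := by
    refine ⟨U, hS.open', fun w hw => ?_⟩
    refine AddMonoidHom.ext fun x => ?_
    change ((ψ w : kˣ) : k) * x = x
    rw [hψ w hw, Units.val_one, one_mul]
  have h3 := (h2 (GF F) U hS.open' hUf PUnit k PUnit (1 : GF F →* AddMonoid.End PUnit) (kch ψ)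
    (1 : GF F →* AddMonoid.End PUnit) 0 hsm (fun n' => ⟨U, hS.open', fun w hw => by
      rw [BKMet.kch_apply, hψ w hw, Units.val_one, one_mul]⟩) (fun _ _ _ => rfl)).1 _ hy
  refine ⟨fun g => (U.index : k)⁻¹ * BKLoc2.corM U (kch ψ) (fun u : U => y u) g, ?_,
    fun r hr => ?_⟩
  · refine ⟨BKND.Loc1.map h3.1 (fun x => (U.index : k)⁻¹ * x), fun g h => ?_⟩
    change (U.index : k)⁻¹ * _ = (U.index : k)⁻¹ * _ + kch ψ g ((U.index : k)⁻¹ * _)
    rw [h3.2 g h, BKMet.kch_apply, BKMet.kch_apply]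
    ring
  · change (U.index : k)⁻¹ * _ = _
    rw [BKGlob2.HRR.corM_eval hS.normal inferInstance (RQAux.RU_le_U hS.normal hS.open') ψ y f hy3 hc hr, ← mul_assoc,
      inv_mul_cancel₀ hidx, one_mul]

end BKV
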