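import Pool.Agent.Lib.MP_7c08ba_nt.Met.V.Stmts
import Pool.Agent.Lib.MP_7c08ba_nt.Met.HTH

set_option autoImplicit false

/-!
Module TH: the Hasse principle for two-cocycles of `GF F` with values in `k(ψ)`, local conditions
for the decomposition groups in `U`.
-/

noncomputable section

namespace BKV

open BKGlob2
open BKOdd (Fx)
open BKMet (kch GF GQ cycF pb1 pb2)
open BKPar (Loc1 Loc2)
open BKGlob2.THAux in
/-- Module TH. -/
theorem stTH (h1 : StHP) (h2 : BKLoc2.StTRM) : StTH := by
  intro p _ F _ _ P U E _ hS k _ _ _ ψ hψ z hz hloc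
  have hp : p.Prime := Fact.out
  have hfin : Finite (GF F ⧸ U) := Subgroup.quotient_finite_of_isOpen U hS.open'
  have hcomp : CompactSpace U := by
    have hcl : IsClosed (U : Set (GF F)) := Subgroup.isClosed_of_isOpen U hS.open'
    exact isCompact_iff_compactSpace.1 hcl.isCompact
  have hchar : ∀ n : k, p • n = 0 := by
    intro n
    have : (p : ZMod p) • n = 0 := by rw [ZMod.natCast_self, zero_smul]
    rwa [Nat.cast_smul_eq_nsmul] at this
  have hSm : BKND.Sm (kch ψ) := ⟨U, hS.open', fun w hw => by
    ext x
    rw [BKMet.kch_apply, hψ w hw, Units.val_one, one_mul]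
    rfl⟩
  have hTR := (h2 (GF F) U hS.open' hfin k k k (kch ψ) (kch ψ) (kch ψ) 0 hSm
    (fun n' => ⟨U, hS.open', fun w hw => by
      rw [BKMet.kch_apply, hψ w hw, Units.val_one, one_mul]⟩)
    (fun g n n' => by simp)).2.2.2.2.2 p hp hS.index hchar hSm
  refine hTR.2 z hz ?_
  -- coordinates
  have hfd : FiniteDimensional (ZMod p) k := Module.Finite.of_finite
  let b := Module.finBasis (ZMod p) k
  obtain ⟨ζ, hζ⟩ := exists_zeta p F
  have hnon : NonarchimedeanGroup U := BKOdd.nonarch_subgroup U
  have hemb : Topology.IsOpenEmbedding (U.subtype : U → GF F) :=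
    hS.open'.isOpenEmbedding_subtypeVal
  have hfix : Fx U.subtype ζ := fun v => zeta_fix hζ _ (hS.root _ v.2)
  -- every coordinate is a coboundary
  have key : ∀ i, (fun g h : U => b.repr (z g h) i) ∈
      BKND.B2 (1 : U →* AddMonoid.End (ZMod p)) := by
    intro i
    rw [← (BKOdd.stConv p U).2.2]
    refine h1 p hS.odd F (AlgebraicClosure F) U U.subtype hemb ζ hζ hfix _ ?_ ?_
    · rw [(BKOdd.stConv p U).2.1]
      refine ⟨?_, fun g h l => ?_⟩
      · exact BKND.Loc2.map (Loc2_comp hz.1 U.subtype continuous_subtype_val)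
          (fun x => b.repr x i)
      · have := hz.2 g h l
        rw [BKMet.kch_apply, hψ g g.2, Units.val_one, one_mul] at this
        have h3 := congrArg (fun x => b.repr x i) this
        simp only [map_add, map_sub, Finsupp.add_apply, Finsupp.sub_apply, map_zero,
          Finsupp.zero_apply] at h3
        simp only [MonoidHom.one_apply, AddMonoid.End.coe_one, id_eq]
        exact h3
    · intro l _ j
      obtain ⟨β, hβ, hβ'⟩ := hloc l j
      refine ⟨fun d => b.repr (β d) i, ?_, fun g h => ?_⟩
      · exact (BKPar.Lift.Loc1.isLocallyConstant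
          (BKND.Loc1.map hβ (fun x => b.repr x i))).continuous
      · have h5 := hβ' g h
        have h6 : ψ ((U.subtype.comp (fs U.subtype j)) g) = 1 :=
          hψ _ (g.1.1 : U).2
        rw [BKMet.kch_apply, MonoidHom.comp_apply, h6, Units.val_one, one_mul] at h5
        have h3 := congrArg (fun x => b.repr x i) h5
        simp only [map_add, map_sub, Finsupp.add_apply, Finsupp.sub_apply] at h3
        change b.repr (z _ _) i = b.repr (β g) i +
          (1 : Cp U.subtype j →* ZMod p) g * b.repr (β h) i -
            b.repr (β (g * h)) i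
        rw [MonoidHom.one_apply, one_mul]
        refine Eq.trans h3 ?_
        ring
  choose β hβ hβ' using key
  refine ⟨fun g => ∑ i, β i g • b i, ?_, fun g h => ?_⟩
  · have : ∀ s : Finset (Fin (Module.finrank (ZMod p) k)), Loc1 fun g : U => ∑ i ∈ s, β i g • b i := by
      intro s
      induction s using Finset.induction_on with
      | empty => simpa using BKND.Loc1.const (G := U) (0 : k)
      | insert i s hi ih =>
        simp only [Finset.sum_insert hi]
        exact BKND.Loc1.map2 (hβ i) ih (fun x y => x • b i + y)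
    exact this Finset.univ
  · change z g h = kch ψ (g : GF F) (∑ i, β i h • b i) - ∑ i, β i (g * h) • b i + ∑ i, β i g • b i
    rw [BKMet.kch_apply, hψ g g.2, Units.val_one, one_mul, ← Finset.sum_sub_distrib,
      ← Finset.sum_add_distrib, ← b.sum_repr (z g h)]
    refine Finset.sum_congr rfl fun i _ => ?_
    have h7 : b.repr (z g h) i = β i h - β i (g * h) + β i g := by
      have := hβ' i g h
      rwa [MonoidHom.one_apply, AddMonoid.End.coe_one, id_eq] at this
    rw [h7, add_smul, sub_smul]

end BKV
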