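import Pool.Agent.Lib.MP_7c08ba_nt.Met.V.RQ
import Pool.Agent.Lib.MP_7c08ba_nt.Met.HTW
import Pool.Agent.Lib.MP_7c08ba_nt.Met.HTH

set_option autoImplicit false

/-!
Module TW for the group `GU F P U`: a two-class which is trivial at the places in `P` is trivial.
-/

noncomputable section

namespace BKV

open NumberField IsDedekindDomain BKGen BKGlob2
open BKOdd (Fx IsKum IsNm chm chZ ConjHyp)
open BKLoc2 (cl sc im cy cyL Sys IsKP IsLam IsHom StLoc hq ht PP)
open BKMet (QZ actA kch Rel GF GQ cycF cycL IsConj Pl Splits pb1 pb2 LocAx GlobAx)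
open BKPar (Loc1 Loc2)
open BKGlob2.TWAux (pb2_mem main nonarchF torsion)

namespace TWAux

theorem pb2_B2 {D G M : Type*} [Group D] [TopologicalSpace D] [Group G] [TopologicalSpace G]
    [AddCommGroup M] (f : D →* G) (hf : Continuous f) {ρ : G →* AddMonoid.End M}
    {z : G → G → M} (hz : z ∈ BKND.B2 ρ) : pb2 f z ∈ BKND.B2 (ρ.comp f) := by
  obtain ⟨β, hβ, hβ'⟩ := hz
  refine ⟨fun d => β (f d), BKGlob2.THAux.Loc1_comp hβ f hf, fun g h => ?_⟩
  change z (f g) (f h) = ρ (f g) (β (f h)) - β (f (g * h)) + β (f g)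
  rw [map_mul]
  exact hβ' _ _

end TWAux

theorem stTW (h1 : StTH) (h2 : StRR) (h3 : StUN) : StTW := by
  intro p hp F iF iN P U E iE hS k ik ifk ia ψ hψ z hz hloc
  have hψ' : ∀ g ∈ U, (ψ.comp (QuotientGroup.mk' (RU F P U))) g = 1 := hψ
  have hcq : Continuous (QuotientGroup.mk' (RU F P U)) := QuotientGroup.continuous_mk
  have hz' : pb2 (QuotientGroup.mk' (RU F P U)) z ∈
      BKND.Z2 (kch (ψ.comp (QuotientGroup.mk' (RU F P U)))) := pb2_mem _ hcq (kch ψ) hz
  have hna := nonarchF F
  have hcomp : CompactSpace U := by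
    have hcl : IsClosed (U : Set (GF F)) := Subgroup.isClosed_of_isOpen U hS.open'
    exact isCompact_iff_compactSpace.1 hcl.isCompact
  have hnon : NonarchimedeanGroup U := BKOdd.nonarch_subgroup U
  have hop : Topology.IsOpenEmbedding (U.subtype : U → GF F) :=
    hS.open'.isOpenEmbedding_subtypeVal
  obtain ⟨f, hf, hfz⟩ := h1 p F P U E hS k (ψ.comp (QuotientGroup.mk' (RU F P U))) hψ'
    (pb2 (QuotientGroup.mk' (RU F P U)) z) hz' (by
      intro l hl j
      by_cases hlP : l ∈ P
      · have h4 := hloc l hlP j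
        have h5 := BKV.TWAux.pb2_B2 (BKGlob2.THAux.incl U j) (BKGlob2.THAux.continuous_incl U j) h4
        exact h5
      · have hlp : l ≠ p := by
          rintro rfl
          exact hlP hS.memP
        exact h3 p hS.odd F (AlgebraicClosure F) U U.subtype hop l hlp j
          (GU F P U) ((QuotientGroup.mk' (RU F P U)).comp U.subtype)
          (hcq.comp continuous_subtype_val)
          (fun v hv => (QuotientGroup.eq_one_iff (v : GF F)).2
            (RQAux.inert_mem_RU hlP j hv v.2)) k (kch ψ)
          (fun m => ⟨1, torsion (p := p) m⟩)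
          (fun m => ⟨U.map (QuotientGroup.mk' (RU F P U)), by
            rw [Subgroup.coe_map]
            exact QuotientGroup.isOpenMap_coe _ hS.open', by
            rintro w ⟨g, hg, rfl⟩
            change (ψ (QuotientGroup.mk g) : k) * m = m
            rw [hψ g hg, Units.val_one, one_mul]⟩) z hz)
  exact main (RU F P U) ψ z hz f hf hfz fun f' hf' ha he =>
    h2 p F P U E hS k (ψ.comp (QuotientGroup.mk' (RU F P U))) hψ' f' hf' ha he

end BKV
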