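import Pool.Agent.Lib.MP_7c08ba_nt.Met.HTH
import Pool.Agent.Lib.MP_7c08ba_nt.Met.HAR
import Pool.Agent.Lib.MP_7c08ba_nt.Met.V.TW

set_option autoImplicit false

/-!
Module UI: a two-class of `GU F P U` with coefficients `ℚ_p / ℤ_p (χ)` is trivial at the places
outside `P`: this is the case after restriction to `U` by module UN, and the index of `U` is prime
to `p`.
-/

noncomputable section

namespace BKV

open NumberField IsDedekindDomain BKGen BKGlob2
open BKMet (QZ actA kch GF GQ cycF pb1 pb2)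
open BKPar (Loc1 Loc2)

namespace UIAux

/-- a locally constant function of two variables on a compact group has finitely many values -/
theorem finite_range {D : Type} [Group D] [TopologicalSpace D] [IsTopologicalGroup D]
    [CompactSpace D] {M : Type} {α : D → D → M} (h : Loc2 α) :
    (Set.range fun x : D × D => α x.1 x.2).Finite := by
  obtain ⟨W, hW, hα⟩ := h
  have hfin : Finite (D ⧸ W) := Subgroup.quotient_finite_of_isOpen W hW
  refine (Set.finite_range fun x : (D ⧸ W) × (D ⧸ W) => α x.1.out x.2.out).subset ?_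
  rintro _ ⟨⟨g, h⟩, rfl⟩
  refine ⟨(QuotientGroup.mk g, QuotientGroup.mk h), ?_⟩
  have h1 : (g⁻¹ * (QuotientGroup.mk g : D ⧸ W).out) ∈ W :=
    QuotientGroup.eq.1 (QuotientGroup.out_eq' (QuotientGroup.mk g : D ⧸ W)).symm
  have h2 : (h⁻¹ * (QuotientGroup.mk h : D ⧸ W).out) ∈ W :=
    QuotientGroup.eq.1 (QuotientGroup.out_eq' (QuotientGroup.mk h : D ⧸ W)).symm
  have h3 := hα g h _ h1 _ h2
  rw [mul_inv_cancel_left, mul_inv_cancel_left] at h3
  exact h3

theorem tors {D : Type} [Group D] [TopologicalSpace D] [IsTopologicalGroup D]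
    [CompactSpace D] {M : Type} [AddCommGroup M] (p : ℕ) (hM : ∀ m : M, ∃ n : ℕ, p ^ n • m = 0)
    {α : D → D → M} (h : Loc2 α) : ∃ n : ℕ, ∀ g h, p ^ n • α g h = 0 := by
  choose n hn using hM
  obtain ⟨N, hN⟩ := ((finite_range h).image n).bddAbove
  refine ⟨N, fun g h => ?_⟩
  have h1 : n (α g h) ≤ N := hN ⟨α g h, ⟨(g, h), rfl⟩, rfl⟩
  obtain ⟨k, hk⟩ := Nat.exists_eq_add_of_le h1
  rw [hk, pow_add, mul_comm, mul_smul, hn, smul_zero]

/-- restriction to a subgroup of index prime to `p` -/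
theorem restr (h2 : BKLoc2.StTRM) {D : Type} [Group D] [TopologicalSpace D]
    [NonarchimedeanGroup D] [CompactSpace D] (H : Subgroup D)
    (hH : IsOpen (H : Set D)) {p : ℕ} (hp : p.Prime) (hidx : ¬ p ∣ H.index) {M : Type}
    [AddCommGroup M] (ρ : D →* AddMonoid.End M) (hM : ∀ m : M, ∃ n : ℕ, p ^ n • m = 0)
    {α : D → D → M} (hα : α ∈ BKND.Z2 ρ)
    (hr : (fun g h : H => α g h) ∈ BKND.B2 (ρ.comp H.subtype)) : α ∈ BKND.B2 ρ := by
  have hfin : Finite (D ⧸ H) := Subgroup.quotient_finite_of_isOpen H hH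
  let b : M →+ ℤ →+ M := AddMonoidHom.flip (zmultiplesHom (M →+ M) (AddMonoidHom.id M))
  have hb : ∀ (m : M) (n : ℤ), b m n = n • m := fun m n => by
    change (zmultiplesHom (M →+ M) (AddMonoidHom.id M) n) m = n • m
    rw [zmultiplesHom_apply]
    rfl
  obtain ⟨-, -, h3, -, h5, -⟩ := h2 D H hH hfin M ℤ M ρ 1 ρ b
    ⟨⊤, isOpen_univ, fun _ _ => rfl⟩ (fun _ => ⟨⊤, isOpen_univ, fun _ _ => rfl⟩)
    (fun g n n' => by
      rw [hb, hb, map_zsmul]
      rfl)
  have h6 := h3 _ hr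
  have h7 := h5 α hα 1 (fun _ _ => rfl)
  have e1 : (fun g h : H => b (α g h) 1) = fun g h : H => α g h := by
    funext g h
    rw [hb, one_smul]
  have e2 : (∑ᶠ q : D ⧸ H, (1 : D →* AddMonoid.End ℤ) q.out 1) = (H.index : ℤ) := by
    have : Fintype (D ⧸ H) := Fintype.ofFinite _
    rw [finsum_eq_sum_of_fintype]
    change ∑ q : D ⧸ H, (1 : ℤ) = _
    rw [Finset.sum_const, Finset.card_univ, ← Nat.card_eq_fintype_card]
    change Nat.card (D ⧸ H) • (1 : ℤ) = ((Nat.card (D ⧸ H) : ℕ) : ℤ)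
    rw [nsmul_eq_mul, mul_one]
  rw [e1, e2] at h7
  have h8 : (fun g h => b (α g h) (H.index : ℤ)) ∈ BKND.B2 ρ := by
    have := sub_mem h6 h7
    rwa [sub_sub_cancel] at this
  have h9 : (fun g h => b (α g h) (H.index : ℤ)) = (H.index : ℤ) • α := by
    funext g h
    rw [hb]
    rfl
  rw [h9] at h8
  obtain ⟨n, hn⟩ := tors p hM hα.1
  have hcop : IsCoprime (H.index : ℤ) ((p ^ n : ℕ) : ℤ) := by
    rw [Nat.isCoprime_iff_coprime]
    exact ((Nat.Prime.coprime_iff_not_dvd hp).2 hidx).symm.pow_right n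
  obtain ⟨u, v, huv⟩ := hcop
  have h10 : α = u • ((H.index : ℤ) • α) := by
    funext g h
    change α g h = u • ((H.index : ℤ) • α g h)
    have h11 : ((p ^ n : ℕ) : ℤ) • α g h = 0 := by
      rw [natCast_zsmul]
      exact hn g h
    conv_lhs => rw [← one_smul ℤ (α g h), ← huv]
    rw [add_smul, mul_smul, mul_smul, h11, smul_zero, add_zero]
  rw [h10]
  exact zsmul_mem h8 u

/-! ### the groups -/

section Groups

variable {F : Type} [Field F] {P : Set ℕ} {U : Subgroup (GF F)}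

/-- open sets of `GU F P U` -/
theorem isOpen_GU {W : Set (GU F P U)}
    (h : IsOpen ((QuotientGroup.mk : GF F → GU F P U) ⁻¹' W)) : IsOpen W :=
  (QuotientGroup.isQuotientMap_mk (N := RU F P U)).isOpen_preimage.1 h

theorem sm_actA (p : ℕ) [Fact p.Prime] (χ : GU F P U →* ℤ_[p]ˣ)
    (hχ : ∀ g : GF F, χ (QuotientGroup.mk g) = cycF p F g) (m : QZ p) :
    ∃ W : Subgroup (GU F P U), IsOpen (W : Set (GU F P U)) ∧ ∀ w ∈ W, actA χ w m = m := by
  obtain ⟨n, hn⟩ := BKGlob2.AR.qz_tors m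
  let W : Subgroup (GU F P U) :=
    { carrier := {w | PadicInt.toZModPow n ((χ w : ℤ_[p]ˣ) : ℤ_[p]) = 1}
      one_mem' := by
        change PadicInt.toZModPow n ((χ 1 : ℤ_[p]ˣ) : ℤ_[p]) = 1
        rw [map_one, Units.val_one, map_one]
      mul_mem' := by
        intro a b ha hb
        change PadicInt.toZModPow n ((χ (a * b) : ℤ_[p]ˣ) : ℤ_[p]) = 1
        change PadicInt.toZModPow n ((χ a : ℤ_[p]ˣ) : ℤ_[p]) = 1 at ha
        change PadicInt.toZModPow n ((χ b : ℤ_[p]ˣ) : ℤ_[p]) = 1 at hb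
        rw [map_mul, Units.val_mul, map_mul, ha, hb, one_mul]
      inv_mem' := by
        intro a ha
        change PadicInt.toZModPow n ((χ a⁻¹ : ℤ_[p]ˣ) : ℤ_[p]) = 1
        change PadicInt.toZModPow n ((χ a : ℤ_[p]ˣ) : ℤ_[p]) = 1 at ha
        have h1 : ((χ a⁻¹ : ℤ_[p]ˣ) : ℤ_[p]) * ((χ a : ℤ_[p]ˣ) : ℤ_[p]) = 1 := by
          rw [← Units.val_mul, ← map_mul, inv_mul_cancel, map_one, Units.val_one]
        have h2 := congrArg (PadicInt.toZModPow n) h1
        rwa [map_mul, ha, mul_one, map_one] at h2 }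
  refine ⟨W, isOpen_GU ?_, fun w hw => BKGlob2.AR.actA_fix χ hn hw⟩
  have h1 : IsOpen {g : GF F | PadicInt.toZModPow n ((cycF p F g : ℤ_[p]ˣ) : ℤ_[p]) = 1} := by
    have h2 : Continuous (cycF p F) := cyclotomicCharacter.continuous p F (AlgebraicClosure F)
    exact BKOdd.KumG.isOpen_preimage_toZModPow (Units.continuous_val.comp h2) n 1
  have h2 : ((QuotientGroup.mk : GF F → GU F P U) ⁻¹' (W : Set (GU F P U))) =
      {g : GF F | PadicInt.toZModPow n ((cycF p F g : ℤ_[p]ˣ) : ℤ_[p]) = 1} := by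
    ext g
    change PadicInt.toZModPow n ((χ (QuotientGroup.mk g) : ℤ_[p]ˣ) : ℤ_[p]) = 1 ↔
      PadicInt.toZModPow n ((cycF p F g : ℤ_[p]ˣ) : ℤ_[p]) = 1
    rw [hχ]
  rw [h2]
  exact h1

theorem sm_kch (hU : IsOpen (U : Set (GF F))) {k : Type} [Field k]
    (ψ : GU F P U →* kˣ) (hψ : ∀ g ∈ U, ψ (QuotientGroup.mk g) = 1) (m : k) :
    ∃ W : Subgroup (GU F P U), IsOpen (W : Set (GU F P U)) ∧ ∀ w ∈ W, kch ψ w m = m := by
  refine ⟨U.map (QuotientGroup.mk' (RU F P U)), ?_, ?_⟩
  · have h1 : IsOpenMap (QuotientGroup.mk : GF F → GU F P U) := QuotientGroup.isOpenMap_coe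
    exact h1 _ hU
  · rintro _ ⟨g, hg, rfl⟩
    rw [BKMet.kch_apply]
    have h1 : ψ ((QuotientGroup.mk' (RU F P U)) g) = 1 := hψ g hg
    rw [h1, Units.val_one, one_mul]

end Groups

end UIAux

/-- Module UI. -/
theorem stUI (h1 : StUN) (h2 : BKLoc2.StTRM) (hCP : StCP) : StUI := by
  intro p _ hp F _ _ P U hUn hUo hUi hpP χ hχ z hz l _ hl j
  have hpp : p.Prime := Fact.out
  have hlp : l ≠ p := by
    rintro rfl
    exact hl hpP
  have hcq : Continuous (QuotientGroup.mk' (RU F P U)) := QuotientGroup.continuous_mk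
  have hcomp : CompactSpace U := by
    have hcl : IsClosed (U : Set (GF F)) := Subgroup.isClosed_of_isOpen U hUo
    exact isCompact_iff_compactSpace.1 hcl.isCompact
  have hnon : NonarchimedeanGroup U := BKOdd.nonarch_subgroup U
  have hop : Topology.IsOpenEmbedding (U.subtype : U → GF F) := hUo.isOpenEmbedding_subtypeVal
  have : CharZero (AlgebraicClosure F) := charZero_of_injective_algebraMap
    (algebraMap F (AlgebraicClosure F)).injective
  obtain ⟨-, hfsc, hDc, hDn, -⟩ := hCP F (AlgebraicClosure F) (GF F) (MonoidHom.id (GF F))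
    Topology.IsOpenEmbedding.id l j
  have hunr := h1 p hp F (AlgebraicClosure F) U U.subtype hop l hlp j
    (GU F P U) ((QuotientGroup.mk' (RU F P U)).comp U.subtype)
    (hcq.comp continuous_subtype_val)
    (fun v hv => (QuotientGroup.eq_one_iff (v : GF F)).2
      (RQAux.inert_mem_RU hl j hv v.2)) (QZ p) (actA χ) BKGlob2.AR.qz_tors (UIAux.sm_actA p χ hχ) z hz
  · set D := Cp (MonoidHom.id (GF F)) j with hD
    let H : Subgroup D := U.comap (fs (MonoidHom.id (GF F)) j)
    have hHo : IsOpen (H : Set D) := hUo.preimage hfsc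
    have hHi : ¬ p ∣ H.index := fun h => by
      rw [Subgroup.index_comap] at h
      exact hUi (h.trans (Subgroup.relIndex_dvd_index_of_normal U _))
    refine UIAux.restr h2 H hHo hpp hHi (actA (χ.comp (dc P U j))) BKGlob2.AR.qz_tors ?_ ?_
    · have hdc : Continuous (dc P U j) := hcq.comp hfsc
      exact BKGlob2.TWAux.pb2_mem (dc P U j) hdc (actA χ) hz
    · let φ : H →* Cp U.subtype j :=
        { toFun := fun h => ⟨(⟨(h : D).1.1, h.2⟩, (h : D).1.2), (h : D).2⟩
          map_one' := rfl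
          map_mul' := fun _ _ => rfl }
      have hφ : Continuous φ := by
        refine Continuous.subtype_mk (Continuous.prodMk (Continuous.subtype_mk ?_ _) ?_) _
        · exact continuous_fst.comp (continuous_subtype_val.comp continuous_subtype_val)
        · exact continuous_snd.comp (continuous_subtype_val.comp continuous_subtype_val)
      exact BKV.TWAux.pb2_B2 φ hφ hunr

end BKV
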