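import Pool.Agent.Lib.MP_7c08ba_nt.Met.GlobAll
import Pool.Agent.Lib.MP_7c08ba_nt.Met.V.AR
import Pool.Agent.Lib.MP_7c08ba_nt.Met.V.CA
import Pool.Agent.Lib.MP_7c08ba_nt.Met.V.CE
import Pool.Agent.Lib.MP_7c08ba_nt.Met.V.CT
import Pool.Agent.Lib.MP_7c08ba_nt.Met.V.CU
import Pool.Agent.Lib.MP_7c08ba_nt.Met.V.ON
import Pool.Agent.Lib.MP_7c08ba_nt.Met.V.PN
import Pool.Agent.Lib.MP_7c08ba_nt.Met.V.PW
import Pool.Agent.Lib.MP_7c08ba_nt.Met.V.RK
import Pool.Agent.Lib.MP_7c08ba_nt.Met.V.RQ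
import Pool.Agent.Lib.MP_7c08ba_nt.Met.V.RR
import Pool.Agent.Lib.MP_7c08ba_nt.Met.V.TH
import Pool.Agent.Lib.MP_7c08ba_nt.Met.V.TW
import Pool.Agent.Lib.MP_7c08ba_nt.Met.V.UI

set_option autoImplicit false

/-!
The arithmetic theorem for the groups `GU F P U`: assembly of all modules.
-/

noncomputable section

namespace BKV

theorem aRQ : StRQ := stRQ BKGlob2.stFR BKGlob2.aTI BKGlob2.stPA
theorem aRR : StRR := stRR aRQ BKLoc2.stTRM
theorem aTH : StTH := stTH BKGlob2.aHP BKLoc2.stTRM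
theorem aTW : StTW := stTW aTH aRR BKGlob2.aUN
theorem aON : StON := stON BKGlob2.aOQ BKLoc2.stTRM
theorem aCE : StCE := stCE BKLoc2.aKH
theorem aPW : StPW := stPW BKGlob2.stPA
theorem aPN : StPN := stPN BKGlob2.stPA
theorem aRK : StRK := stRK BKGlob2.stSB BKGlob2.stPB
theorem aCU : StCU := stCU BKGlob2.stMU BKGlob2.stMI aPW aPN aRK
theorem aCA : StCA := stCA BKGlob2.stUA aCE stCT BKGlob2.aCG aCU
theorem aUI : StUI := stUI BKGlob2.aUN BKLoc2.stTRM BKGlob2.stCP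

/-- **The arithmetic theorem** for the groups `GU F P U`. -/
theorem aArith : StArith :=
  stAR BKGlob2.aLI BKLoc2.stLam BKGlob2.stCY BKGlob2.stCP BKGlob2.stCJ BKGlob2.stCV BKGlob2.stPL
    BKGlob2.aPR BKGlob2.stSA aTW aON aCA BKGlob2.aRE aUI

end BKV
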