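import Pool.Agent.Lib.MP_7c08ba_nt.Met.NNSD
import Pool.Agent.Lib.MP_7c08ba_nt.Met.NRAM
import Pool.Agent.Lib.MP_7c08ba_nt.Met.FPARM
import Pool.Agent.Lib.MP_7c08ba_nt.Met.FU0
import Pool.Agent.Lib.MP_7c08ba_nt.Met.V.StF

set_option autoImplicit false

/-!
The diagonal characters are not conjugate self-dual if the elements of the inertia groups above one
prime `l` which is ramified in `F` have odd order in `V`.
-/

noncomputable section

namespace BKV

open Matrix BKGen
open BKMet (GF GQ cycF cycL Pl Splits Tri IsDiag IsDual kk OO StTri)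
open BKMet.NNSD

/-- The prime `l` is ramified in the quadratic field `F`: there is an element of `F` whose square
has valuation one at the places above `l`. -/
def Ram (l : ℕ) (F : Type) [Field F] : Prop :=
  ∃ _ : Fact l.Prime, ∃ α : F, ∀ j : F →+* PadicAlgCl l, ‖j α‖ ^ 2 = (l : ℝ)⁻¹

/-- The elements of the inertia groups above `l` have odd order in `V`. -/
def OddAt {F : Type} [Field F] {L : Type} [NormedField L] {n : ℕ} (V : GF F →* GL (Fin n) L)
    (l : ℕ) : Prop :=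
  ∀ (_ : Fact l.Prime) (j : AlgebraicClosure F →+* PadicAlgCl l),
    ∀ g ∈ Inert F (AlgebraicClosure F) j, ∃ m : ℕ, Odd m ∧ V g ^ m = 1

/-- Every quadratic field has a ramified prime. -/
theorem exists_ram (F : Type) [Field F] [NumberField F] (hF : Module.finrank ℚ F = 2) :
    ∃ l, Ram l F := by
  obtain ⟨l, hl, α, hα⟩ := BKMet.NRAM.exists_elt F hF
  exact ⟨l, hl, α, hα⟩

namespace NSD

theorem exists_tau {F : Type} [Field F] [NumberField F] {l : ℕ} [Fact l.Prime] {α : F}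
    (hα : ∀ j : F →+* PadicAlgCl l, ‖j α‖ ^ 2 = (l : ℝ)⁻¹) :
    ∃ (j : AlgebraicClosure F →+* PadicAlgCl l) (t : GQ l)
      (τ : AlgebraicClosure F ≃+* AlgebraicClosure F),
      (∀ z, j (τ z) = t (j z)) ∧
      (∃ a : F, τ (algebraMap F (AlgebraicClosure F) a) ≠ algebraMap F (AlgebraicClosure F) a) ∧
      ∀ z, ‖j z‖ ≤ 1 → ‖j (τ z - z)‖ < 1 := by
  have halg : Algebra.IsAlgebraic ℚ (AlgebraicClosure F) :=
    Algebra.IsAlgebraic.trans ℚ F (AlgebraicClosure F)
  have hcl : IsAlgClosure ℚ (AlgebraicClosure F) := ⟨inferInstance, halg⟩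
  have hnor : Normal ℚ (AlgebraicClosure F) := IsAlgClosure.normal ℚ (AlgebraicClosure F)
  let j : AlgebraicClosure F →+* PadicAlgCl l :=
    (IsAlgClosed.lift : AlgebraicClosure F →ₐ[ℚ] PadicAlgCl l).toRingHom
  obtain ⟨t, σ, h1, h2, h3⟩ := BKMet.NRAM.exists_inert j (algebraMap F (AlgebraicClosure F) α) (by
    intro b hb
    have h4 := hα (j.comp (algebraMap F (AlgebraicClosure F)))
    have h5 : j (algebraMap ℚ (AlgebraicClosure F) b) = (b : PadicAlgCl l) := by
      rw [eq_ratCast, map_ratCast]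
    rw [h5, BKMet.NRAM.norm_rat] at hb
    rw [RingHom.comp_apply, hb] at h4
    exact BKMet.NRAM.sq_ne b h4)
  exact ⟨j, t, σ.toRingEquiv, h1, ⟨α, h3⟩, h2⟩

/-- a condition in terms of the diagonal characters -/
theorem norm_eq_one_of {p : ℕ} [Fact p.Prime] {L : Type} [NormedField L] [NormedAlgebra ℚ_[p] L]
    {G : Type} [Group G] {n : ℕ} {V : G →* GL (Fin n) L} {A : GL (Fin n) L} (hA : Tri V A)
    (c : G →* G) (χ : G →* ℤ_[p]ˣ) (i : Fin n) (g : G) (ψ : G →* (kk p L)ˣ)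
    (hψ : ∀ (g : G) (a : OO p L),
      (a : L) = ((A * V g * A⁻¹ : GL (Fin n) L) : Matrix (Fin n) (Fin n) L) i i →
        IsLocalRing.residue (OO p L) a = ((ψ g : (kk p L)ˣ) : kk p L))
    (hne : ((ψ g : (kk p L)ˣ) : kk p L) * ((ψ (c g) : (kk p L)ˣ) : kk p L) ≠
      algebraMap (ZMod p) (kk p L) (PadicInt.toZMod ((χ g : ℤ_[p]ˣ) : ℤ_[p]))) :
    ‖((A * V g * A⁻¹ : GL (Fin n) L) : Matrix (Fin n) (Fin n) L) i i *
        ((A * V (c g) * A⁻¹ : GL (Fin n) L) : Matrix (Fin n) (Fin n) L) i i -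
        BKOdd.chL χ L g‖ = 1 := by
  let a : OO p L := ⟨_, (hA g i i).1⟩
  let a' : OO p L := ⟨_, (hA (c g) i i).1⟩
  let x : OO p L := BKMet.LLATT.zO p L ((χ g : ℤ_[p]ˣ) : ℤ_[p])
  have h1 : IsLocalRing.residue (OO p L) a = ((ψ g : (kk p L)ˣ) : kk p L) := hψ g a rfl
  have h2 : IsLocalRing.residue (OO p L) a' = ((ψ (c g) : (kk p L)ˣ) : kk p L) :=
    hψ (c g) a' rfl
  have h3 : IsLocalRing.residue (OO p L) x =
      algebraMap (ZMod p) (kk p L) (PadicInt.toZMod ((χ g : ℤ_[p]ˣ) : ℤ_[p])) :=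
    BKMet.LLATT.res_zO p L _
  have h5 : ‖((a * a' - x : OO p L) : L)‖ = 1 := by
    refine le_antisymm (a * a' - x).2 (not_lt.1 fun hlt => hne ?_)
    have h4 : IsLocalRing.residue (OO p L) (a * a' - x) = 0 := by
      rw [IsLocalRing.residue_eq_zero_iff, BKMet.OO.mem_max]
      exact hlt
    rw [map_sub, map_mul, h1, h2, h3, sub_eq_zero] at h4
    exact h4
  exact h5

end NSD

/-- Module NSD: the diagonal characters are not conjugate self-dual. -/
theorem nsd_of_odd (hTri : StTri) {p : ℕ} [Fact p.Prime] (hp : p ≠ 2) {F : Type} [Field F]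
    [NumberField F] (hF : Module.finrank ℚ F = 2) (hreal : IsEmpty (F →+* ℝ)) (hsp : Splits F p)
    (c : AlgebraicClosure F ≃+* AlgebraicClosure F) (σ : F ≃+* F) (hcs : BKOdd.ConjHyp c σ)
    {L : Type} [NormedField L] [NormedAlgebra ℚ_[p] L] [FiniteDimensional ℚ_[p] L] {n : ℕ}
    (V : GF F →* GL (Fin n) L) {l : ℕ} (hl : Ram l F) (hV : OddAt V l) {A : GL (Fin n) L}
    (hA : Tri V A) (i : Fin n) : ∃ g : GF F,
      ‖((A * V g * A⁻¹ : GL (Fin n) L) : Matrix (Fin n) (Fin n) L) i i *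
        ((A * V (BKOdd.conj c σ hcs.h g) * A⁻¹ : GL (Fin n) L) : Matrix (Fin n) (Fin n) L) i i -
        BKOdd.chL (cycF p F) L g‖ = 1 := by
  obtain ⟨hl, α, hα⟩ := hl
  obtain ⟨j, t, τ, ht, ⟨a, ha⟩, hin⟩ := NSD.exists_tau hα
  have hpp : p.Prime := Fact.out
  obtain ⟨s, hs⟩ := hcs.hσ
  have hσσ : ∀ x, σ (σ x) = x := by
    intro x
    apply (algebraMap F (AlgebraicClosure F)).injective
    rw [← hcs.h, ← hcs.h, hcs.hc]
  -- `F` does not split at `l`
  have hns : ¬ Splits F l := by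
    rintro ⟨_, ⟨f⟩⟩
    have hne : (algebraMap ℚ_[l] (PadicAlgCl l)).comp f ≠
        ((algebraMap ℚ_[l] (PadicAlgCl l)).comp f).comp (σ : F →+* F) := by
      intro h0
      exact hs (((algebraMap ℚ_[l] (PadicAlgCl l)).comp f).injective
        (RingHom.congr_fun h0 s)).symm
    have hfix : t (j (algebraMap F (AlgebraicClosure F) a)) =
        j (algebraMap F (AlgebraicClosure F) a) := by
      rcases emb2 hF _ _ (j.comp (algebraMap F (AlgebraicClosure F))) hne with h2 | h2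
      · have h3 : j (algebraMap F _ a) = algebraMap ℚ_[l] (PadicAlgCl l) (f a) :=
          RingHom.congr_fun h2 a
        rw [h3, AlgEquiv.commutes]
      · have h3 : j (algebraMap F _ a) = algebraMap ℚ_[l] (PadicAlgCl l) (f (σ a)) :=
          RingHom.congr_fun h2 a
        rw [h3, AlgEquiv.commutes]
    exact ha (j.injective (by rw [ht, hfix]))
  have hlp : l ≠ p := by
    rintro rfl
    exact hns hsp
  -- `τ` is `σ` on `F`
  have hτσ : ∀ b : F, τ (algebraMap F (AlgebraicClosure F) b) =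
      algebraMap F (AlgebraicClosure F) (σ b) := by
    have hne : algebraMap F (AlgebraicClosure F) ≠
        (algebraMap F (AlgebraicClosure F)).comp (σ : F →+* F) := by
      intro h0
      exact hs ((algebraMap F (AlgebraicClosure F)).injective (RingHom.congr_fun h0 s)).symm
    rcases emb2 hF _ _ ((τ : AlgebraicClosure F →+* AlgebraicClosure F).comp
      (algebraMap F (AlgebraicClosure F))) hne with h2 | h2
    · exact absurd (RingHom.congr_fun h2 a) ha
    · exact fun b => RingHom.congr_fun h2 b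
  -- the element of the Galois group
  let g : GF F := AlgEquiv.ofRingEquiv (f := τ.trans c) (fun b => by
    change c (τ (algebraMap F _ b)) = _
    rw [hτσ, hcs.h, hσσ])
  have hg : ∀ z, g z = c (τ z) := fun z => rfl
  have hcg : ∀ z, (BKOdd.conj c σ hcs.h g * g) z = τ (τ z) := by
    intro z
    change c (c (τ (c.symm (c (τ z))))) = τ (τ z)
    rw [RingEquiv.symm_apply_apply, hcs.hc]
  have hI : BKOdd.conj c σ hcs.h g * g ∈ Inert F (AlgebraicClosure F) j := by
    have hu : IsUltrametricDist (PadicAlgCl l) := IsUltrametricDist.of_normedAlgebra ℚ_[l]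
    intro x hx
    rw [hcg]
    have h1 := hin x hx
    have h2 : ‖j (τ x)‖ ≤ 1 := by
      have e : j (τ x) = j (τ x - x) + j x := by rw [← map_add, sub_add_cancel]
      rw [e]
      exact (IsUltrametricDist.norm_add_le_max _ _).trans (max_le h1.le hx)
    have h3 := hin (τ x) h2
    have e : j (τ (τ x) - x) = j (τ (τ x) - τ x) + j (τ x - x) := by
      rw [← map_add, sub_add_sub_cancel]
    rw [e]
    exact (IsUltrametricDist.norm_add_le_max _ _).trans_lt (max_lt h3 h1)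
  obtain ⟨m, hm, hVm⟩ := hV hl j _ hI
  obtain ⟨ζ, hζ⟩ := exists_zeta p F
  have hcz : c ζ = ζ⁻¹ := (BKOdd.stConj p hp F hF hreal ζ hζ c σ hcs).2.2.2.2
  have hτp : (τ ζ) ^ p = 1 := by rw [← map_pow, hζ.pow_eq_one, map_one]
  have hjζ : (j ζ) ^ p = 1 := by rw [← map_pow, hζ.pow_eq_one, map_one]
  have hjτ : (j (τ ζ)) ^ p = 1 := by rw [← map_pow, hτp, map_one]
  have hn : ‖j ζ‖ = 1 := by
    have h2 : ‖j ζ‖ ^ p = 1 := by rw [← norm_pow, hjζ, norm_one]
    exact (pow_eq_one_iff_of_nonneg (norm_nonneg _) hpp.ne_zero).1 h2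
  have hτz : τ ζ = ζ := j.injective (root_eq hpp hlp hjζ hjτ (by
    rw [← map_sub]
    exact hin ζ hn.le))
  have h2 := cyc_neg hζ g (by rw [hg, hτz, hcz])
  obtain ⟨ψ, hψ⟩ := (hTri p L (GF F) n V A hA).1 i
  refine ⟨g, NSD.norm_eq_one_of hA (BKOdd.conj c σ hcs.h) (cycF p F) i g ψ hψ fun heq => ?_⟩
  -- the value at the element of the inertia group
  have h3 : PadicInt.toZMod ((cycF p F g : ℤ_[p]ˣ) : ℤ_[p]) = -1 := by
    have h4 : PadicInt.toZMod (((cycF p F g : ℤ_[p]ˣ) : ℤ_[p]) + 1) = 0 := by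
      have h5 : ((cycF p F g : ℤ_[p]ˣ) : ℤ_[p]) + 1 ∈ RingHom.ker (PadicInt.toZMod (p := p)) := by
        rw [PadicInt.ker_toZMod, IsLocalRing.mem_maximalIdeal, PadicInt.mem_nonunits]
        exact h2
      exact h5
    rw [map_add, map_one] at h4
    exact eq_neg_of_add_eq_zero_left h4
  rw [h3, map_neg, map_one] at heq
  have h6 : (((ψ (BKOdd.conj c σ hcs.h g * g) : (kk p L)ˣ) : kk p L)) = -1 := by
    rw [map_mul, Units.val_mul, mul_comm]
    exact heq
  have h7 : ψ ((BKOdd.conj c σ hcs.h g * g) ^ m) = 1 := by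
    refine BKMet.FU0.isDg_one (V := V) (A := A) (i := i) hψ ?_
    rw [map_pow, hVm]
  have h8 : (-1 : kk p L) ^ m = 1 := by
    rw [← h6, ← Units.val_pow_eq_pow_val, ← map_pow, h7, Units.val_one]
  rw [hm.neg_one_pow] at h8
  have h9 : ((2 : ℕ) : kk p L) = 0 := by
    have h10 : (1 : kk p L) + 1 = 0 := by
      have h12 := neg_add_cancel (1 : kk p L)
      rw [h8] at h12
      exact h12
    rw [Nat.cast_ofNat, ← one_add_one_eq_two]
    exact h10
  have h11 := (CharP.cast_eq_zero_iff (kk p L) p 2).1 h9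
  exact hp ((Nat.prime_dvd_prime_iff_eq hpp Nat.prime_two).1 h11)

end BKV
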