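import Pool.Agent.Lib.MP_7c08ba_nt.Met.FPARM
import Pool.Agent.Lib.MP_7c08ba_nt.Met.V.StF

set_option autoImplicit false

/-!
Module PAR: the final assembly, parity of `H¹_f` with tame ramification outside `P₀`.
-/

noncomputable section

namespace BKV

open Matrix BKGen MP_7c08ba.Crys
open BKMet (QZ GF GQ cycF cycL Pl Splits Tri IsDiag IsDual kk OO IsConj Pol LineAx dualC NoInv
  StMainX StLineQ StCrysM StHodM StTri pb1 pb2)
open BKMet.FPARM (nonarch globAx_ext globAx_perm symm_eq conj_eq_iff swapPl sw loc_swap nsd_of)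

namespace PARM

section Swap

variable {F : Type} [Field F] (c : AlgebraicClosure F ≃+* AlgebraicClosure F) (σ : F ≃+* F)
  (hcs : BKOdd.ConjHyp c σ) {p : ℕ} [Fact p.Prime] {U₀ : Subgroup (GF F)}

theorem arith_swap (Λ : Pl F) {χ : GU F Λ.P U₀ →* ℤ_[p]ˣ} {cG : GU F Λ.P U₀ →* GU F Λ.P U₀}
    {U : Subgroup (GU F Λ.P U₀)} {inv : ∀ i, (GQ (Λ.l i) → GQ (Λ.l i) → QZ p) →+ QZ p}
    (hcG : ∀ g : GF F, cG (QuotientGroup.mk g) = QuotientGroup.mk (BKOdd.conj c σ hcs.h g))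
    (H : ArithAx p Λ U₀ χ cG U inv) : ArithAx p (swapPl c σ hcs Λ) U₀ χ cG U inv where
  loc := H.loc
  glob := globAx_ext (loc_swap c σ hcs Λ (QuotientGroup.mk' (RU F Λ.P U₀)) cG hcG)
    (globAx_perm (sw Λ.ι) H.glob)
  recip := by
    intro z hz
    have h1 := H.recip z hz
    have e1 : ∀ i, (swapPl c σ hcs Λ).loc (QuotientGroup.mk' (RU F Λ.P U₀)) cG (i, false) =
        Λ.loc (QuotientGroup.mk' (RU F Λ.P U₀)) cG (i, true) := fun i =>
      (loc_swap c σ hcs Λ (QuotientGroup.mk' (RU F Λ.P U₀)) cG hcG (i, false)).symm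
    have e2 : ∀ i, (swapPl c σ hcs Λ).loc (QuotientGroup.mk' (RU F Λ.P U₀)) cG (i, true) =
        Λ.loc (QuotientGroup.mk' (RU F Λ.P U₀)) cG (i, false) := fun i =>
      (loc_swap c σ hcs Λ (QuotientGroup.mk' (RU F Λ.P U₀)) cG hcG (i, true)).symm
    rw [← neg_eq_zero, ← Finset.sum_neg_distrib, ← h1]
    refine Finset.sum_congr rfl fun i _ => ?_
    rw [neg_sub]
    exact congrArg₂ (fun a b => inv i (pb2 (D := GQ (Λ.l i)) a z) - inv i (pb2 b z)) (congrArg DFunLike.coe (e2 i)) (congrArg DFunLike.coe (e1 i))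

end Swap

/-! ### The situation -/

section Sit

variable {p : ℕ} [Fact p.Prime] {F : Type} [Field F] {Λ : Pl F} {U₀ : Subgroup (GF F)} {χ : GU F Λ.P U₀ →* ℤ_[p]ˣ}
  {cG : GU F Λ.P U₀ →* GU F Λ.P U₀} {U : Subgroup (GU F Λ.P U₀)}
  {inv : ∀ i, (GQ (Λ.l i) → GQ (Λ.l i) → QZ p) →+ QZ p}

/-- the maps to the quotient -/
abbrev rG (Λ : Pl F) (U₀ : Subgroup (GF F)) (i : Λ.ι) : GQ (Λ.l i) →* GU F Λ.P U₀ :=
  (QuotientGroup.mk' (RU F Λ.P U₀)).comp (Λ.r i)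

theorem sit_of (H : ArithAx p Λ U₀ χ cG U inv) (hU : IsOpen (U : Set (GU F Λ.P U₀)))
    (hfix : ∀ u ∈ U, PadicInt.toZMod ((χ u : ℤ_[p]ˣ) : ℤ_[p]) = 1) (hχ : Continuous χ)
    (hcG : Continuous cG) (hcc : ∀ g, cG (cG g) = g) (hχc : ∀ g, χ (cG g) = χ g)
    (hloc : ∀ i, χ.comp (rG Λ U₀ i) = cycL p (Λ.l i)) (hp : p ∈ Λ.P) :
    BKMet.Sit p (rG Λ U₀) cG χ inv (fun i => if Λ.l i = p then 1 else 0) U where
  cont_r := fun i => continuous_quotient_mk'.comp (Λ.cont i)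
  cont_c := hcG
  inv_c := hcc
  cont_χ := hχ
  χ_c := hχc
  open' := hU
  fix := hfix
  loc := fun i => by
    rw [hloc i]
    exact H.loc i
  glob := by
    refine globAx_ext (fun w => ?_) H.glob
    obtain ⟨i, b⟩ := w
    cases b
    · rfl
    · rfl
  recip := H.recip
  sum := by
    obtain ⟨i₀, hi₀⟩ := hp
    rw [Finset.sum_eq_single i₀]
    · rw [if_pos hi₀]
    · intro i _ hi
      rw [if_neg]
      intro h
      exact hi (Λ.inj (h.trans hi₀.symm))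
    · intro h
      exact absurd (Finset.mem_univ _) h

end Sit

/-! ### Cocycles of the quotient -/

section Infl

variable {F : Type} [Field F] {P : Set ℕ} {U₀ : Subgroup (GF F)} {L : Type} [NormedField L] {n : ℕ}

theorem infl_mem_Z1 {V : GF F →* GL (Fin n) L} {VG : GU F P U₀ →* GL (Fin n) L}
    (hVG : ∀ g : GF F, VG (QuotientGroup.mk g) = V g) (x : GU F P U₀ → Fin n → L) :
    (fun g : GF F => x (QuotientGroup.mk g)) ∈ BKOdd.Z1 V ↔ x ∈ BKOdd.Z1 VG := by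
  constructor
  · rintro ⟨h1, h2⟩
    refine ⟨?_, fun a b => ?_⟩
    · exact (QuotientGroup.isOpenQuotientMap_mk.isQuotientMap.continuous_iff).mpr h1
    · obtain ⟨g, rfl⟩ := QuotientGroup.mk_surjective a
      obtain ⟨h, rfl⟩ := QuotientGroup.mk_surjective b
      have h3 := h2 g h
      rw [← hVG] at h3
      exact h3
  · rintro ⟨h1, h2⟩
    refine ⟨h1.comp continuous_quotient_mk', fun g h => ?_⟩
    have h3 := h2 (QuotientGroup.mk g) (QuotientGroup.mk h)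
    rw [hVG] at h3
    exact h3

end Infl

/-! ### The theorem at one place -/

section Core

theorem core (h2 : StMainX) (h4 : StLineQ) (h7 : StUnr) (h8 : StCrysM) (h9 : StHodM)
    {p : ℕ} [Fact p.Prime] (hp : p ≠ 2) {F : Type} [Field F] [NumberField F]
    (hF : Module.finrank ℚ F = 2) (c : AlgebraicClosure F ≃+* AlgebraicClosure F) (σ : F ≃+* F)
    (hcs : BKOdd.ConjHyp c σ) {L : Type} [NormedField L] [NormedAlgebra ℚ_[p] L]
    [FiniteDimensional ℚ_[p] L] {n : ℕ} {V : GF F →* GL (Fin n) L} (hV : Continuous V)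
    {A B : GL (Fin n) L}
    (hinv : ∀ (l : ℕ) [Fact l.Prime], l ≠ p → ∀ j : AlgebraicClosure F →+* PadicAlgCl l,
      ∀ v : Fin n → L, (∀ (g : GF F) (t : GQ l), (∀ z, j (g z) = t (j z)) →
        (V g : Matrix (Fin n) (Fin n) L) *ᵥ v = v) → v = 0)
    (hdual : IsDual (cycF p F) V (V.comp (BKOdd.conj c σ hcs.h))
      (B : Matrix (Fin n) (Fin n) L))
    (hDR : ∀ j : AlgebraicClosure F →+* PadicAlgCl p, BKOdd.DeRhamAt j V)
    (hFr : ∀ j : AlgebraicClosure F →+* PadicAlgCl p, BKOdd.FrobAt ⊤ j V)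
    (Λ : Pl F) {U₀ : Subgroup (GF F)} (hUn : U₀.Normal) (hUi : U₀.index ≠ 0)
    (hunr : TrivU V Λ.P U₀)
    (i₀ : Λ.ι) (hi₀ : Λ.l i₀ = p) (j₀ : AlgebraicClosure F →+* PadicAlgCl p)
    (hj₀ : HEq (Λ.j i₀) j₀) (hne : ∃ i, i ≠ i₀)
    [CompactSpace (GU F Λ.P U₀)] [NonarchimedeanGroup (GU F Λ.P U₀)]
    {χ : GU F Λ.P U₀ →* ℤ_[p]ˣ} {cG : GU F Λ.P U₀ →* GU F Λ.P U₀} {U : Subgroup (GU F Λ.P U₀)}
    {inv : ∀ i, (GQ (Λ.l i) → GQ (Λ.l i) → QZ p) →+ QZ p}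
    (H : ArithAx p Λ U₀ χ cG U inv) (hU : IsOpen (U : Set (GU F Λ.P U₀)))
    (hfix : ∀ u ∈ U, PadicInt.toZMod ((χ u : ℤ_[p]ˣ) : ℤ_[p]) = 1) (hχ : Continuous χ)
    (hcG : Continuous cG) (hcc : ∀ g, cG (cG g) = g) (hχc : ∀ g, χ (cG g) = χ g)
    (hcj : ∀ g : GF F, cG (QuotientGroup.mk g) = QuotientGroup.mk (BKOdd.conj c σ hcs.h g))
    (hloc : ∀ i, χ.comp (rG Λ U₀ i) = cycL p (Λ.l i))
    {VG : GU F Λ.P U₀ →* GL (Fin n) L} (hVG : ∀ g : GF F, VG (QuotientGroup.mk g) = V g)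
    (hpol : Pol VG A cG χ B U)
    (hdesc : ∀ x ∈ BKOdd.Z1 V, (∀ g ∈ RU F Λ.P U₀, x g = 0) → ∃ y ∈ BKOdd.Z1 VG,
      ∀ g : GF F, y (QuotientGroup.mk g) = x g) :
    FiniteDimensional L (BKOdd.H1f p V) ∧
      Module.finrank L (BKOdd.H1f p V) % 2 = BKOdd.tdim j₀ V % 2 := by
  subst hi₀
  obtain rfl := eq_of_heq hj₀
  have hsit := sit_of H hU hfix hχ hcG hcc hχc hloc ⟨i₀, rfl⟩
  have hna : ∀ i, NonarchimedeanGroup (GQ (Λ.l i)) := fun i => nonarch _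
  have hcp : ∀ i, CompactSpace (GQ (Λ.l i)) := fun i => inferInstance
  -- the place above `p`
  obtain ⟨hN1, hN2, s, s', hHP, ht, -⟩ := h9 (Λ.l i₀) F hF c σ hcs L n V hV (Λ.j i₀) (Λ.r i₀)
    (Λ.cont i₀) (Λ.spec i₀) B hdual (hDR _) (hFr _) (hFr _)
  have hVr : ∀ i, VG.comp (rG Λ U₀ i) = V.comp (Λ.r i) := fun i =>
    MonoidHom.ext fun t => hVG (Λ.r i t)
  have hVcr : ∀ i, (VG.comp cG).comp (rG Λ U₀ i) =
      (V.comp (BKOdd.conj c σ hcs.h)).comp (Λ.r i) := fun i => MonoidHom.ext fun t => by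
    change VG (cG (QuotientGroup.mk (Λ.r i t))) = V (BKOdd.conj c σ hcs.h (Λ.r i t))
    rw [hcj, hVG]
  have hDr : (dualC VG cG B).comp (rG Λ U₀ i₀) =
      (dualC V (BKOdd.conj c σ hcs.h) B).comp (Λ.r i₀) := MonoidHom.ext fun t => by
    change MulAut.conj B (VG (cG (QuotientGroup.mk (Λ.r i₀ t)))) =
      MulAut.conj B (V (BKOdd.conj c σ hcs.h (Λ.r i₀ t)))
    rw [hcj, hVG]
  -- no invariants
  have hNI : ∀ i, NoInv (VG.comp (rG Λ U₀ i)) := by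
    intro i
    rw [hVr i]
    by_cases hi : i = i₀
    · rw [hi]
      exact hN1
    · have hl : Λ.l i ≠ Λ.l i₀ := fun h => hi (Λ.inj h)
      intro v hv
      refine hinv (Λ.l i) hl (Λ.j i) v fun g t hgt => ?_
      have h1 : g = Λ.r i t := by
        ext z
        apply (Λ.j i).injective
        rw [hgt, Λ.spec]
      rw [h1]
      exact hv t
  have hNI' : ∀ i, NoInv ((VG.comp cG).comp (rG Λ U₀ i)) := by
    intro i
    rw [hVcr i]
    by_cases hi : i = i₀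
    · rw [hi]
      exact hN2
    · have hl : Λ.l i ≠ Λ.l i₀ := fun h => hi (Λ.inj h)
      intro v hv
      refine hinv (Λ.l i) hl ((Λ.j i).comp (c : AlgebraicClosure F →+* AlgebraicClosure F)) v
        fun g t hgt => ?_
      have h1 : g = BKOdd.conj c σ hcs.h (Λ.r i t) := by
        refine conj_eq_iff c σ hcs (Λ.r i t) g fun z => ?_
        apply c.injective
        apply (Λ.j i).injective
        have h2 := hgt (c z)
        change Λ.j i (c (g (c z))) = t (Λ.j i (c (c z))) at h2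
        rw [h2, hcs.hc, hcs.hc, Λ.spec]
      rw [h1]
      exact hv t
  -- the parity theorem
  have hHP' : BKOdd.HodgePair (BKOdd.chL (χ.comp (rG Λ U₀ i₀)) L) (Zf (MonoidHom.id (GQ (Λ.l i₀))))
      (VG.comp (rG Λ U₀ i₀)) ((dualC VG cG B).comp (rG Λ U₀ i₀)) s s' := by
    rw [hloc i₀, hVr i₀, hDr]
    exact hHP
  have hline : LineAx (Λ.l i₀) (χ.comp (rG Λ U₀ i₀)) := by
    rw [hloc i₀]
    exact h4 (Λ.l i₀) hp
  obtain ⟨hfd, hss, hfd1, hfd2, hs, hs', htriv, hW⟩ := h2 (Λ.l i₀) hp L Λ.ι (GU F Λ.P U₀)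
    (fun i => GQ (Λ.l i)) (rG Λ U₀) cG χ inv (fun i => if Λ.l i = Λ.l i₀ then 1 else 0) U hsit n VG
    A B hpol hNI hNI' i₀ (if_pos rfl) hne hline (Zf (MonoidHom.id (GQ (Λ.l i₀)))) s s' hHP'
  have htd : BKOdd.tdim (Λ.j i₀) V = s := by
    rw [hVr i₀] at hfd1 hs
    exact ht hfd1 hs
  -- the conditions
  have hur := h7 (Λ.l i₀) F hF c σ hcs L n V hV Λ ⟨i₀, rfl⟩ U₀ hUn hUi hunr (by
    intro i hi
    have h1 := htriv i (fun h => hi (by rw [h]))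
    rw [hVr i, hVcr i] at h1
    exact h1)
  have hcr := h8 (Λ.l i₀) F hF c σ hcs L n V hV (Λ.j i₀) (Λ.r i₀) (Λ.cont i₀) (Λ.spec i₀) B
  let infl : (GU F Λ.P U₀ → Fin n → L) →ₗ[L] (GF F → Fin n → L) :=
    LinearMap.funLeft L (Fin n → L) (QuotientGroup.mk : GF F → GU F Λ.P U₀)
  have hinj : Function.Injective infl :=
    LinearMap.funLeft_injective_of_surjective _ _ _ QuotientGroup.mk_surjective
  have hinfl : ∀ x : GU F Λ.P U₀ → Fin n → L, infl x = fun g : GF F => x (QuotientGroup.mk g) :=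
    fun x => rfl
  have hWm : ∀ x : GU F Λ.P U₀ → Fin n → L, x ∈ (BKOdd.Z1f (Λ.l i₀) V).comap infl ↔
      x ∈ BKOdd.Z1 VG ∧ (fun d => x (rG Λ U₀ i₀ d)) ∈
        Zf (MonoidHom.id (GQ (Λ.l i₀))) (VG.comp (rG Λ U₀ i₀)) ∧
      (fun d => (B : Matrix (Fin n) (Fin n) L) *ᵥ x (cG (rG Λ U₀ i₀ d))) ∈
        Zf (MonoidHom.id (GQ (Λ.l i₀))) ((dualC VG cG B).comp (rG Λ U₀ i₀)) := by
    intro x
    have e1 : (fun d => x (cG (rG Λ U₀ i₀ d))) = fun d => infl x (BKOdd.conj c σ hcs.h (Λ.r i₀ d)) := by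
      funext d
      change x (cG (QuotientGroup.mk (Λ.r i₀ d))) =
        x (QuotientGroup.mk (BKOdd.conj c σ hcs.h (Λ.r i₀ d)))
      rw [hcj]
    have e2 : (fun d => (B : Matrix (Fin n) (Fin n) L) *ᵥ x (cG (rG Λ U₀ i₀ d))) =
        fun d => (B : Matrix (Fin n) (Fin n) L) *ᵥ
          infl x (BKOdd.conj c σ hcs.h (Λ.r i₀ d)) := by
      funext d
      rw [congrFun e1 d]
    rw [hVr i₀, hDr, e2]
    constructor
    · rintro ⟨hz, -, hc⟩
      exact ⟨(infl_mem_Z1 hVG x).mp hz, (hcr (infl x) hz).mp hc⟩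
    · rintro ⟨hz, hc⟩
      have hz' : infl x ∈ BKOdd.Z1 V := (infl_mem_Z1 hVG x).mpr hz
      refine ⟨hz', (hur (infl x) hz').mpr fun g hg => ?_, (hcr (infl x) hz').mpr hc⟩
      change x (QuotientGroup.mk g) = 0
      have h1 : (QuotientGroup.mk g : GU F Λ.P U₀) = 1 := (QuotientGroup.eq_one_iff g).mpr hg
      rw [h1]
      have h3 := hz.2 1 1
      rw [mul_one, map_one, Units.val_one, Matrix.one_mulVec] at h3
      exact (left_eq_add.mp h3)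
  have hrange : BKOdd.Z1f (Λ.l i₀) V ≤ LinearMap.range infl := by
    rintro x ⟨hz, hu, -⟩
    obtain ⟨y, -, hy⟩ := hdesc x hz ((hur x hz).mp hu)
    exact ⟨y, funext hy⟩
  have hmap : ((BKOdd.Z1f (Λ.l i₀) V).comap infl).map infl = BKOdd.Z1f (Λ.l i₀) V := by
    rw [Submodule.map_comap_eq, inf_eq_right.mpr hrange]
  have hWle : (BKOdd.Z1f (Λ.l i₀) V).comap infl ≤ BKOdd.Z1 VG := fun x hx => ((hWm x).mp hx).1
  have hWfd : FiniteDimensional L ((BKOdd.Z1f (Λ.l i₀) V).comap infl) :=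
    Submodule.finiteDimensional_of_le hWle
  have e1 := (Submodule.equivMapOfInjective infl hinj
    ((BKOdd.Z1f (Λ.l i₀) V).comap infl)).finrank_eq
  have hZfd : FiniteDimensional L (BKOdd.Z1f (Λ.l i₀) V) := by
    rw [← hmap]
    infer_instance
  rw [hmap] at e1
  have hpar := hW _ hWm
  rw [e1] at hpar
  -- coboundaries
  have hB1 : BKOdd.B1 V ≤ BKOdd.Z1f (Λ.l i₀) V := by
    rintro _ ⟨v, rfl⟩
    have hz : BKOdd.cob V v ∈ BKOdd.Z1 V := BKOdd.B1_le hV ⟨v, rfl⟩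
    refine ⟨hz, fun l _ _ j => ⟨v, fun g _ => rfl⟩, (hcr _ hz).mpr ⟨?_, ?_⟩⟩
    · exact hHP.bz ⟨v, rfl⟩
    · refine hHP.bz' ⟨(B : Matrix (Fin n) (Fin n) L) *ᵥ v, ?_⟩
      funext t
      have h1 : ((dualC V (BKOdd.conj c σ hcs.h) B).comp (Λ.r i₀)) t =
          B * V (BKOdd.conj c σ hcs.h (Λ.r i₀ t)) * B⁻¹ := rfl
      rw [BKOdd.cob_apply, BKOdd.cob_apply, h1, Matrix.mulVec_mulVec, ← Units.val_mul,
        inv_mul_cancel_right, Matrix.mulVec_sub, Matrix.mulVec_mulVec, Units.val_mul]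
  have hB1n : Module.finrank L (BKOdd.B1 V) = n := by
    have h1 := BKOdd.finrank_B1 (ρ := V)
    have h3 : BKOdd.inv V Set.univ = ⊥ := by
      rw [eq_bot_iff]
      intro v hv
      rw [Submodule.mem_bot]
      exact hN1 v fun t => hv _ trivial
    rw [h3, finrank_bot, add_zero] at h1
    exact h1
  have hZle : BKOdd.Z1f (Λ.l i₀) V ≤ BKOdd.Z1 V := fun x hx => hx.1
  have h10 := BKOdd.finrank_cls hV (BKOdd.Z1f (Λ.l i₀) V) hB1 hZle
  have h11 := BKOdd.finite_cls (BKOdd.Z1f (Λ.l i₀) V) hZle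
  refine ⟨h11, ?_⟩
  rw [htd]
  change Module.finrank L (BKOdd.cls V (BKOdd.Z1f (Λ.l i₀) V)) % 2 = s % 2
  rw [hB1n] at h10
  omega

end Core

end PARM

open PARM in
theorem stPar (h1 : StArith) (h2 : StMainX) (_h3 : StTri) (h4 : StLineQ) (h5 : StU0)
    (h6 : StDesc) (h7 : StUnr) (h8 : StCrysM) (h9 : StHodM) : StPar := by
  intro p _ hp F _ _ hF hreal hsp c σ hcs L _ _ _ n V hV P₀ hP₀f hP₀s hunr hinv A hA hnsd B hB
    hdual hDR hFr
  have hpP : p ∈ insert p P₀ := Set.mem_insert _ _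
  have hunr1 : Tame p V (insert p P₀) := by
    intro l _ hl j g hg
    rw [Set.mem_insert_iff, not_or] at hl
    exact hunr l hl.1 hl.2 j g hg
  obtain ⟨U₀, hUn, hUo, hUi, hUc, hUV, hUχ, hUcj, hUψ⟩ := h5 p hp F hF hreal c σ hcs L n V hV A
    hA (insert p P₀) hpP hunr1
  have hconj : IsConj c := by
    refine ⟨hcs.hc, ?_⟩
    obtain ⟨a, ha⟩ := hcs.hσ
    refine ⟨a, fun h => ha ?_⟩
    rw [hcs.h] at h
    exact (algebraMap F (AlgebraicClosure F)).injective h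
  obtain ⟨Λ, hΛ, ⟨l₁, hl₁, hl₁p⟩, hAr⟩ := h1 p hp F hF hreal hsp c hconj (insert p P₀)
    (hP₀f.insert p) (by
      intro l hl
      rcases Set.mem_insert_iff.mp hl with h | h
      · rw [h]
        exact hsp
      · exact hP₀s l h) hpP U₀ hUn hUo hUi hUc hUχ (by
      intro g hg g' hg'
      rw [conj_eq_iff c σ hcs g g' hg']
      exact hUcj g hg)
  have hpΛ : p ∈ Λ.P := hΛ hpP
  have hunrΛ : TrivU V Λ.P U₀ := fun l _ hl => hUV l fun h => hl (hΛ h)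
  have hUi0 : U₀.index ≠ 0 := fun h => hUi (h ▸ dvd_zero p)
  obtain ⟨hcomp, hna, -, χ, cG, hχ, hχc, hcG, hcGc, hcc, hχcG, hloc, hdesc⟩ := h6 p hp F hF hreal
    c σ hcs Λ.P hpΛ U₀ hUcj
  obtain ⟨inv, hAx⟩ := hAr χ cG hχ (by
    intro g g' hg'
    rw [hcG, conj_eq_iff c σ hcs g g' hg'])
  obtain ⟨VG, hVGc, hVG, hdz⟩ := hdesc L n V hV hunrΛ
  have hUopen : IsOpen ((U₀.map (QuotientGroup.mk' (RU F Λ.P U₀)) : Subgroup (GU F Λ.P U₀)) :
      Set (GU F Λ.P U₀)) := QuotientGroup.isOpenMap_coe _ hUo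
  have hfix : ∀ u ∈ U₀.map (QuotientGroup.mk' (RU F Λ.P U₀)),
      PadicInt.toZMod ((χ u : ℤ_[p]ˣ) : ℤ_[p]) = 1 := by
    rintro _ ⟨g, hg, rfl⟩
    have e1 : χ (QuotientGroup.mk' (RU F Λ.P U₀) g) = cycF p F g := hχ g
    rw [e1]
    exact hUχ g hg
  have hdiag : ∀ ψ : GU F Λ.P U₀ →* (kk p L)ˣ, IsDiag VG A ψ →
      IsDiag V A (ψ.comp (QuotientGroup.mk' (RU F Λ.P U₀))) := by
    rintro ψ ⟨i, hi⟩
    refine ⟨i, fun g a ha => hi (QuotientGroup.mk g) a ?_⟩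
    rw [hVG]
    exact ha
  have hpol : Pol VG A cG χ B (U₀.map (QuotientGroup.mk' (RU F Λ.P U₀))) := by
    refine ⟨hVGc, ?_, hB, ?_, ?_, ?_⟩
    · intro a
      obtain ⟨g, rfl⟩ := QuotientGroup.mk_surjective a
      rw [hVG]
      exact hA g
    · intro a
      obtain ⟨g, rfl⟩ := QuotientGroup.mk_surjective a
      have e1 : BKOdd.chL χ L (QuotientGroup.mk g : GU F Λ.P U₀) = BKOdd.chL (cycF p F) L g := by
        change algebraMap ℚ_[p] L (((χ (QuotientGroup.mk g) : ℤ_[p]ˣ) : ℤ_[p]) : ℚ_[p]) = _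
        rw [hχ]
        rfl
      have e2 : (VG.comp cG) (QuotientGroup.mk g : GU F Λ.P U₀) =
          (V.comp (BKOdd.conj c σ hcs.h)) g := by
        change VG (cG (QuotientGroup.mk g)) = V (BKOdd.conj c σ hcs.h g)
        rw [hcG, hVG]
      rw [e1, e2, hVG]
      exact hdual g
    · intro ψ hψ
      obtain ⟨i, hi⟩ := hdiag ψ hψ
      obtain ⟨g, hg⟩ := hnsd i
      refine ⟨QuotientGroup.mk g, ?_⟩
      have e1 := nsd_of hA (BKOdd.conj c σ hcs.h) (cycF p F) i g hg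
        (ψ.comp (QuotientGroup.mk' (RU F Λ.P U₀))) hi
      rw [hχ, hcG]
      exact e1
    · rintro ψ hψ _ ⟨g, hg, rfl⟩
      exact hUψ _ (hdiag ψ hψ) g hg
  obtain ⟨i₀, hi₀⟩ := id hpΛ
  have hne : ∃ i, i ≠ i₀ := by
    obtain ⟨i, hi⟩ := id hl₁
    refine ⟨i, fun h => hl₁p ?_⟩
    rw [← hi, h, hi₀]
  obtain ⟨j₀, hj₀, hj₀'⟩ : ∃ j₀ : AlgebraicClosure F →+* PadicAlgCl p, HEq (Λ.j i₀) j₀ ∧
      HEq ((swapPl c σ hcs Λ).j i₀)
        (j₀.comp (c : AlgebraicClosure F →+* AlgebraicClosure F)) := by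
    subst hi₀
    exact ⟨_, HEq.rfl, HEq.rfl⟩
  have hloc1 : ∀ i, χ.comp (rG Λ U₀ i) = cycL p (Λ.l i) := by
    intro i
    refine MonoidHom.ext fun t => ?_
    change χ (QuotientGroup.mk (Λ.r i t)) = _
    rw [hχ]
    exact hloc (Λ.l i) (Λ.j i) (Λ.r i) (Λ.spec i) t
  obtain ⟨hfin, hpar⟩ := core h2 h4 h7 h8 h9 hp hF c σ hcs hV hinv hdual hDR hFr Λ hUn hUi0 hunrΛ i₀ hi₀
    j₀ hj₀ hne hAx hUopen hfix hχc hcGc hcc hχcG hcG hloc1 hVG hpol hdz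
  have hloc2 : ∀ i, χ.comp (rG (swapPl c σ hcs Λ) U₀ i) = cycL p (Λ.l i) := by
    intro i
    refine MonoidHom.ext fun t => ?_
    change χ (QuotientGroup.mk (BKOdd.conj c σ hcs.h (Λ.r i t))) = _
    rw [hχ]
    exact hloc (Λ.l i) ((swapPl c σ hcs Λ).j i) ((swapPl c σ hcs Λ).r i)
      ((swapPl c σ hcs Λ).spec i) t
  have hcomp' : CompactSpace (GU F (swapPl c σ hcs Λ).P U₀) := hcomp
  have hna' : NonarchimedeanGroup (GU F (swapPl c σ hcs Λ).P U₀) := hna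
  obtain ⟨-, hpar'⟩ := core h2 h4 h7 h8 h9 hp hF c σ hcs hV hinv hdual hDR hFr
    (swapPl c σ hcs Λ) hUn hUi0 hunrΛ i₀ hi₀ _ hj₀' hne (arith_swap c σ hcs Λ hcG hAx) hUopen hfix hχc
    hcGc hcc hχcG hcG hloc2 hVG hpol hdz
  refine ⟨hfin, fun j => ?_⟩
  rcases BKOdd.two_places hF j₀ c σ hcs j with ⟨g, hg⟩ | ⟨g, hg⟩
  · rw [BKOdd.tdim_inner j₀ j g V hg]
    exact hpar
  · rw [BKOdd.tdim_inner (j₀.comp (c : AlgebraicClosure F →+* AlgebraicClosure F)) j g V hg]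
    exact hpar'

end BKV
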