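import Pool.Agent.Lib.MP_7c08ba_nt.Met.FU0
import Pool.Agent.Lib.MP_7c08ba_nt.Met.V.StF

set_option autoImplicit false

/-!
Module U0 for tame ramification: the group on which the diagonal characters and the cyclotomic
character modulo `p` are trivial. An element of an inertia group outside `P₀` which is in this
group is unipotent modulo the maximal ideal and of order prime to `p` in `V`, so it acts trivially.
-/

noncomputable section

namespace BKV

open BKGen Matrix
open BKMet (GF GQ cycF cycL Pl Splits Tri IsDiag IsDual kk OO)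
open BKMet.FU0

namespace U0

section

variable {p : ℕ} [Fact p.Prime] {L : Type} [NormedField L] [NormedAlgebra ℚ_[p] L]
  {G : Type} [Group G] {n : ℕ}

/-- an element of finite order prime to `p` on which the diagonal characters are trivial -/
theorem eq_one_of_tame {V : G →* GL (Fin n) L} {A : GL (Fin n) L} (hT : Tri V A)
    {ψ : Fin n → (G →* (kk p L)ˣ)} (hψ : ∀ i, IsDg V A i (ψ i)) {g : G} (hg : ∀ i, ψ i g = 1)
    {m : ℕ} (hm : ¬ p ∣ m) (hgm : V g ^ m = 1) : V g = 1 := by
  classical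
  -- the matrices over the ring of integers
  let M : ℕ → Matrix (Fin n) (Fin n) (OO p L) := fun r i j =>
    ⟨((A * V (g ^ r) * A⁻¹ : GL (Fin n) L) : Matrix (Fin n) (Fin n) L) i j, (hT _ i j).1⟩
  have hM : ∀ r, (M r).map (fun a : OO p L => (a : L)) =
      ((A * V (g ^ r) * A⁻¹ : GL (Fin n) L) : Matrix (Fin n) (Fin n) L) := fun r => rfl
  let S : Matrix (Fin n) (Fin n) (OO p L) := ∑ r ∈ Finset.range m, M r
  have hdiag : ∀ i, IsLocalRing.residue (OO p L) (S i i) = (m : kk p L) := by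
    intro i
    have h1 : S i i = ∑ r ∈ Finset.range m, M r i i := Matrix.sum_apply i i _ _
    rw [h1, map_sum, Finset.sum_congr rfl fun r _ => hψ i (g ^ r) (M r i i) rfl]
    simp only [map_pow, hg, one_pow, Units.val_one, Finset.sum_const, Finset.card_range,
      nsmul_eq_mul, mul_one]
  have htri : ∀ i j, j < i → IsLocalRing.residue (OO p L) (S i j) = 0 := by
    intro i j hij
    have h1 : S i j = ∑ r ∈ Finset.range m, M r i j := Matrix.sum_apply i j _ _
    rw [h1, map_sum]
    refine Finset.sum_eq_zero fun r _ => ?_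
    rw [IsLocalRing.residue_eq_zero_iff, BKMet.OO.mem_max]
    exact (hT (g ^ r) i j).2 hij
  have hdet : IsLocalRing.residue (OO p L) S.det ≠ 0 := by
    rw [RingHom.map_det]
    have h1 : Matrix.BlockTriangular ((IsLocalRing.residue (OO p L)).mapMatrix S) id := by
      intro i j hij
      exact htri i j hij
    rw [Matrix.det_of_isUpperTriangular h1]
    refine Finset.prod_ne_zero_iff.2 fun i _ => ?_
    change IsLocalRing.residue (OO p L) (S i i) ≠ 0
    rw [hdiag i]
    intro h0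
    exact hm ((CharP.cast_eq_zero_iff (kk p L) p m).1 h0)
  have hdet0 : S.det ≠ 0 := by
    intro h0
    rw [h0, map_zero] at hdet
    exact hdet rfl
  let f : OO p L →+* L := (OO p L).subtype
  have hdetL : (f.mapMatrix S).det ≠ 0 := by
    rw [← RingHom.map_det]
    intro h0
    exact hdet0 (Subtype.ext h0)
  have hS : f.mapMatrix S = ∑ r ∈ Finset.range m,
      (((A * V g * A⁻¹ : GL (Fin n) L) : Matrix (Fin n) (Fin n) L)) ^ r := by
    change f.mapMatrix (∑ r ∈ Finset.range m, M r) = _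
    rw [map_sum]
    refine Finset.sum_congr rfl fun r _ => ?_
    have h1 : A * V (g ^ r) * A⁻¹ = (A * V g * A⁻¹) ^ r := by
      rw [map_pow, conj_pow]
    change (M r).map (fun a : OO p L => (a : L)) = _
    rw [hM, h1, Units.val_pow_eq_pow_val]
  have hgeom := mul_geom_sum (((A * V g * A⁻¹ : GL (Fin n) L) : Matrix (Fin n) (Fin n) L)) m
  have hm1 : (((A * V g * A⁻¹ : GL (Fin n) L) : Matrix (Fin n) (Fin n) L)) ^ m = 1 := by
    rw [← Units.val_pow_eq_pow_val, conj_pow, hgm, mul_one, mul_inv_cancel, Units.val_one]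
  rw [hm1, sub_self, ← hS] at hgeom
  have hu : IsUnit (f.mapMatrix S) := (Matrix.isUnit_iff_isUnit_det _).2 (isUnit_iff_ne_zero.2 hdetL)
  have h2 : ((A * V g * A⁻¹ : GL (Fin n) L) : Matrix (Fin n) (Fin n) L) - 1 = 0 :=
    (hu.mul_left_eq_zero).1 hgeom
  have h3 : A * V g * A⁻¹ = 1 := Units.ext (sub_eq_zero.1 h2)
  have h4 : V g = A⁻¹ * (A * V g * A⁻¹) * A := by group
  rw [h4, h3, mul_one, inv_mul_cancel]

end

end U0

/-- Module U0. -/
theorem stU0 (h : BKMet.StTri) : StU0 := by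
  intro p _ _ F _ _ _ _ c σ hcs L _ _ _ n V hV A hT P₀ hpP hin
  have hp : p.Prime := Fact.out
  choose ψ hψ using (h p L (GF F) n V A hT).1
  have hψ' : ∀ i, IsDg V A i (ψ i) := hψ
  let f : GF F →* (Fin n → (kk p L)ˣ) × (ZMod p)ˣ := (MonoidHom.pi ψ).prod (chp p F)
  let cj : GF F →* GF F := BKOdd.conj c σ hcs.h
  let f' : GF F →* ((Fin n → (kk p L)ˣ) × (ZMod p)ˣ) × ((Fin n → (kk p L)ˣ) × (ZMod p)ˣ) :=
    f.prod (f.comp cj)
  have hf : ∀ g, f g = 1 ↔ (∀ i, ψ i g = 1) ∧ chp p F g = 1 := by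
    intro g
    constructor
    · intro h1
      exact ⟨fun i => congrFun (congrArg Prod.fst h1) i, congrArg Prod.snd h1⟩
    · rintro ⟨h1, h2⟩
      exact Prod.ext (funext h1) h2
  have hf' : ∀ g, g ∈ f'.ker ↔ f g = 1 ∧ f (cj g) = 1 := by
    intro g
    rw [MonoidHom.mem_ker]
    constructor
    · intro h1
      exact ⟨congrArg Prod.fst h1, congrArg Prod.snd h1⟩
    · rintro ⟨h1, h2⟩
      exact Prod.ext h1 h2
  have hcj : Continuous cj := BKOdd.Conj.continuous_conjO c σ hcs.h
  have hcc : ∀ g, cj (cj g) = g := BKOdd.Conj.conj_conj hcs.h hcs.hc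
  have hof : IsOpen {g : GF F | f g = 1} := by
    have h1 : {g : GF F | f g = 1} = (⋂ i, {g : GF F | ψ i g = 1}) ∩ {g : GF F | chp p F g = 1} := by
      ext g
      rw [Set.mem_ofPred_eq, hf, Set.mem_inter_iff, Set.mem_iInter]
      rfl
    rw [h1]
    exact (isOpen_iInter_of_finite fun i => isOpen_dg hV hT (hψ' i)).inter isOpen_chp
  have hopen : IsOpen (f'.ker : Set (GF F)) := by
    have h1 : (f'.ker : Set (GF F)) = {g : GF F | f g = 1} ∩ cj ⁻¹' {g : GF F | f g = 1} := by
      ext g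
      exact hf' g
    rw [h1]
    exact hof.inter (hof.preimage hcj)
  have hcard : ¬ p ∣ Nat.card ((Fin n → (kk p L)ˣ) × (ZMod p)ˣ) :=
    card_prod_not_dvd hp (card_pi_not_dvd hp (card_units_not_dvd p (kk p L)) n)
      (card_units_not_dvd p (ZMod p))
  refine ⟨f'.ker, inferInstance, hopen, ?_, comm_mem_ker f', ?_, ?_, ?_, ?_⟩
  · exact index_ker_not_dvd f' (card_prod_not_dvd hp hcard hcard)
  · intro l _ hl j g hg hgU
    obtain ⟨m, hm, hgm⟩ := hin l hl j g hg
    exact U0.eq_one_of_tame hT hψ' (fun i => ((hf g).1 ((hf' g).1 hgU).1).1 i) hm hgm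
  · intro g hg
    exact (chp_eq_one g).1 ((hf g).1 ((hf' g).1 hg).1).2
  · intro g hg
    have h1 := (hf' g).1 hg
    refine (hf' (cj g)).2 ⟨h1.2, ?_⟩
    rw [hcc]
    exact h1.1
  · rintro ψ' ⟨i, hi⟩ u hu
    rw [isDg_eq hT (i := i) hi (hψ' i)]
    exact ((hf u).1 ((hf' u).1 hu).1).1 i

end BKV
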