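import Pool.Agent.Lib.MP_7c08ba_nt.Met.FUNR
import Pool.Agent.Lib.MP_7c08ba_nt.Glob.Inert
import Pool.Agent.Lib.MP_7c08ba_nt.Met.V.StF

set_option autoImplicit false

/-!
Module UNR for tame ramification: cocycles which are unramified away from `p`. At a place outside
`P` the inertia group acts on `V` through a finite quotient, on which the cocycle is defined, and
the first cohomology group of a finite group with coefficients in `V` is trivial.
-/

noncomputable section

namespace BKV

open BKGen Matrix MP_7c08ba.Crys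
open BKMet (GF GQ cycF cycL Pl Splits Tri IsDiag IsDual kk OO InertAway)
open BKMet.FUNR

namespace UNR

/-- a cocycle on a group `I` which is trivial on a normal subgroup of finite index, together with
the representation, is a coboundary -/
theorem coc_fin {I : Type} [Group I] (N : Subgroup I) [N.Normal] (hN : Finite (I ⧸ N)) {L : Type}
    [Field L] [CharZero L] {n : ℕ} (V : I →* GL (Fin n) L) (x : I → Fin n → L)
    (hx : ∀ g h, x (g * h) = x g + (V g : Matrix (Fin n) (Fin n) L) *ᵥ x h)
    (h0 : ∀ g ∈ N, x g = 0) :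
    ∃ v : Fin n → L, ∀ g, x g = (V g : Matrix (Fin n) (Fin n) L) *ᵥ v - v := by
  classical
  have : Fintype (I ⧸ N) := Fintype.ofFinite _
  have hout : ∀ g : I, x (Quotient.out (QuotientGroup.mk g : I ⧸ N)) = x g := by
    intro g
    have h1 : g⁻¹ * (QuotientGroup.mk g : I ⧸ N).out ∈ N :=
      QuotientGroup.eq.1 (QuotientGroup.out_eq' (QuotientGroup.mk g : I ⧸ N)).symm
    have h2 := hx g (g⁻¹ * (QuotientGroup.mk g : I ⧸ N).out)
    rw [mul_inv_cancel_left, h0 _ h1, mulVec_zero, add_zero] at h2
    exact h2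
  have hcard : (Fintype.card (I ⧸ N) : L) ≠ 0 := by
    rw [Nat.cast_ne_zero]
    exact Fintype.card_ne_zero
  set s : Fin n → L := ∑ q : I ⧸ N, x q.out with hs
  have key : ∀ g, (V g : Matrix (Fin n) (Fin n) L) *ᵥ s = s - (Fintype.card (I ⧸ N) : L) • x g := by
    intro g
    have h1 : ∀ q : I ⧸ N, (V g : Matrix (Fin n) (Fin n) L) *ᵥ x q.out =
        x (Quotient.out (QuotientGroup.mk g * q : I ⧸ N)) - x g := by
      intro q
      have h2 : (QuotientGroup.mk g * q : I ⧸ N) = QuotientGroup.mk (g * q.out) := by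
        rw [QuotientGroup.mk_mul, QuotientGroup.out_eq']
      rw [h2, hout, hx, add_sub_cancel_left]
    have h3 : (V g : Matrix (Fin n) (Fin n) L) *ᵥ s =
        ∑ q : I ⧸ N, (V g : Matrix (Fin n) (Fin n) L) *ᵥ x q.out := by
      rw [hs]
      exact map_sum (Matrix.mulVecLin (V g : Matrix (Fin n) (Fin n) L)) _ _
    rw [h3, Finset.sum_congr rfl fun q _ => h1 q, Finset.sum_sub_distrib, Finset.sum_const,
      Finset.card_univ, Nat.cast_smul_eq_nsmul, hs]
    congr 1
    exact Fintype.sum_equiv (Equiv.mulLeft (QuotientGroup.mk g : I ⧸ N)) _ _ fun q => rfl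
  refine ⟨-((Fintype.card (I ⧸ N) : L)⁻¹ • s), fun g => ?_⟩
  rw [mulVec_neg, mulVec_smul, key g, smul_sub, smul_smul, inv_mul_cancel₀ hcard, one_smul]
  abel

end UNR

open UNR in
/-- Module UNR: cocycles which are unramified away from `p`. -/
theorem stUnr : StUnr := by
  intro p _ F _ _ hF c σ hcs L _ _ _ n V hV Λ hp U hUn hUi hur hloc x hx
  constructor
  · intro hU
    have h1 : InertAwayU F Λ.P U ⊆ (kerC hx : Set (GF F)) := by
      rintro g ⟨l, hl, j, hlP, hg, hgU⟩
      have hlp : l ≠ p := by
        rintro rfl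
        exact hlP hp
      have h2 := hur l hlP j g hg hgU
      obtain ⟨v, hv⟩ := hU l hlp j
      refine ⟨h2, ?_⟩
      rw [hv g hg, h2, Units.val_one, one_mulVec, sub_self]
    have hn := kerC_normal hx
    have h2 : RU F Λ.P U ≤ kerC hx :=
      Subgroup.topologicalClosure_minimal _ (Subgroup.normalClosure_le_normal h1)
        (kerC_closed hV hx)
    intro g hg
    exact (h2 hg).2
  · intro hR l _ hlp j
    by_cases hl : l ∈ Λ.P
    · obtain ⟨i, rfl⟩ := hl
      obtain ⟨hB1, hB2⟩ := hloc i hlp
      rcases BKOdd.two_places hF (Λ.j i) c σ hcs j with ⟨h, hh⟩ | ⟨h, hh⟩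
      · exact local_key hx (Λ.j i) j (Λ.r i) (Λ.cont i) (Λ.spec i) hB1 h hh
      · have hcs' : ∀ z, c.symm z = c z := fun z => by
          rw [RingEquiv.symm_apply_eq, hcs.hc]
        refine local_key hx ((Λ.j i).comp (c : AlgebraicClosure F →+* AlgebraicClosure F)) j
          ((BKOdd.conj c σ hcs.h).comp (Λ.r i)) ?_ ?_ hB2 h hh
        · exact (BKOdd.Conj.continuous_conjO c σ hcs.h).comp (Λ.cont i)
        · intro t z
          change Λ.j i (c (c (Λ.r i t (c.symm z)))) = t (Λ.j i (c z))
          rw [hcs.hc, hcs', Λ.spec]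
    · let I : Subgroup (GF F) := Pool.Agent.Lib.MP_7c08ba_nt.inert F (Genus.primeOf j)
      have hI : ∀ g : GF F, g ∈ Inert F (AlgebraicClosure F) j → g ∈ I := fun g hg =>
        BKGlob.inert_of_Inert j hg
      have hI' : ∀ g : GF F, g ∈ I → g ∈ Inert F (AlgebraicClosure F) j := fun g hg =>
        BKGlob.Inert_of_inert j hg
      let N : Subgroup I := U.subgroupOf I
      have hNi : N.index ≠ 0 := fun h => hUi (by
        have h1 : N.index ∣ U.index := Subgroup.relIndex_dvd_index_of_normal U I
        rw [h] at h1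
        exact zero_dvd_iff.1 h1)
      have hNf : Finite (I ⧸ N) := Nat.finite_of_card_ne_zero hNi
      have hNn : N.Normal := inferInstance
      have hL : CharZero L := charZero_of_injective_algebraMap (algebraMap ℚ_[p] L).injective
      obtain ⟨v, hv⟩ := coc_fin N hNf (V.comp I.subtype) (fun g => x (g : GF F))
        (fun g h => hx.2 g h) (fun g hg => hR (g : GF F) (Subgroup.le_topologicalClosure _
          (Subgroup.subset_normalClosure ⟨l, inferInstance, j, hl, hI' _ g.2, hg⟩)))
      exact ⟨v, fun g hg => hv ⟨g, hI g hg⟩⟩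

end BKV
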