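import Pool.Agent.Lib.MP_7c08ba_nt.Met.NAll
import Pool.Agent.Lib.MP_7c08ba_nt.Met.V.GlobAll
import Pool.Agent.Lib.MP_7c08ba_nt.Met.V.DESC
import Pool.Agent.Lib.MP_7c08ba_nt.Met.V.NSD
import Pool.Agent.Lib.MP_7c08ba_nt.Met.V.PARM
import Pool.Agent.Lib.MP_7c08ba_nt.Met.V.U0
import Pool.Agent.Lib.MP_7c08ba_nt.Met.V.UNR

set_option autoImplicit false

/-!
Parity for representations with tame ramification at all places outside a finite set of primes
which split in `F`: the theorem.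
-/

noncomputable section

namespace BKV

open BKGen Matrix
open BKMet (GF GQ cycF cycL Splits Tri IsDual)

/-- **Parity of `H¹_f`** -/
theorem aPar : StPar :=
  stPar aArith BKMet.All.mainX BKMet.All.tri BKMet.All.lineQ (stU0 BKMet.All.tri) stDesc stUnr
    BKMet.stCrysM BKMet.stHodM

/-- **Parity of `H¹_f`**: there is no condition on the diagonal characters if the elements of the
inertia groups above one prime which is ramified in `F` have odd order. -/
def StParO : Prop :=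
  ∀ (p : ℕ) [Fact p.Prime], p ≠ 2 → ∀ (F : Type) [Field F] [NumberField F],
    Module.finrank ℚ F = 2 → IsEmpty (F →+* ℝ) → Splits F p →
    ∀ (c : AlgebraicClosure F ≃+* AlgebraicClosure F) (σ : F ≃+* F) (hcs : BKOdd.ConjHyp c σ)
    (L : Type) [NormedField L] [NormedAlgebra ℚ_[p] L] [FiniteDimensional ℚ_[p] L] (n : ℕ)
    (V : GF F →* GL (Fin n) L), Continuous V →
    ∀ P₀ : Set ℕ, P₀.Finite → (∀ l ∈ P₀, Splits F l) →
    (∀ (l : ℕ) [Fact l.Prime], l ≠ p → l ∉ P₀ → ∀ j : AlgebraicClosure F →+* PadicAlgCl l,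
      ∀ g ∈ Inert F (AlgebraicClosure F) j, ∃ m : ℕ, ¬ p ∣ m ∧ V g ^ m = 1) →
    (∀ (l : ℕ) [Fact l.Prime], l ≠ p → ∀ j : AlgebraicClosure F →+* PadicAlgCl l,
      ∀ v : Fin n → L, (∀ (g : GF F) (t : GQ l), (∀ z, j (g z) = t (j z)) →
        (V g : Matrix (Fin n) (Fin n) L) *ᵥ v = v) → v = 0) →
    ∀ l : ℕ, Ram l F → OddAt V l →
    ∀ A : GL (Fin n) L, Tri V A →
    ∀ B : GL (Fin n) L, (B : Matrix (Fin n) (Fin n) L)ᵀ = B →
    IsDual (cycF p F) V (V.comp (BKOdd.conj c σ hcs.h)) (B : Matrix (Fin n) (Fin n) L) →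
    (∀ j : AlgebraicClosure F →+* PadicAlgCl p, BKOdd.DeRhamAt j V) →
    (∀ j : AlgebraicClosure F →+* PadicAlgCl p, BKOdd.FrobAt ⊤ j V) →
    FiniteDimensional L (BKOdd.H1f p V) ∧ ∀ j : AlgebraicClosure F →+* PadicAlgCl p,
      Module.finrank L (BKOdd.H1f p V) % 2 = BKOdd.tdim j V % 2

theorem aParO : StParO := by
  intro p _ hp F _ _ hF hreal hs c σ hcs L _ _ _ n V hV P₀ hP₀ hP hur hinv l hl hodd A hA B hB hd
    hdR hfr
  exact aPar p hp F hF hreal hs c σ hcs L n V hV P₀ hP₀ hP hur hinv A hA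
    (fun i => nsd_of_odd BKMet.All.tri hp hF hreal hs c σ hcs V hl hodd hA i) B hB hd hdR hfr

end BKV
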