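import Pool.Agent.Lib.MP_7c08ba_nt.Met.V.UI2

set_option autoImplicit false

/-!
The local invariants and the reciprocity law for the groups `GU F P U`, where `U` is an open normal
subgroup such that the inertia groups outside `P` act on it through groups of order prime to `p`.
-/

noncomputable section

namespace BKV

open NumberField IsDedekindDomain BKGen BKGlob2
open BKLoc2 (Sys IsLam)
open BKMet (QZ actA kch GF GQ cycF cycL IsConj Pl Splits pb1 pb2 LocAx)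
open BKPar (Loc1 Loc2)

/-- Module REC: local invariants for which the reciprocity law holds for all groups `GU F P U`. -/
def StRec : Prop :=
  ∀ (p : ℕ) [Fact p.Prime], p ≠ 2 → ∀ (F : Type) [Field F] [NumberField F],
    Module.finrank ℚ F = 2 → IsEmpty (F →+* ℝ) →
    ∀ c₀ : AlgebraicClosure F ≃+* AlgebraicClosure F, IsConj c₀ →
    ∀ Λ : Pl F, (∀ i, Splits F (Λ.l i)) → p ∈ Λ.P →
    ∃ (lam : ℤ_[p]ˣ → ℤ_[p]) (ζ : ℕ → AlgebraicClosure F)
      (inv : ∀ i, (GQ (Λ.l i) → GQ (Λ.l i) → QZ p) →+ QZ p),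
      IsLam lam ∧ Sys p ζ ∧
      (∀ i, LocAx p (cycL p (Λ.l i)) (inv i) (if Λ.l i = p then 1 else 0)) ∧
      (∀ i, InvL p lam (Λ.l i) (fun n => Λ.j i (ζ n)) (inv i)) ∧
      ∀ U : Subgroup (GF F), U.Normal → IsOpen (U : Set (GF F)) → TameU p Λ.P U →
      ∀ (χ : GU F Λ.P U →* ℤ_[p]ˣ) (c : GU F Λ.P U →* GU F Λ.P U),
      (∀ g : GF F, χ (QuotientGroup.mk g) = cycF p F g) →
      (∀ g g' : GF F, (∀ z, g' (c₀ z) = c₀ (g z)) →
        c (QuotientGroup.mk g) = QuotientGroup.mk g') →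
      ∀ z ∈ BKND.Z2 (actA χ),
      ∑ i, (inv i (pb2 (Λ.loc (QuotientGroup.mk' (RU F Λ.P U)) c (i, false)) z) -
        inv i (pb2 (Λ.loc (QuotientGroup.mk' (RU F Λ.P U)) c (i, true)) z)) = 0

theorem stRec (hLI : StLI) (hLam : BKLoc2.StLam) (hCY : StCY) (hCJ : StCJ) (hRE : StRE)
    (hUI : StUI2) : StRec := by
  intro p _ hp F _ _ hF2 hFreal c₀ hc₀ Λ hsplitΛ hpΛ
  obtain ⟨⟨cc, hcc⟩, hall⟩ := hCJ F hF2 hFreal c₀ hc₀
  obtain ⟨⟨lam, hlam⟩, -⟩ := hLam p hp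
  obtain ⟨⟨z, hz⟩, -⟩ := hCY p F (AlgebraicClosure F) F (AlgebraicClosure F)
  have hzi : ∀ i, Sys p (fun n => Λ.j i (z n)) := fun i =>
    { prim := fun n => (hz.prim n).map_of_injective (Λ.j i).injective
      pow := fun n => by rw [← map_pow, hz.pow] }
  choose inv hinv hInvL using fun i => hLI p hp lam hlam (Λ.l i) (fun n => Λ.j i (z n)) (hzi i)
  refine ⟨lam, z, inv, hlam, hz, hinv, hInvL, ?_⟩
  intro U hUn hUo hUt χ c hχ hc z₂ hz₂
  have hccc : ∀ g : GF F, c (QuotientGroup.mk g) = QuotientGroup.mk (cc g) := fun g =>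
    hc g (cc g) fun z => hcc.eq g z
  have hmk : Continuous (QuotientGroup.mk' (RU F Λ.P U)) := QuotientGroup.continuous_mk
  -- inflation to `GF F`
  have hinf : pb2 (QuotientGroup.mk' (RU F Λ.P U)) z₂ ∈ BKND.Z2 (actA (cycF p F)) := by
    obtain ⟨⟨W, hW, hW'⟩, h2⟩ := hz₂
    refine ⟨⟨W.comap (QuotientGroup.mk' (RU F Λ.P U)), hW.preimage hmk, ?_⟩, ?_⟩
    · intro g h w hw w' hw'
      change z₂ (QuotientGroup.mk' _ (g * w)) (QuotientGroup.mk' _ (h * w')) = _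
      rw [map_mul, map_mul]
      exact hW' _ _ _ hw _ hw'
    · intro g h k
      have h3 := h2 (QuotientGroup.mk' _ g) (QuotientGroup.mk' _ h) (QuotientGroup.mk' _ k)
      have h4 : ∀ x : QZ p, actA χ (QuotientGroup.mk' (RU F Λ.P U) g) x =
          actA (cycF p F) g x := by
        intro x
        rw [BKMet.actA_apply, BKMet.actA_apply]
        congr 2
        exact hχ g
      rw [h4] at h3
      exact h3
  have hrec := hRE p hp F hF2 hFreal c₀ cc hcc Λ hsplitΛ hpΛ lam hlam z hz inv hInvL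
    (pb2 (QuotientGroup.mk' (RU F Λ.P U)) z₂) hinf ?_
  · rw [← hrec]
    refine Finset.sum_congr rfl fun i _ => ?_
    have e1 : pb2 (Λ.loc (QuotientGroup.mk' (RU F Λ.P U)) c (i, false)) z₂ =
        pb2 (Λ.r i) (pb2 (QuotientGroup.mk' (RU F Λ.P U)) z₂) := rfl
    have e2 : pb2 (Λ.loc (QuotientGroup.mk' (RU F Λ.P U)) c (i, true)) z₂ =
        pb2 (cc.comp (Λ.r i)) (pb2 (QuotientGroup.mk' (RU F Λ.P U)) z₂) := by
      funext t t'
      change z₂ (c (QuotientGroup.mk (Λ.r i t))) (c (QuotientGroup.mk (Λ.r i t'))) =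
        z₂ (QuotientGroup.mk (cc (Λ.r i t))) (QuotientGroup.mk (cc (Λ.r i t')))
      rw [hccc, hccc]
    rw [e1, e2]
  · intro l _ hl j
    have h1 := hUI p hp F Λ.P U hUn hUo hUt hpΛ (QZ p) (actA χ) BKGlob2.AR.qz_tors
      (UIAux.sm_actA p χ hχ) z₂ hz₂ l hl j
    have e1 : actA ((cycF p F).comp (fs (MonoidHom.id (GF F)) j)) =
        (actA χ).comp ((QuotientGroup.mk' (RU F Λ.P U)).comp (fs (MonoidHom.id (GF F)) j)) := by
      refine MonoidHom.ext fun d => AddMonoidHom.ext fun x => ?_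
      change ((cycF p F (fs (MonoidHom.id (GF F)) j d) : ℤ_[p]ˣ) : ℤ_[p]) • x =
        ((χ (QuotientGroup.mk (fs (MonoidHom.id (GF F)) j d)) : ℤ_[p]ˣ) : ℤ_[p]) • x
      rw [hχ]
    rw [e1]
    exact h1

theorem aRec : StRec :=
  stRec BKGlob2.aLI BKLoc2.stLam BKGlob2.stCY BKGlob2.stCJ BKGlob2.aRE aUI2

end BKV
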