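import Pool.Agent.Lib.MP_7c08ba_nt.Met.V.UI
import Pool.Agent.Lib.MP_7c08ba_nt.Met.GlobAll

set_option autoImplicit false

/-!
A two-class of `GU F P U` with coefficients in a `p`-primary torsion module is trivial at the
places outside `P`, if the inertia groups outside `P` act on `U` through groups of order prime to
`p`; there is no condition on the index of `U`.
-/

noncomputable section

namespace BKV

open NumberField IsDedekindDomain BKGen BKGlob2
open BKMet (QZ actA kch GF GQ cycF pb1 pb2)
open BKPar (Loc1 Loc2)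

/-- The images of the inertia groups outside `P` in the quotient by the normal subgroup `U` have
order prime to `p`. -/
def TameU (p : ℕ) {F : Type} [Field F] (P : Set ℕ) (U : Subgroup (GF F)) : Prop :=
  ∀ (l : ℕ) [Fact l.Prime], l ∉ P → ∀ j : AlgebraicClosure F →+* PadicAlgCl l,
    ∀ g ∈ Inert F (AlgebraicClosure F) j, ∃ m : ℕ, ¬ p ∣ m ∧ g ^ m ∈ U

/-- a normal subgroup of index prime to `p` -/
theorem TameU.of_index {p : ℕ} {F : Type} [Field F] {P : Set ℕ} {U : Subgroup (GF F)}
    (hn : U.Normal) (h : ¬ p ∣ U.index) : TameU p P U :=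
  fun _ _ _ _ g _ => ⟨U.index, h, Subgroup.pow_index_mem U g⟩

/-- Module UI2: a two-class of `GU F P U` is trivial at the places outside `P`. -/
def StUI2 : Prop :=
  ∀ (p : ℕ) [Fact p.Prime], p ≠ 2 → ∀ (F : Type) [Field F] [NumberField F] (P : Set ℕ)
    (U : Subgroup (GF F)), U.Normal → IsOpen (U : Set (GF F)) → TameU p P U → p ∈ P →
    ∀ (M : Type) [AddCommGroup M] (ρ : GU F P U →* AddMonoid.End M),
    (∀ m : M, ∃ n : ℕ, p ^ n • m = 0) →
    (∀ m : M, ∃ W : Subgroup (GU F P U), IsOpen (W : Set (GU F P U)) ∧ ∀ w ∈ W, ρ w m = m) →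
    ∀ z ∈ BKND.Z2 ρ, ∀ (l : ℕ) [Fact l.Prime], l ∉ P →
    ∀ j : AlgebraicClosure F →+* PadicAlgCl l,
    pb2 (dc P U j) z ∈ BKND.B2 (ρ.comp (dc P U j))

theorem stUI2 (h1 : StUN) (h2 : BKLoc2.StTRM) (hCP : StCP) : StUI2 := by
  intro p hpi hp F _ _ P U hUn hUo hUt hpP M _ ρ hM hρ z hz l _ hl j
  have hpp : p.Prime := Fact.out
  have hlp : l ≠ p := by
    rintro rfl
    exact hl hpP
  have hcq : Continuous (QuotientGroup.mk' (RU F P U)) := QuotientGroup.continuous_mk
  have : CharZero (AlgebraicClosure F) := charZero_of_injective_algebraMap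
    (algebraMap F (AlgebraicClosure F)).injective
  obtain ⟨-, hfsc, hDc, hDn, -⟩ := hCP F (AlgebraicClosure F) (GF F) (MonoidHom.id (GF F))
    Topology.IsOpenEmbedding.id l j
  -- the image of the decomposition group and its Sylow subgroup
  have hfin : Finite (GF F ⧸ U) := Subgroup.quotient_finite_of_isOpen U hUo
  let q : GF F →* GF F ⧸ U := QuotientGroup.mk' U
  let D := Cp (MonoidHom.id (GF F)) j
  let f : D →* GF F ⧸ U := q.comp (fs (MonoidHom.id (GF F)) j)
  obtain ⟨S⟩ : Nonempty (Sylow p f.range) := inferInstance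
  let S' : Subgroup (GF F ⧸ U) := (S : Subgroup f.range).map f.range.subtype
  let V : Subgroup (GF F) := S'.comap q
  have hUV : U ≤ V := by
    intro u hu
    change q u ∈ S'
    have h3 : q u = 1 := (QuotientGroup.eq_one_iff u).2 hu
    rw [h3]
    exact one_mem _
  have hVo : IsOpen (V : Set (GF F)) := Subgroup.isOpen_mono hUV hUo
  have hVI : ∀ g ∈ V, g ∈ Inert F (AlgebraicClosure F) j → g ∈ U := by
    intro g hgV hgI
    obtain ⟨m, hm, hgm⟩ := hUt l hl j g hgI
    have h3 : (q g) ^ m = 1 := by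
      rw [← map_pow]
      exact (QuotientGroup.eq_one_iff (g ^ m)).2 hgm
    obtain ⟨s, hs, hsg⟩ := (hgV : q g ∈ S')
    obtain ⟨k, hk⟩ := S.2 ⟨s, hs⟩
    have h4 : (q g) ^ p ^ k = 1 := by
      rw [← hsg]
      have h5 := congrArg (fun x : (S : Subgroup f.range) => (((x : f.range) : GF F ⧸ U))) hk
      exact h5
    have h5 : q g = 1 := by
      have h6 : orderOf (q g) ∣ Nat.gcd m (p ^ k) :=
        Nat.dvd_gcd (orderOf_dvd_of_pow_eq_one h3) (orderOf_dvd_of_pow_eq_one h4)
      have h7 : Nat.gcd m (p ^ k) = 1 :=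
        (((Nat.Prime.coprime_iff_not_dvd hpp).2 hm).symm.pow_right k)
      rw [h7, Nat.dvd_one] at h6
      exact orderOf_eq_one_iff.1 h6
    exact (QuotientGroup.eq_one_iff g).1 h5
  have hcomp : CompactSpace V := by
    have hcl : IsClosed (V : Set (GF F)) := Subgroup.isClosed_of_isOpen V hVo
    exact isCompact_iff_compactSpace.1 hcl.isCompact
  have hnon : NonarchimedeanGroup V := BKOdd.nonarch_subgroup V
  have hop : Topology.IsOpenEmbedding (V.subtype : V → GF F) := hVo.isOpenEmbedding_subtypeVal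
  have hunr := h1 p hp F (AlgebraicClosure F) V V.subtype hop l hlp j
    (GU F P U) ((QuotientGroup.mk' (RU F P U)).comp V.subtype)
    (hcq.comp continuous_subtype_val)
    (fun v hv => (QuotientGroup.eq_one_iff (v : GF F)).2
      (RQAux.inert_mem_RU hl j hv (hVI _ v.2 hv))) M ρ hM hρ z hz
  let H : Subgroup D := V.comap (fs (MonoidHom.id (GF F)) j)
  have hHo : IsOpen (H : Set D) := hVo.preimage hfsc
  have hHi : ¬ p ∣ H.index := by
    have h3 : H = (S : Subgroup f.range).comap f.rangeRestrict := by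
      ext d
      change q (fs (MonoidHom.id (GF F)) j d) ∈ S' ↔ f.rangeRestrict d ∈ (S : Subgroup f.range)
      constructor
      · rintro ⟨s, hs, hsd⟩
        have h4 : f.rangeRestrict d = s := Subtype.ext hsd.symm
        rw [h4]
        exact hs
      · intro h
        exact ⟨f.rangeRestrict d, h, rfl⟩
    rw [h3, Subgroup.index_comap_of_surjective _ f.rangeRestrict_surjective]
    exact S.not_dvd_index
  refine UIAux.restr h2 H hHo hpp hHi (ρ.comp (dc P U j)) hM ?_ ?_
  · have hdc : Continuous (dc P U j) := hcq.comp hfsc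
    exact BKGlob2.TWAux.pb2_mem (dc P U j) hdc ρ hz
  · let φ : H →* Cp V.subtype j :=
      { toFun := fun h => ⟨(⟨(h : D).1.1, h.2⟩, (h : D).1.2), (h : D).2⟩
        map_one' := rfl
        map_mul' := fun _ _ => rfl }
    have hφ : Continuous φ := by
      refine Continuous.subtype_mk (Continuous.prodMk (Continuous.subtype_mk ?_ _) ?_) _
      · exact continuous_fst.comp (continuous_subtype_val.comp continuous_subtype_val)
      · exact continuous_snd.comp (continuous_subtype_val.comp continuous_subtype_val)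
    exact BKV.TWAux.pb2_B2 φ hφ hunr

theorem aUI2 : StUI2 := stUI2 BKGlob2.aUN BKLoc2.stTRM BKGlob2.stCP

end BKV
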